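import Pool.Agent.Helper993.FP.W0
set_option autoImplicit false
set_option linter.all false

namespace FPW
variable {d : ℕ}

/-- `w` contains a disjoint family of `BB`-blocks of total length `k` -/
inductive BF (BB : List (Fin d) → List (Fin d) → Prop) : List (Fin d) → ℕ → Prop
  | nil (w : List (Fin d)) : BF BB w 0
  | step (u v z : List (Fin d)) (k : ℕ) : BF BB u k → BB u v → BF BB (u ++ v ++ z) (k + v.length)

/-- words of length `n` in `N` -/
noncomputable def an (N : Set (List (Fin d))) (n : ℕ) : ℕ := Set.ncard {w : List (Fin d) | w ∈ N ∧ w.length = n}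

/-- words of length `n` in `N` with a disjoint bad family of total length `k` -/
noncomputable def qn (N : Set (List (Fin d))) (BB : List (Fin d) → List (Fin d) → Prop) (n k : ℕ) : ℕ :=
  Set.ncard {w : List (Fin d) | w ∈ N ∧ w.length = n ∧ BF BB w k}

/-- `v` is a bad block after the history `u`: exceptional, or repeating an earlier block -/
def BB (E : ℕ → Finset (List (Fin d))) (Q : ℕ → ℕ) (T1 : ℕ) (u v : List (Fin d)) : Prop :=
  T1 ≤ v.length ∧ (v ∈ E v.length ∨ ∃ g, 1 ≤ g ∧ g ≤ Q v.length ∧ g ≤ u.length ∧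
    ∀ i, i < v.length → (u ++ v)[u.length + i]? = (u ++ v)[u.length - g + i]?)

/-- positions `e` covered by a long block that repeats an earlier one -/
def PBad (w : ℕ → Fin d) (n : ℕ) (Q : ℕ → ℕ) (T1 CB e : ℕ) : Prop :=
  ∃ a b t, a < b ∧ b ≤ e ∧ T1 ≤ t ∧ b + t ≤ n ∧ (∀ i, i < t → w (a + i) = w (b + i)) ∧ e ≤ b + CB * t ∧
    b - a ≤ Q t

end FPW

namespace FPA

/-- recursive bound for the exceptional sets -/
def Bd (d C : ℕ) (Rt κ : ℕ → ℕ) : ℕ → ℕ → ℕ → ℕ
  | 0, _, _ => 0
  | n + 1, t, c => c * Rt t + ∑ t1 ∈ Finset.range (t / C + 1), d ^ t1 * Bd d C Rt κ n t (c * κ t1)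

end FPA
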