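import Pool.Agent.Helper993.FP.D0
import Pool.Agent.Helper993.FP.WB
set_option autoImplicit false
set_option linter.all false

namespace FPA
open FPD

/-- multiplicative filtration by submodules -/
structure Flt {p : ℕ} {H R : Type} [Group H] [Ring R] [Algebra (ZMod p) R] (ι : H →* R)
    (J : ℕ → Submodule (ZMod p) R) : Prop where
  top : J 0 = ⊤
  anti : ∀ n, J (n + 1) ≤ J n
  mul : ∀ m n a b, a ∈ J m → b ∈ J n → a * b ∈ J (m + n)
  aug : ∀ h, ι h - 1 ∈ J 1

/-- dimension subgroup; `t = 0` gives everything -/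
def Dg {p : ℕ} {H R : Type} [Group H] [Ring R] [Algebra (ZMod p) R] {ι : H →* R}
    {J : ℕ → Submodule (ZMod p) R} (F : Flt ι J) (t : ℕ) : Subgroup H where
  carrier := {h | ι h - 1 ∈ J t}
  one_mem' := by simp
  mul_mem' := by
    intro a b ha hb
    have h1 : ι (a * b) - 1 = ι a * (ι b - 1) + (ι a - 1) := by rw [map_mul]; noncomm_ring
    have h2 : ι a * (ι b - 1) ∈ J t := by
      have := F.mul 0 t (ι a) (ι b - 1) (by rw [F.top]; trivial) hb
      simpa using this
    show ι (a * b) - 1 ∈ J t
    rw [h1]; exact add_mem h2 ha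
  inv_mem' := by
    intro a ha
    have h1 : ι (a⁻¹) - 1 = -(ι (a⁻¹) * (ι a - 1)) := by
      have : ι (a⁻¹) * ι a = 1 := by rw [← map_mul]; simp
      rw [mul_sub, this]; noncomm_ring
    have h2 : ι (a⁻¹) * (ι a - 1) ∈ J t := by
      have := F.mul 0 t (ι (a⁻¹)) (ι a - 1) (by rw [F.top]; trivial) ha
      simpa using this
    show ι (a⁻¹) - 1 ∈ J t
    rw [h1]; exact neg_mem h2

section
variable {p : ℕ} {H R : Type} [Group H] [Ring R] [Algebra (ZMod p) R] {ι : H →* R}
    {J : ℕ → Submodule (ZMod p) R}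

/-- filtration of the additive group -/
def JA (J : ℕ → Submodule (ZMod p) R) (t : ℕ) : AddSubgroup R := (J t).toAddSubgroup

/-- pairs of elements of the dimension subgroup -/
def DD (F : Flt ι J) (t : ℕ) : Subgroup (H × H) := (Dg F t).prod (Dg F t)

/-- pairs -/
def GP (Gm : ℕ → Subgroup H) (t : ℕ) : Subgroup (H × H) := (Gm t).prod (Gm t)

/-- monomial in `x - 1`, `y - 1` -/
def mon (ι : H →* R) (w : List Bool) (z : H × H) : R := (w.map (fun b => ι (if b then z.1 else z.2) - 1)).prod

/-- noncommutative polynomial in `x - 1`, `y - 1` -/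
noncomputable def ev (ι : H →* R) (f : List Bool →₀ ZMod p) (z : H × H) : R := f.sum (fun w c => c • mon ι w z)

/-- element of type `b` -/
def pur (b : Bool) (h : H) : H × H := if b then (h, 1) else (1, h)

/-- iterated differences, first entry applied first -/
def dels (U : List (Bool × H)) (φ : H × H → R) : H × H → R :=
  U.foldl (fun ψ x => del (pur x.1 x.2) ψ) φ

/-- leading form of the iterated difference of a monomial -/
def PP (ι : H →* R) : List (Bool × H) → List Bool → R
  | U, [] => if U = [] then 1 else 0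
  | U, b :: w => ∑ i : Fin U.length, if (U.get i).1 = b then (ι (U.get i).2 - 1) * PP ι (U.eraseIdx i) w else 0
termination_by U w => w.length

/-- product of generators minus one -/
def xw {d : ℕ} (ι : H →* R) (g : Fin d → H) (w : List (Fin d)) : R := (w.map (fun i => ι (g i) - 1)).prod

/-- span of larger words and of the next filtration step -/
def TT {d : ℕ} (ι : H →* R) (J : ℕ → Submodule (ZMod p) R) (g : Fin d → H) (w : List (Fin d)) : Submodule (ZMod p) R :=
  Submodule.span (ZMod p) {a | ∃ w' : List (Fin d), w'.length = w.length ∧ w < w' ∧ a = xw ι g w'} ⊔ J (w.length + 1)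

/-- `a` has leading word `w` -/
def Lead {d : ℕ} (ι : H →* R) (J : ℕ → Submodule (ZMod p) R) (g : Fin d → H) (a : R) (w : List (Fin d)) : Prop :=
  a - xw ι g w ∈ TT ι J g w

/-- generation by words -/
def Gen {d : ℕ} (ι : H →* R) (J : ℕ → Submodule (ZMod p) R) (g : Fin d → H) : Prop :=
  ∀ n, J n ≤ Submodule.span (ZMod p) {a | ∃ w : List (Fin d), w.length = n ∧ a = xw ι g w} ⊔ J (n + 1)
end

end FPA

namespace FPG

/-- commutator filtration of a group -/
def Gf (H : Type) [Group H] : ℕ → Subgroup H
  | 0 => ⊤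
  | 1 => ⊤
  | (n + 2) => ⨆ i : Fin (n + 1), ⁅Gf H (i.1 + 1), Gf H (n + 1 - i.1)⁆
termination_by n => n
decreasing_by all_goals (have := i.2; omega)

end FPG

namespace FPG
open FPA

/-- powers of the augmentation ideal, with `Jm 0 = ⊤` -/
noncomputable def Jm (p : ℕ) (H : Type) [Group H] (n : ℕ) : Submodule (ZMod p) (MonoidAlgebra (ZMod p) H) :=
  if n = 0 then ⊤
  else (Submodule.span (ZMod p) (Set.range (fun g : H => MonoidAlgebra.of (ZMod p) H g - 1))) ^ n

end FPG
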