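import Pool.Agent.Helper993.FP.A0
set_option autoImplicit false
set_option linter.all false

namespace FPW
variable {d : ℕ}



theorem SL_trans {u v w : List (Fin d)} (h1 : SL u v) (h2 : SL v w) : SL u w := by
  obtain ⟨c, a, b, u', v', rfl, hv, hab⟩ := h1
  obtain ⟨c', a', b', v'', w'', hv2, rfl, hab'⟩ := h2
  rw [hv] at hv2
  rcases List.append_eq_append_iff.mp hv2 with ⟨t, h1, h2⟩ | ⟨t, h1, h2⟩
  · cases t with
    | nil =>
      simp at h1 h2
      obtain ⟨h2, h3⟩ := h2
      subst h1
      exact ⟨c', a, b', u', w'', rfl, rfl, lt_trans hab (h2 ▸ hab')⟩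
    | cons y t =>
      simp at h2
      obtain ⟨h2, h3⟩ := h2
      subst h1
      exact ⟨c, a, b, u', t ++ b' :: w'', rfl, by simp [h2], hab⟩
  · cases t with
    | nil =>
      simp at h1 h2
      obtain ⟨h2, h3⟩ := h2
      subst h1
      exact ⟨c, a, b', u', w'', rfl, rfl, lt_trans hab (h2 ▸ hab')⟩
    | cons y t =>
      simp at h2
      obtain ⟨h2, h3⟩ := h2
      subst h1
      exact ⟨c', a', b', t ++ a :: u', w'', by simp [h2], rfl, hab'⟩

theorem SL_append {u v : List (Fin d)} (h : SL u v) (x y : List (Fin d)) : SL (u ++ x) (v ++ y) := by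
  obtain ⟨c, a, b, u', v', rfl, rfl, hab⟩ := h
  exact ⟨c, a, b, u' ++ x, v' ++ y, by simp, by simp, hab⟩

theorem SL_lt {u v : List (Fin d)} (h : SL u v) : u < v := by
  obtain ⟨c, a, b, u', v', rfl, rfl, hab⟩ := h
  induction c with
  | nil => simp [List.cons_lt_cons_iff, hab]
  | cons x c ih => simpa [List.cons_lt_cons_iff] using ih

theorem tri (u v : List (Fin d)) : SL u v ∨ u <+: v ∨ v <+: u ∨ SL v u := by
  induction u generalizing v with
  | nil => right; left; exact List.nil_prefix
  | cons x u ih =>
    cases v with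
    | nil => right; right; left; exact List.nil_prefix
    | cons y v =>
      rcases lt_trichotomy x y with h | h | h
      · left; exact ⟨[], x, y, u, v, rfl, rfl, h⟩
      · subst h
        rcases ih v with h | h | h | h
        · left
          obtain ⟨c, a, b, u', v', rfl, rfl, hab⟩ := h
          exact ⟨x :: c, a, b, u', v', rfl, rfl, hab⟩
        · right; left
          exact List.cons_prefix_cons.mpr ⟨rfl, h⟩
        · right; right; left
          exact List.cons_prefix_cons.mpr ⟨rfl, h⟩
        · right; right; right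
          obtain ⟨c, a, b, u', v', rfl, rfl, hab⟩ := h
          exact ⟨x :: c, a, b, u', v', rfl, rfl, hab⟩
      · right; right; right; exact ⟨[], y, x, v, u, rfl, rfl, h⟩

theorem lt_append (u t : List (Fin d)) (ht : t ≠ []) : u < u ++ t := by
  induction u with
  | nil =>
    cases t with
    | nil => exact absurd rfl ht
    | cons a t => simp
  | cons x u ih => simpa [List.cons_lt_cons_iff] using ih

theorem SL_cancel (w a b : List (Fin d)) (h : SL (w ++ a) (w ++ b)) : SL a b := by
  induction w with
  | nil => simpa using h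
  | cons x w ih =>
    apply ih
    obtain ⟨c, p, q, u', v', h1, h2, hab⟩ := h
    cases c with
    | nil =>
      simp at h1 h2
      exfalso
      rw [← h1.1, ← h2.1] at hab
      exact lt_irrefl _ hab
    | cons y c =>
      simp at h1 h2
      exact ⟨c, p, q, u', v', h1.2, h2.2, hab⟩

/-- TARGET: a Lyndon word of length at least two is a product of two Lyndon words -/
theorem lyn_factor (l : List (Fin d)) (h : Lyn l) (h2 : 2 ≤ l.length) : ∃ u v, l = u ++ v ∧ Lyn u ∧ Lyn v := by
  classical
  let S : Finset (List (Fin d)) := l.tails.toFinset.filter (fun v => v ≠ [] ∧ v ≠ l)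
  have hmem : ∀ v, v ∈ S ↔ ∃ u, l = u ++ v ∧ u ≠ [] ∧ v ≠ [] := by
    intro v
    simp only [S, Finset.mem_filter, List.mem_toFinset, List.mem_tails]
    constructor
    · rintro ⟨⟨u, hu⟩, hv, hvl⟩
      refine ⟨u, hu.symm, ?_, hv⟩
      rintro rfl
      exact hvl (by simpa using hu)
    · rintro ⟨u, hu, hu0, hv0⟩
      refine ⟨⟨u, hu.symm⟩, hv0, ?_⟩
      intro hvl
      have := congrArg List.length hu
      rw [hvl, List.length_append] at this
      have h0 : u.length = 0 := by omega
      exact hu0 (List.length_eq_zero_iff.mp h0)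
  have hne : S.Nonempty := by
    match l, h2 with
    | a :: b :: t, _ => exact ⟨b :: t, (hmem _).mpr ⟨[a], rfl, by simp, by simp⟩⟩
  obtain ⟨v, hvS, hmin⟩ := S.exists_min_image id hne
  simp only [id] at hmin
  obtain ⟨u, hl, hu0, hv0⟩ := (hmem v).mp hvS
  refine ⟨u, v, hl, ⟨hu0, ?_⟩, ⟨hv0, ?_⟩⟩
  · intro u' u'' hu hu' hu''
    have hSL : SL l (u'' ++ v) := h.2 u' (u'' ++ v) (by rw [hl, hu]; simp) hu' (by simp [hv0])
    rcases tri u u'' with h1 | h1 | h1 | h1
    · exact h1
    · exfalso
      have hle := h1.length_le
      have := congrArg List.length hu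
      rw [List.length_append] at this
      have h0 : u'.length = 0 := by omega
      exact hu' (List.length_eq_zero_iff.mp h0)
    · exfalso
      obtain ⟨x, hx⟩ := h1
      have e1 : l = u'' ++ (x ++ v) := by rw [hl, ← hx]; simp
      rw [e1] at hSL
      have h3 := SL_lt (SL_cancel _ _ _ hSL)
      have h4 : x ++ v ∈ S := (hmem _).mpr ⟨u'', e1, hu'', by simp [hv0]⟩
      exact absurd (hmin _ h4) (not_le.mpr h3)
    · exfalso
      have h3 : SL (u'' ++ v) l := by rw [hl]; exact SL_append h1 v v
      exact lt_irrefl _ (SL_lt (SL_trans hSL h3))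
  · intro a b hab ha hb
    have hbS : b ∈ S := (hmem _).mpr ⟨u ++ a, by rw [hl, hab]; simp, by simp [hu0], hb⟩
    have hvb := hmin _ hbS
    rcases tri v b with h1 | h1 | h1 | h1
    · exact h1
    · exfalso
      have hle := h1.length_le
      have := congrArg List.length hab
      rw [List.length_append] at this
      have h0 : a.length = 0 := by omega
      exact ha (List.length_eq_zero_iff.mp h0)
    · exfalso
      obtain ⟨x, hx⟩ := h1
      have hx0 : x ≠ [] := by
        rintro rfl
        have e1 : b = v := by simpa using hx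
        have := congrArg List.length hab
        rw [List.length_append, e1] at this
        have h0 : a.length = 0 := by omega
        exact ha (List.length_eq_zero_iff.mp h0)
      have := lt_append b x hx0
      rw [hx] at this
      exact absurd hvb (not_le.mpr this)
    · exfalso
      exact absurd hvb (not_le.mpr (SL_lt h1))

end FPW
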