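import Pool.Agent.Helper993.FP.A5
set_option autoImplicit false
set_option linter.all false

namespace FPA
open FPD FPW
variable {p : ℕ} [Fact p.Prime] {H R : Type} [Group H] [Ring R] [Algebra (ZMod p) R] {ι : H →* R}
  {J : ℕ → Submodule (ZMod p) R} (F : Flt ι J) {d : ℕ} (g : Fin d → H)


theorem a7_SL_nil_left (v : List (Fin d)) : ¬ SL [] v := by
  rintro ⟨c, a, b, u', v', h, -, -⟩
  have := congrArg List.length h
  simp at this

theorem a7_SL_nil_right (v : List (Fin d)) : ¬ SL v [] := by
  rintro ⟨c, a, b, u', v', -, h, -⟩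
  have := congrArg List.length h
  simp at this

theorem a7_SL_cons {a b : Fin d} {u v : List (Fin d)} :
    SL (a :: u) (b :: v) ↔ a < b ∨ (a = b ∧ SL u v) := by
  constructor
  · rintro ⟨c, a', b', u', v', h1, h2, h3⟩
    cases c with
    | nil =>
      simp only [List.nil_append, List.cons.injEq] at h1 h2
      left; rw [h1.1, h2.1]; exact h3
    | cons x c =>
      simp only [List.cons_append, List.cons.injEq] at h1 h2
      right; exact ⟨h1.1.trans h2.1.symm, c, a', b', u', v', h1.2, h2.2, h3⟩
  · rintro (h | ⟨rfl, c, a', b', u', v', h1, h2, h3⟩)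
    · exact ⟨[], a, b, u, v, rfl, rfl, h⟩
    · exact ⟨a :: c, a', b', u', v', by rw [h1]; rfl, by rw [h2]; rfl, h3⟩

theorem a7_SL_trans {u v w : List (Fin d)} (h1 : SL u v) (h2 : SL v w) : SL u w := by
  induction u generalizing v w with
  | nil => exact absurd h1 (a7_SL_nil_left _)
  | cons a u ih =>
    cases v with
    | nil => exact absurd h1 (a7_SL_nil_right _)
    | cons b v =>
      cases w with
      | nil => exact absurd h2 (a7_SL_nil_right _)
      | cons c w =>
        rw [a7_SL_cons] at h1 h2 ⊢
        rcases h1 with h1 | ⟨rfl, h1⟩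
        · rcases h2 with h2 | ⟨rfl, h2⟩
          · exact Or.inl (h1.trans h2)
          · exact Or.inl h1
        · rcases h2 with h2 | ⟨rfl, h2⟩
          · exact Or.inl h2
          · exact Or.inr ⟨rfl, ih h1 h2⟩

theorem a7_SL_append {u v : List (Fin d)} (h : SL u v) (x y : List (Fin d)) :
    SL (u ++ x) (v ++ y) := by
  obtain ⟨c, a, b, u', v', rfl, rfl, h3⟩ := h
  exact ⟨c, a, b, u' ++ x, v' ++ y, by simp, by simp, h3⟩

theorem a7_SL_append_left {v w : List (Fin d)} (h : SL v w) (u : List (Fin d)) :
    SL (u ++ v) (u ++ w) := by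
  obtain ⟨c, a, b, u', v', rfl, rfl, h3⟩ := h
  exact ⟨u ++ c, a, b, u', v', by simp, by simp, h3⟩

theorem a7_lt_of_SL {u v : List (Fin d)} (h : SL u v) : u < v := by
  induction u generalizing v with
  | nil => exact absurd h (a7_SL_nil_left _)
  | cons a u ih =>
    cases v with
    | nil => exact absurd h (a7_SL_nil_right _)
    | cons b v =>
      rw [a7_SL_cons] at h
      rw [List.cons_lt_cons_iff]
      rcases h with h | ⟨h, h'⟩
      · exact Or.inl h
      · exact Or.inr ⟨h, ih h'⟩

theorem a7_SL_of_lt {u v : List (Fin d)} (hl : u.length = v.length) (h : u < v) : SL u v := by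
  induction u generalizing v with
  | nil =>
    cases v with
    | nil => exact absurd h (lt_irrefl _)
    | cons b v => simp at hl
  | cons a u ih =>
    cases v with
    | nil => simp at hl
    | cons b v =>
      rw [a7_SL_cons]
      rw [List.cons_lt_cons_iff] at h
      rcases h with h | ⟨h, h'⟩
      · exact Or.inl h
      · exact Or.inr ⟨h, ih (by simpa using hl) h'⟩

theorem a7_xw_append (u v : List (Fin d)) : xw ι g (u ++ v) = xw ι g u * xw ι g v := by
  unfold xw
  rw [List.map_append, List.prod_append]

include F in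
theorem a7_xw_mem (w : List (Fin d)) : xw ι g w ∈ J w.length := by
  induction w with
  | nil => rw [List.length_nil, F.top]; trivial
  | cons i w ih =>
    have h1 : xw ι g (i :: w) = (ι (g i) - 1) * xw ι g w := by
      unfold xw
      rw [List.map_cons, List.prod_cons]
    rw [h1, List.length_cons, add_comm]
    exact F.mul 1 w.length _ _ (F.aug _) ih

include F in
theorem a7_TT_le (w : List (Fin d)) : TT ι J g w ≤ J w.length := by
  refine sup_le ?_ (F.anti _)
  rw [Submodule.span_le]
  rintro _ ⟨w', h1, -, rfl⟩
  rw [← h1]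
  exact a7_xw_mem F g w'

theorem a7_word_mem {L w : List (Fin d)} (hl : w.length = L.length) (h : SL L w) :
    xw ι g w ∈ TT ι J g L := by
  apply Submodule.mem_sup_left
  exact Submodule.subset_span ⟨w, hl, a7_lt_of_SL h, rfl⟩

theorem a7_J_mem {L : List (Fin d)} {a : R} (h : a ∈ J (L.length + 1)) : a ∈ TT ι J g L :=
  Submodule.mem_sup_right h

include F in
/-- Lemma A -/
theorem a7_mul_left (hg : Gen ι J g) (L : List (Fin d)) (m n : ℕ) (hmn : m + n = L.length)
    (Q : List (Fin d) → Prop)
    (hQ : ∀ w, w.length = m → Q w → ∀ v : List (Fin d), v.length = n → SL L (w ++ v))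
    (x b : R)
    (hx : x ∈ Submodule.span (ZMod p) {a | ∃ w : List (Fin d), w.length = m ∧ Q w ∧ a = xw ι g w} ⊔
      J (m + 1)) (hb : b ∈ J n) : x * b ∈ TT ι J g L := by
  obtain ⟨s, hs, j, hj, rfl⟩ := Submodule.mem_sup.1 hx
  rw [add_mul]
  refine add_mem ?_ ?_
  · clear hx
    induction hs using Submodule.span_induction with
    | mem y hy =>
      obtain ⟨w, hw, hQw, rfl⟩ := hy
      obtain ⟨s', hs', j', hj', rfl⟩ := Submodule.mem_sup.1 (hg n hb)
      rw [mul_add]
      refine add_mem ?_ ?_
      · clear hb
        induction hs' using Submodule.span_induction with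
        | mem z hz =>
          obtain ⟨v, hv, rfl⟩ := hz
          rw [← a7_xw_append]
          refine a7_word_mem g ?_ (hQ w hw hQw v hv)
          rw [List.length_append, hw, hv, hmn]
        | zero => rw [mul_zero]; exact zero_mem _
        | add z z' _ _ h1 h2 => rw [mul_add]; exact add_mem h1 h2
        | smul c z _ h1 => rw [mul_smul_comm]; exact Submodule.smul_mem _ _ h1
      · apply a7_J_mem
        have := F.mul m (n + 1) _ _ (hw ▸ a7_xw_mem F g w) hj'
        rwa [← add_assoc, hmn] at this
    | zero => rw [zero_mul]; exact zero_mem _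
    | add y y' _ _ h1 h2 => rw [add_mul]; exact add_mem h1 h2
    | smul c y _ h1 => rw [smul_mul_assoc]; exact Submodule.smul_mem _ _ h1
  · apply a7_J_mem
    have := F.mul (m + 1) n _ _ hj hb
    rwa [show m + 1 + n = L.length + 1 by omega] at this

include F in
/-- Lemma B -/
theorem a7_word_mul (u v : List (Fin d)) (y : R) (hy : y ∈ TT ι J g v) :
    xw ι g u * y ∈ TT ι J g (u ++ v) := by
  obtain ⟨s, hs, j, hj, rfl⟩ := Submodule.mem_sup.1 hy
  rw [mul_add]
  refine add_mem ?_ ?_
  · clear hy
    induction hs using Submodule.span_induction with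
    | mem z hz =>
      obtain ⟨w, hw, hlt, rfl⟩ := hz
      rw [← a7_xw_append]
      refine a7_word_mem g ?_ (a7_SL_append_left (a7_SL_of_lt hw.symm hlt) u)
      rw [List.length_append, List.length_append, hw]
    | zero => rw [mul_zero]; exact zero_mem _
    | add z z' _ _ h1 h2 => rw [mul_add]; exact add_mem h1 h2
    | smul c z _ h1 => rw [mul_smul_comm]; exact Submodule.smul_mem _ _ h1
  · apply a7_J_mem
    have := F.mul u.length (v.length + 1) _ _ (a7_xw_mem F g u) hj
    rwa [← add_assoc, ← List.length_append] at this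

include F in
/-- Lemma A' -/
theorem a7_TT_mul (hg : Gen ι J g) (u v : List (Fin d)) (x b : R) (hx : x ∈ TT ι J g u)
    (hb : b ∈ J v.length) : x * b ∈ TT ι J g (u ++ v) := by
  refine a7_mul_left F g hg (u ++ v) u.length v.length (by rw [List.length_append])
    (fun w => u < w) ?_ x b hx hb
  intro w hw huw v' hv'
  exact a7_SL_append (a7_SL_of_lt hw.symm huw) v v'

include F in
/-- Lemma C -/
theorem a7_lead_TT (hg : Gen ι J g) (a y : R) (u v : List (Fin d)) (ha : Lead ι J g a u)
    (hy : y ∈ TT ι J g v) : a * y ∈ TT ι J g (u ++ v) := by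
  have h1 : a * y = (a - xw ι g u) * y + xw ι g u * y := by noncomm_ring
  rw [h1]
  exact add_mem (a7_TT_mul F g hg u v _ _ ha (a7_TT_le F g v hy)) (a7_word_mul F g u v y hy)

theorem a7_PP_nil (U : List (Bool × H)) : PP ι U [] = if U = [] then 1 else 0 := by
  rw [PP]

theorem a7_PP_cons (U : List (Bool × H)) (b : Bool) (w : List Bool) : PP ι U (b :: w) =
    ∑ i : Fin U.length, if (U.get i).1 = b then (ι (U.get i).2 - 1) * PP ι (U.eraseIdx i) w
      else 0 := by
  rw [PP]

include F in
/-- Lemma D -/
theorem a7_PP_mem (w : List Bool) (W : List ((Bool × H) × ℕ))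
    (hW : ∀ x ∈ W, ι x.1.2 - 1 ∈ J x.2) : PP ι (W.map Prod.fst) w ∈ J (W.map Prod.snd).sum := by
  induction w generalizing W with
  | nil =>
    rw [a7_PP_nil]
    split_ifs with h
    · rw [List.map_eq_nil_iff] at h
      rw [h]
      simp only [List.map_nil, List.sum_nil]
      rw [F.top]; trivial
    · exact zero_mem _
  | cons b w ih =>
    rw [a7_PP_cons]
    refine Submodule.sum_mem _ (fun i _ => ?_)
    split_ifs with h
    · have hi : i.1 < W.length := by simpa using i.2
      have h1 := ih (W.eraseIdx i) (fun x hx => hW x (List.mem_of_mem_eraseIdx hx))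
      have h2 : (W.map Prod.fst).get i = W[i.1].1 := by simp
      have h3 : (W.map Prod.fst).eraseIdx i = (W.eraseIdx i).map Prod.fst := by
        rw [List.eraseIdx_map]
      rw [h2, h3]
      have h4 := F.mul W[i.1].2 _ _ _ (hW W[i.1] (List.getElem_mem hi)) h1
      have h5 : W[i.1].2 + ((W.eraseIdx i).map Prod.snd).sum = (W.map Prod.snd).sum := by
        rw [← List.eraseIdx_map]
        have := (List.add_sum_eraseIdx (l := W.map Prod.snd) (i := i.1) (by simpa using hi) (fun a _ => AddCommute.all _ a))
        simpa using this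
      rw [h5] at h4
      exact h4
    · exact zero_mem _

include F in
/-- words are in the filtration -/
theorem xw_mem (w : List (Fin d)) : xw ι g w ∈ J w.length := a7_xw_mem F g w

include F in
/-- TARGET A: products of leading words -/
theorem lead_mul (hg : Gen ι J g) (a b : R) (u v : List (Fin d)) (ha : Lead ι J g a u) (hb : Lead ι J g b v) :
    Lead ι J g (a * b) (u ++ v) := by
  have hbJ : b ∈ J v.length := by
    have h1 : b = xw ι g v + (b - xw ι g v) := by abel
    rw [h1]
    exact add_mem (a7_xw_mem F g v) (a7_TT_le F g v hb)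
  unfold Lead
  have h1 : a * b - xw ι g (u ++ v) = (a - xw ι g u) * b + xw ι g u * (b - xw ι g v) := by
    rw [a7_xw_append]; noncomm_ring
  rw [h1]
  exact add_mem (a7_TT_mul F g hg u v _ _ ha hbJ) (a7_word_mul F g u v _ hb)

include F in
/-- TARGET B: an element whose leading word is strongly larger contributes only larger words -/
theorem lead_big (hg : Gen ι J g) (a b : R) (u : List (Fin d)) (L : List (Fin d)) (ha : Lead ι J g a u)
    (hb : b ∈ J (L.length - u.length)) (hu : u.length ≤ L.length) (hSL : SL L u) : a * b ∈ TT ι J g L := by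
  refine a7_mul_left F g hg L u.length (L.length - u.length) (by omega)
    (fun w => w = u ∨ u < w) ?_ a b ?_ hb
  · rintro w hw (rfl | huw) v hv
    · have := a7_SL_append hSL [] v
      rwa [List.append_nil] at this
    · have := a7_SL_append (a7_SL_trans hSL (a7_SL_of_lt hw.symm huw)) [] v
      rwa [List.append_nil] at this
  · have h1 : a = xw ι g u + (a - xw ι g u) := by abel
    rw [h1]
    refine add_mem ?_ ?_
    · exact Submodule.mem_sup_left (Submodule.subset_span ⟨u, rfl, Or.inl rfl, rfl⟩)
    · refine (sup_le_sup_right (Submodule.span_mono ?_) _ : TT ι J g u ≤ _) ha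
      rintro _ ⟨w, hw, huw, rfl⟩
      exact ⟨w, hw, Or.inr huw, rfl⟩

theorem a7_cat_len (l : ℕ → List (Fin d)) (j : ℕ) :
    (cat l j).length = ∑ i : Fin j, (l i).length := by
  induction j with
  | zero => rfl
  | succ j ih =>
    rw [Fin.sum_univ_castSucc]
    simp only [Fin.val_castSucc, Fin.val_last]
    rw [← ih]
    change (l j ++ cat l j).length = _
    rw [List.length_append, add_comm]

theorem a7_SL_chain (l : ℕ → List (Fin d)) (j : ℕ)
    (hSL : ∀ i, i + 1 ≤ j → SL (l (i + 1)) (l i)) (i : ℕ) (hi : i < j) : SL (l j) (l i) := by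
  induction j with
  | zero => omega
  | succ j ih =>
    rcases Nat.lt_succ_iff_lt_or_eq.1 hi with h | h
    · exact a7_SL_trans (hSL j le_rfl) (ih (fun i hi => hSL i (by omega)) h)
    · subst h; exact hSL _ le_rfl

include F in
theorem a7_PP_erase (U : List (Bool × H)) (l : ℕ → List (Fin d))
    (hU : ∀ i (hi : i < U.length), Lead ι J g (ι (U.get ⟨i, hi⟩).2 - 1) (l i)) (w : List Bool)
    (i : ℕ) (hi : i < U.length) :
    PP ι (U.eraseIdx i) w ∈ J ((cat l U.length).length - (l i).length) ∧
      (l i).length ≤ (cat l U.length).length := by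
  have hJ : ∀ i (hi : i < U.length), ι (U.get ⟨i, hi⟩).2 - 1 ∈ J (l i).length := by
    intro i hi
    have h1 : ι (U.get ⟨i, hi⟩).2 - 1 = xw ι g (l i) + (ι (U.get ⟨i, hi⟩).2 - 1 - xw ι g (l i)) := by
      abel
    rw [h1]
    exact add_mem (a7_xw_mem F g _) (a7_TT_le F g _ (hU i hi))
  obtain ⟨W, hWd⟩ : ∃ W : List ((Bool × H) × ℕ),
      W = List.ofFn (fun i : Fin U.length => (U.get i, (l i).length)) := ⟨_, rfl⟩
  have hW1 : W.map Prod.fst = U := by
    rw [hWd, List.map_ofFn]
    exact List.ofFn_get U
  have hW2 : (W.map Prod.snd) = List.ofFn (fun i : Fin U.length => (l i).length) := by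
    rw [hWd, List.map_ofFn]
    rfl
  have hWs : (W.map Prod.snd).sum = (cat l U.length).length := by
    rw [hW2, List.sum_ofFn, a7_cat_len]
  have hWJ : ∀ x ∈ W, ι x.1.2 - 1 ∈ J x.2 := by
    intro x hx
    rw [hWd, List.mem_ofFn] at hx
    obtain ⟨k, rfl⟩ := hx
    exact hJ k.1 k.2
  have h1 := a7_PP_mem F w (W.eraseIdx i) (fun x hx => hWJ x (List.mem_of_mem_eraseIdx hx))
  rw [← List.eraseIdx_map, ← List.eraseIdx_map, hW1] at h1
  have hlen : i < (W.map Prod.snd).length := by
    rw [hW2, List.length_ofFn]; exact hi
  have h2 := List.add_sum_eraseIdx (l := W.map Prod.snd) (i := i) hlen (fun a _ => AddCommute.all _ a)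
  have h3 : (W.map Prod.snd)[i] = (l i).length := by
    simp [hW2]
  rw [h3, hWs] at h2
  refine ⟨?_, by omega⟩
  have h4 : (cat l U.length).length - (l i).length = ((W.map Prod.snd).eraseIdx i).sum := by omega
  rw [h4]
  exact h1

include F in
theorem a7_PP_single (hg : Gen ι J g) (j : ℕ) (U : List (Bool × H)) (hj : U.length = j)
    (l : ℕ → List (Fin d))
    (hU : ∀ i (hi : i < U.length), Lead ι J g (ι (U.get ⟨i, hi⟩).2 - 1) (l i))
    (hSL : ∀ i, i + 1 < U.length → SL (l (i + 1)) (l i)) (w : List Bool) :
    PP ι U w - (if w = (U.map Prod.fst).reverse then (1 : ZMod p) else 0) • xw ι g (cat l U.length) ∈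
      TT ι J g (cat l U.length) := by
  induction j generalizing U w with
  | zero =>
    rw [List.length_eq_zero_iff] at hj
    subst hj
    cases w with
    | nil =>
      rw [a7_PP_nil]
      simp only [List.length_nil, cat, xw, List.map_nil, List.prod_nil, List.reverse_nil, if_true,
        one_smul, sub_self]
      exact zero_mem _
    | cons b w =>
      rw [a7_PP_cons]
      simp only [List.map_nil, List.reverse_nil]
      rw [if_neg (by simp), zero_smul, sub_zero]
      exact Submodule.sum_mem _ (fun i _ => absurd i.2 (by simp))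
  | succ j ih =>
    obtain ⟨V, x, rfl⟩ : ∃ V x, U = V ++ [x] := by
      rcases List.eq_nil_or_concat U with h | ⟨V, x, h⟩
      · rw [h] at hj; simp at hj
      · exact ⟨V, x, by rw [h, List.concat_eq_append]⟩
    have hV : V.length = j := by simpa using hj
    have hlen : (V ++ [x]).length = V.length + 1 := by simp
    have hcat : cat l (V ++ [x]).length = l V.length ++ cat l V.length := by rw [hlen]; rfl
    have hrev : ((V ++ [x]).map Prod.fst).reverse = x.1 :: (V.map Prod.fst).reverse := by simp
    cases w with
    | nil =>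
      rw [a7_PP_nil, if_neg (by simp), hrev, if_neg (by simp), zero_smul, sub_zero]
      exact zero_mem _
    | cons b w =>
      have hlast : V.length < (V ++ [x]).length := by rw [hlen]; omega
      have hget : (V ++ [x]).get ⟨V.length, hlast⟩ = x := by simp
      have hLx : Lead ι J g (ι x.2 - 1) (l V.length) := by
        have := hU V.length hlast
        rwa [hget] at this
      have hUV : ∀ i (hi : i < V.length), Lead ι J g (ι (V.get ⟨i, hi⟩).2 - 1) (l i) := by
        intro i hi
        have := hU i (by rw [hlen]; omega)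
        have h2 : (V ++ [x]).get ⟨i, by rw [hlen]; omega⟩ = V.get ⟨i, hi⟩ := by
          simp [List.getElem_append_left hi]
        rwa [h2] at this
      have hIH := ih V hV hUV (fun i hi => hSL i (by rw [hlen]; omega)) w
      have herase : (V ++ [x]).eraseIdx V.length = V := by
        rw [List.eraseIdx_append_of_length_le le_rfl]
        simp
      -- split the sum
      have hsum : PP ι (V ++ [x]) (b :: w) -
          (if x.1 = b then (ι x.2 - 1) * PP ι V w else 0) ∈ TT ι J g (cat l (V ++ [x]).length) := by
        rw [a7_PP_cons]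
        rw [← Finset.add_sum_erase Finset.univ _ (Finset.mem_univ (⟨V.length, hlast⟩ : Fin _))]
        simp only [hget, herase]
        rw [add_sub_cancel_left]
        refine Submodule.sum_mem _ (fun i hi => ?_)
        have hi' : i.1 < V.length := by
          have h1 : i.1 < V.length + 1 := lt_of_lt_of_eq i.2 hlen
          have h2 : i ≠ ⟨V.length, hlast⟩ := (Finset.mem_erase.1 hi).1
          have h3 : i.1 ≠ V.length := fun h => h2 (Fin.ext h)
          omega
        split_ifs with hb
        · have h4 := a7_PP_erase F g (V ++ [x]) l hU w i.1 i.2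
          refine lead_big F g hg _ _ (l i.1) _ (hU i.1 i.2) h4.1 h4.2 ?_
          rw [hcat]
          have h5 : SL (l V.length) (l i.1) :=
            a7_SL_chain l V.length (fun i hi => hSL i (by rw [hlen]; omega)) i.1 hi'
          have h6 := a7_SL_append h5 (cat l V.length) []
          rwa [List.append_nil] at h6
        · exact zero_mem _
      have hmain : (if x.1 = b then (ι x.2 - 1) * PP ι V w else 0) -
          (if b :: w = ((V ++ [x]).map Prod.fst).reverse then (1 : ZMod p) else 0) •
            xw ι g (cat l (V ++ [x]).length) ∈ TT ι J g (cat l (V ++ [x]).length) := by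
        rw [hrev, hcat]
        by_cases hb : x.1 = b
        · rw [if_pos hb]
          by_cases hw : w = (V.map Prod.fst).reverse
          · rw [if_pos (by rw [hb, hw]), one_smul]
            rw [if_pos hw, one_smul] at hIH
            exact lead_mul F g hg _ _ _ _ hLx hIH
          · rw [if_neg (by rintro h; exact hw (List.cons.inj h).2), zero_smul, sub_zero]
            rw [if_neg hw, zero_smul, sub_zero] at hIH
            exact a7_lead_TT F g hg _ _ _ _ hLx hIH
        · rw [if_neg hb, if_neg (by rintro h; exact hb (List.cons.inj h).1.symm), zero_smul,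
            sub_zero]
          exact zero_mem _
      have := add_mem hsum hmain
      rwa [sub_add_sub_cancel] at this

include F in
/-- TARGET C: the leading word of the leading form -/
theorem lead_PP (hg : Gen ι J g) (U : List (Bool × H)) (l : ℕ → List (Fin d))
    (hU : ∀ i (hi : i < U.length), Lead ι J g (ι (U.get ⟨i, hi⟩).2 - 1) (l i))
    (hSL : ∀ i, i + 1 < U.length → SL (l (i + 1)) (l i)) (f : List Bool →₀ ZMod p) :
    f.sum (fun w c => c • PP ι U w) - f ((U.map Prod.fst).reverse) • xw ι g (cat l U.length) ∈
      TT ι J g (cat l U.length) := by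
  have h1 : f.sum (fun w c => c • PP ι U w) - f ((U.map Prod.fst).reverse) • xw ι g (cat l U.length) =
      f.sum (fun w c => c • (PP ι U w - (if w = (U.map Prod.fst).reverse then (1 : ZMod p) else 0) •
        xw ι g (cat l U.length))) := by
    simp only [smul_sub]
    rw [Finsupp.sum_sub]
    congr 1
    simp only [smul_smul, mul_ite, mul_one, mul_zero]
    have h2 : f ((U.map Prod.fst).reverse) =
        f.sum (fun w c => if w = (U.map Prod.fst).reverse then c else 0) :=
      (Finsupp.sum_ite_self_eq' f _).symm
    conv_lhs => rw [h2]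
    rw [Finsupp.sum, Finsupp.sum, Finset.sum_smul]
  rw [h1]
  refine Submodule.sum_mem _ (fun w _ => ?_)
  exact Submodule.smul_mem _ _ (a7_PP_single F g hg _ U rfl l hU hSL w)

end FPA
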