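import Pool.Agent.Helper993.FP.A5
import Pool.Agent.Helper993.FP.A7
import Pool.Agent.Helper993.FP.A10
set_option autoImplicit false
set_option linter.all false

namespace FPG
open FPW FPD FPA

theorem Gf_succ (H : Type) [Group H] (n : ℕ) :
    Gf H (n + 2) = ⨆ i : Fin (n + 1), ⁅Gf H (i.1 + 1), Gf H (n + 1 - i.1)⁆ := by
  rw [Gf]

theorem Gf_zero (H : Type) [Group H] : Gf H 0 = ⊤ := by rw [Gf]
theorem Gf_one (H : Type) [Group H] : Gf H 1 = ⊤ := by rw [Gf]

theorem Gf_normal (H : Type) [Group H] (n : ℕ) : (Gf H n).Normal := by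
  induction n using Nat.strong_induction_on with
  | _ n ih =>
    rcases n with _ | _ | n
    · rw [Gf_zero]; infer_instance
    · rw [Gf_one]; infer_instance
    · rw [Gf_succ]
      have h : ∀ i : Fin (n + 1), (⁅Gf H (i.1 + 1), Gf H (n + 1 - i.1)⁆ : Subgroup H).Normal := by
        intro i
        have h1 := ih (i.1 + 1) (by have := i.2; omega)
        have h2 := ih (n + 1 - i.1) (by omega)
        exact Subgroup.commutator_normal _ _
      infer_instance

theorem Gf_anti1 (H : Type) [Group H] (n : ℕ) : Gf H (n + 1) ≤ Gf H n := by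
  induction n using Nat.strong_induction_on with
  | _ n ih =>
    rcases n with _ | _ | n
    · rw [Gf_zero]; exact le_top
    · rw [Gf_one]; exact le_top
    · rw [Gf_succ H (n + 1)]
      apply iSup_le
      rintro ⟨i, hi⟩
      rcases i with _ | j
      · have h2 := Gf_normal H (n + 1 + 1)
        exact Subgroup.commutator_le_right _ _
      · have h1 := ih (j + 1) (by omega)
        have h2 : (⁅Gf H (j + 1 + 1), Gf H (n + 1 + 1 - (j + 1))⁆ : Subgroup H) ≤
            ⁅Gf H (j + 1), Gf H (n + 1 - j)⁆ := by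
          have e : n + 1 + 1 - (j + 1) = n + 1 - j := by omega
          rw [e]
          exact Subgroup.commutator_mono h1 le_rfl
        refine h2.trans ?_
        rw [Gf_succ H n]
        exact le_iSup (fun i : Fin (n + 1) => (⁅Gf H (i.1 + 1), Gf H (n + 1 - i.1)⁆ : Subgroup H))
          ⟨j, by omega⟩

theorem Gf_anti (H : Type) [Group H] (m n : ℕ) (h : m ≤ n) : Gf H n ≤ Gf H m := by
  induction n, h using Nat.le_induction with
  | base => exact le_rfl
  | succ n _ ih => exact (Gf_anti1 H n).trans ih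

theorem Gf_commutator (H : Type) [Group H] (m n : ℕ) (hm : 1 ≤ m) (hn : 1 ≤ n) :
    (⁅Gf H m, Gf H n⁆ : Subgroup H) ≤ Gf H (m + n) := by
  obtain ⟨m, rfl⟩ : ∃ k, m = k + 1 := ⟨m - 1, by omega⟩
  obtain ⟨n, rfl⟩ : ∃ k, n = k + 1 := ⟨n - 1, by omega⟩
  have e : m + 1 + (n + 1) = (m + n) + 2 := by omega
  rw [e, Gf_succ]
  have h := le_iSup (fun i : Fin (m + n + 1) =>
    (⁅Gf H (i.1 + 1), Gf H (m + n + 1 - i.1)⁆ : Subgroup H)) ⟨m, by omega⟩
  simp only at h
  have e2 : m + n + 1 - m = n + 1 := by omega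
  rw [e2] at h
  exact h

theorem Gf_comm (H : Type) [Group H] (m n : ℕ) (hm : 1 ≤ m) (hn : 1 ≤ n) (a b : H) (ha : a ∈ Gf H m)
    (hb : b ∈ Gf H n) : a⁻¹ * b⁻¹ * a * b ∈ Gf H (m + n) := by
  apply Gf_commutator H m n hm hn
  have h := Subgroup.commutator_mem_commutator (Subgroup.inv_mem _ ha) (Subgroup.inv_mem _ hb)
  rw [commutatorElement_def, inv_inv, inv_inv] at h
  exact h

theorem Gf_map {H H' : Type} [Group H] [Group H'] (f : H →* H') (hf : Function.Surjective f) (n : ℕ) :
    (Gf H n).map f = Gf H' n := by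
  induction n using Nat.strong_induction_on with
  | _ n ih =>
    rcases n with _ | _ | n
    · rw [Gf_zero, Gf_zero, Subgroup.map_top_of_surjective f hf]
    · rw [Gf_one, Gf_one, Subgroup.map_top_of_surjective f hf]
    · rw [Gf_succ, Gf_succ, Subgroup.map_iSup]
      congr 1
      ext1 i
      rw [Subgroup.map_commutator, ih (i.1 + 1) (by have := i.2; omega),
        ih (n + 1 - i.1) (by omega)]

variable {p : ℕ} [Fact p.Prime] {H R : Type} [Group H] [Ring R] [Algebra (ZMod p) R] {ι : H →* R}
  {J : ℕ → Submodule (ZMod p) R} (F : Flt ι J) {d : ℕ} (g : Fin d → H)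

/-- TARGET: the commutator filtration is contained in the dimension filtration -/
theorem Gf_le (n : ℕ) : Gf H n ≤ Dg F n := by
  induction n using Nat.strong_induction_on with
  | _ n ih =>
    rcases n with _ | _ | n
    · intro h _
      show ι h - 1 ∈ J 0
      rw [F.top]; trivial
    · intro h _
      exact F.aug h
    · rw [Gf_succ]
      apply iSup_le
      intro i
      rw [Subgroup.commutator_le]
      intro a ha b hb
      have h1 := ih (i.1 + 1) (by have := i.2; omega) ha
      have h2 := ih (n + 1 - i.1) (by omega) hb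
      have h3 := (Dg_comm F (i.1 + 1) (n + 1 - i.1) a⁻¹ b⁻¹ (Subgroup.inv_mem _ h1)
        (Subgroup.inv_mem _ h2)).1
      rw [inv_inv, inv_inv] at h3
      have e : i.1 + 1 + (n + 1 - i.1) = n + 1 + 1 := by have := i.2; omega
      rw [e] at h3
      exact h3

omit [Fact p.Prime] in
theorem SL_lt {d : ℕ} (c : List (Fin d)) (a b : Fin d) (u v : List (Fin d)) (h : a < b) :
    c ++ a :: u < c ++ b :: v := by
  induction c with
  | nil => exact List.cons_lt_cons_iff.2 (Or.inl h)
  | cons x c ih => exact List.cons_lt_cons_iff.2 (Or.inr ⟨rfl, ih⟩)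

include F in
/-- TARGET: iterated commutators with prescribed leading Lyndon word -/
theorem bracket (hg : Gen ι J g) (l : List (Fin d)) (hl : Lyn l) : ∃ c ∈ Gf H l.length, Lead ι J g (ι c - 1) l := by
  obtain ⟨n, hn⟩ : ∃ n, l.length = n := ⟨_, rfl⟩
  induction n using Nat.strong_induction_on generalizing l with
  | _ n ih =>
    by_cases h2 : 2 ≤ l.length
    · obtain ⟨u, v, rfl, hu, hv⟩ := lyn_factor l hl h2
      have hu0 : 0 < u.length := List.length_pos_iff.2 hu.1
      have hv0 : 0 < v.length := List.length_pos_iff.2 hv.1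
      rw [List.length_append] at hn
      obtain ⟨cu, hcu, hcu'⟩ := ih u.length (by omega) u hu rfl
      obtain ⟨cv, hcv, hcv'⟩ := ih v.length (by omega) v hv rfl
      refine ⟨cu⁻¹ * cv⁻¹ * cu * cv, ?_, ?_⟩
      · rw [List.length_append]
        exact Gf_comm H _ _ hu0 hv0 _ _ hcu hcv
      · have h3 := (Dg_comm F u.length v.length cu cv (Gf_le F _ hcu) (Gf_le F _ hcv)).2
        have h4 := lead_mul F g hg _ _ u v hcu' hcv'
        have h5 := lead_mul F g hg _ _ v u hcv' hcu'
        have hlt : u ++ v < v ++ u := by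
          obtain ⟨c, a, b, u', v', e1, e2, hab⟩ := hl.2 u v rfl hu.1 hv.1
          have e3 : v ++ u = c ++ b :: (v' ++ u) := by rw [e2]; simp
          rw [e1, e3]
          exact SL_lt c a b _ _ hab
        have hlen : (v ++ u).length = (u ++ v).length := by simp [add_comm]
        have hTT : TT ι J g (v ++ u) ≤ TT ι J g (u ++ v) := by
          unfold TT
          rw [hlen]
          apply sup_le_sup_right
          apply Submodule.span_mono
          rintro a ⟨w', h6, h7, h8⟩
          exact ⟨w', h6, lt_trans hlt h7, h8⟩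
        have hx : xw ι g (v ++ u) ∈ TT ι J g (u ++ v) := by
          unfold TT
          exact Submodule.mem_sup_left (Submodule.subset_span ⟨v ++ u, hlen, hlt, rfl⟩)
        have hJ : J (u.length + v.length + 1) ≤ TT ι J g (u ++ v) := by
          unfold TT
          rw [List.length_append]
          exact le_sup_right
        have e : ι (cu⁻¹ * cv⁻¹ * cu * cv) - 1 - xw ι g (u ++ v) =
            ((ι (cu⁻¹ * cv⁻¹ * cu * cv) - 1) - ((ι cu - 1) * (ι cv - 1) - (ι cv - 1) * (ι cu - 1))) +
            ((ι cu - 1) * (ι cv - 1) - xw ι g (u ++ v)) -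
            ((ι cv - 1) * (ι cu - 1) - xw ι g (v ++ u)) - xw ι g (v ++ u) := by abel
        show ι (cu⁻¹ * cv⁻¹ * cu * cv) - 1 - xw ι g (u ++ v) ∈ TT ι J g (u ++ v)
        rw [e]
        exact sub_mem (sub_mem (add_mem (hJ h3) h4) (hTT h5)) hx
    · have hl0 : 0 < l.length := List.length_pos_iff.2 hl.1
      have h1 : l.length = 1 := by omega
      obtain ⟨i, rfl⟩ := List.length_eq_one_iff.1 h1
      refine ⟨g i, ?_, ?_⟩
      · rw [h1, Gf_one]; trivial
      · show ι (g i) - 1 - xw ι g [i] ∈ TT ι J g [i]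
        have e : ι (g i) - 1 - xw ι g [i] = 0 := by
          unfold xw; simp
        rw [e]
        exact zero_mem _

end FPG
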