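import Pool.Agent.Helper993.FP.A5
set_option autoImplicit false
set_option linter.all false

namespace FPA
open FPD
variable {p : ℕ} [Fact p.Prime] {H R : Type} [Group H] [Ring R] [Algebra (ZMod p) R] {ι : H →* R}
  {J : ℕ → Submodule (ZMod p) R} (F : Flt ι J)

/-- elements of a span as short sums -/
private theorem short_sum {V : Type*} [AddCommGroup V] [Module (ZMod p) V]
    [Module.Finite (ZMod p) V] {X : Type*} (θ : X → V) (A : Set X) (w : V)
    (hw : w ∈ Submodule.span (ZMod p) (θ '' A)) :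
    ∃ l : List X, (∀ b ∈ l, b ∈ A) ∧ l.length ≤ p * Module.finrank (ZMod p) V ∧
      (l.map θ).sum = w := by
  obtain ⟨f, hf1, hf2, -⟩ := Submodule.exists_fun_fin_finrank_span_eq (ZMod p) (θ '' A)
  choose a haA haf using hf1
  rw [← hf2, Submodule.mem_span_range_iff_exists_fun] at hw
  obtain ⟨c, hc⟩ := hw
  refine ⟨(List.finRange _).flatMap (fun i => List.replicate (c i).val (a i)), ?_, ?_, ?_⟩
  · intro b hb
    rw [List.mem_flatMap] at hb
    obtain ⟨i, _, hi⟩ := hb
    rw [List.eq_of_mem_replicate hi]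
    exact haA i
  · rw [List.length_flatMap]
    simp only [List.length_replicate]
    have h1 : ∀ i, (c i).val ≤ p := fun i => (ZMod.val_lt (c i)).le
    have h2 : (List.map (fun i => (c i).val) (List.finRange
        (Module.finrank (ZMod p) (Submodule.span (ZMod p) (θ '' A))))).sum ≤
        (List.map (fun i => (c i).val) (List.finRange
        (Module.finrank (ZMod p) (Submodule.span (ZMod p) (θ '' A))))).length • p := by
      apply List.sum_le_card_nsmul
      intro x hx
      rw [List.mem_map] at hx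
      obtain ⟨i, _, rfl⟩ := hx
      exact h1 i
    rw [List.length_map, List.length_finRange, smul_eq_mul, mul_comm] at h2
    exact h2.trans (Nat.mul_le_mul_left _ (Submodule.finrank_le _))
  · rw [← hc, List.map_flatMap, List.flatMap_def, List.sum_flatten, List.map_map]
    simp only [Function.comp_def, List.map_replicate, List.sum_replicate, haf]
    rw [← List.ofFn_eq_map, List.sum_ofFn]
    refine Finset.sum_congr rfl fun i _ => ?_
    conv_rhs => rw [← ZMod.natCast_zmod_val (c i)]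
    rw [Nat.cast_smul_eq_nsmul]

/-- TARGET: the closure of a set in `GP Gm t` is reached by short products modulo `DD (t+ρ)` -/
theorem EA (Gm : ℕ → Subgroup H) (hD : ∀ t, Gm t ≤ Dg F t) (t ρ : ℕ) (hρ : ρ ≤ t)
    (hfin : Module.Finite (ZMod p) (R ⧸ J (2 * t))) (δ : ℕ)
    (hδ : p * (2 * Module.finrank (ZMod p) (R ⧸ J (2 * t))) ≤ δ) (A : Set (H × H)) (hA : A ⊆ GP Gm t)
    (v : H × H) (hv : v ∈ Subgroup.closure A) :
    ∃ l : List (H × H), (∀ b ∈ l, b ∈ A) ∧ l.length ≤ δ ∧ v * (l.prod)⁻¹ ∈ DD F (t + ρ) := by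
  have hJ : J (2 * t) ≤ J (t + ρ) := J_le F _ _ (by omega)
  -- the quotient is finite dimensional
  have hsurj : Function.Surjective (Submodule.factor hJ) := Submodule.factor_surjective hJ
  haveI hfin' : Module.Finite (ZMod p) (R ⧸ J (t + ρ)) := Module.Finite.of_surjective _ hsurj
  have hrank : Module.finrank (ZMod p) (R ⧸ J (t + ρ)) ≤ Module.finrank (ZMod p) (R ⧸ J (2 * t)) :=
    LinearMap.finrank_le_finrank_of_surjective hsurj
  let V := (R ⧸ J (t + ρ)) × (R ⧸ J (t + ρ))
  have hVrank : Module.finrank (ZMod p) V ≤ 2 * Module.finrank (ZMod p) (R ⧸ J (2 * t)) := by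
    rw [Module.finrank_prod]; omega
  let θ : H × H → V := fun u => (Submodule.Quotient.mk (ι u.1 - 1), Submodule.Quotient.mk (ι u.2 - 1))
  have hGP : ∀ u ∈ GP Gm t, ι u.1 - 1 ∈ J t ∧ ι u.2 - 1 ∈ J t := by
    intro u hu
    rw [GP, Subgroup.mem_prod] at hu
    exact ⟨hD t hu.1, hD t hu.2⟩
  have hadd1 : ∀ a b : H, ι a - 1 ∈ J t → ι b - 1 ∈ J t →
      (Submodule.Quotient.mk (ι (a * b) - 1) : R ⧸ J (t + ρ)) =
        Submodule.Quotient.mk (ι a - 1) + Submodule.Quotient.mk (ι b - 1) := by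
    intro a b ha hb
    rw [← Submodule.Quotient.mk_add, Submodule.Quotient.eq]
    have h1 : ι (a * b) - 1 - (ι a - 1 + (ι b - 1)) = (ι a - 1) * (ι b - 1) := by
      rw [map_mul]; noncomm_ring
    rw [h1]
    exact J_le F (t + ρ) (t + t) (by omega) (F.mul t t _ _ ha hb)
  have hadd : ∀ u ∈ GP Gm t, ∀ u' ∈ GP Gm t, θ (u * u') = θ u + θ u' := by
    intro u hu u' hu'
    obtain ⟨h1, h2⟩ := hGP u hu
    obtain ⟨h3, h4⟩ := hGP u' hu'
    exact Prod.ext (hadd1 _ _ h1 h3) (hadd1 _ _ h2 h4)
  have hone : θ 1 = 0 := by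
    apply Prod.ext
    · change (Submodule.Quotient.mk (ι (1 : H) - 1) : R ⧸ J (t + ρ)) = 0
      rw [map_one, sub_self]; rfl
    · change (Submodule.Quotient.mk (ι (1 : H) - 1) : R ⧸ J (t + ρ)) = 0
      rw [map_one, sub_self]; rfl
  have hzero : ∀ u, θ u = 0 → u ∈ DD F (t + ρ) := by
    intro u hu
    rw [DD, Subgroup.mem_prod]
    have h1 := congrArg Prod.fst hu
    have h2 := congrArg Prod.snd hu
    exact ⟨(Submodule.Quotient.mk_eq_zero _).mp h1, (Submodule.Quotient.mk_eq_zero _).mp h2⟩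
  have hclos : Subgroup.closure A ≤ GP Gm t := (Subgroup.closure_le _).mpr hA
  have hspan : ∀ u ∈ Subgroup.closure A, θ u ∈ Submodule.span (ZMod p) (θ '' A) := by
    intro u hu
    induction hu using Subgroup.closure_induction with
    | mem x hx => exact Submodule.subset_span ⟨x, hx, rfl⟩
    | one => rw [hone]; exact Submodule.zero_mem _
    | mul x y hx hy ihx ihy =>
      rw [hadd x (hclos hx) y (hclos hy)]
      exact Submodule.add_mem _ ihx ihy
    | inv x hx ihx =>
      have h1 := hadd x (hclos hx) x⁻¹ (inv_mem (hclos hx))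
      rw [mul_inv_cancel, hone] at h1
      have h2 : θ x⁻¹ = - θ x := (neg_eq_of_add_eq_zero_right h1.symm).symm
      rw [h2]
      exact Submodule.neg_mem _ ihx
  obtain ⟨l, hl1, hl2, hl3⟩ := short_sum θ A (θ v) (hspan v hv)
  have hlist : ∀ l : List (H × H), (∀ b ∈ l, b ∈ A) → l.prod ∈ GP Gm t ∧ θ l.prod = (l.map θ).sum := by
    intro l
    induction l with
    | nil => intro _; exact ⟨by simpa using one_mem _, by simpa using hone⟩
    | cons b l ih =>
      intro hb
      obtain ⟨h1, h2⟩ := ih fun x hx => hb x (List.mem_cons_of_mem _ hx)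
      have hbA : b ∈ GP Gm t := hA (hb b List.mem_cons_self)
      rw [List.prod_cons, List.map_cons, List.sum_cons]
      exact ⟨mul_mem hbA h1, by rw [hadd b hbA _ h1, h2]⟩
  obtain ⟨hlG, hlθ⟩ := hlist l hl1
  refine ⟨l, hl1, hl2.trans ((Nat.mul_le_mul_left p hVrank).trans hδ), hzero _ ?_⟩
  have h1 := hadd (v * l.prod⁻¹) (mul_mem (hclos hv) (inv_mem hlG)) l.prod hlG
  rw [inv_mul_cancel_right, hlθ, hl3] at h1
  exact right_eq_add.mp h1 |> fun h => h

end FPA
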