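import Pool.Agent.Helper993.FP.A0
set_option autoImplicit false
set_option linter.all false

namespace FPA


lemma Bd_le (d C : ℕ) (Rt κ : ℕ → ℕ) (hd : 1 ≤ d) (hκ : Monotone κ) (hκ1 : ∀ t, 1 ≤ κ t) (t : ℕ) :
    ∀ n c, Bd d C Rt κ n t c ≤
      c * (n + 1) * Rt t * ((t / C + 1) * d ^ (t / C) * κ (t / C)) ^ n := by
  intro n
  set M := (t / C + 1) * d ^ (t / C) * κ (t / C) with hM
  have hM1 : 1 ≤ M := by
    have h1 : 1 ≤ d ^ (t / C) := Nat.one_le_pow _ _ hd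
    have h2 := hκ1 (t / C)
    calc 1 = 1 * 1 * 1 := rfl
      _ ≤ (t / C + 1) * d ^ (t / C) * κ (t / C) :=
        Nat.mul_le_mul (Nat.mul_le_mul (Nat.le_add_left _ _) h1) h2
  induction n with
  | zero => intro c; simp [Bd]
  | succ n ih =>
    intro c
    rw [Bd]
    have h1 : ∑ t1 ∈ Finset.range (t / C + 1), d ^ t1 * Bd d C Rt κ n t (c * κ t1) ≤
        ∑ t1 ∈ Finset.range (t / C + 1),
          d ^ (t / C) * (c * κ (t / C) * (n + 1) * Rt t * M ^ n) := by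
      apply Finset.sum_le_sum
      intro t1 ht1
      rw [Finset.mem_range] at ht1
      have ht1' : t1 ≤ t / C := by omega
      apply Nat.mul_le_mul
      · exact Nat.pow_le_pow_right hd ht1'
      · refine (ih (c * κ t1)).trans ?_
        have := hκ ht1'
        gcongr
    rw [Finset.sum_const, Finset.card_range, smul_eq_mul] at h1
    have h2 : c * Rt t ≤ c * Rt t * M ^ (n + 1) :=
      Nat.le_mul_of_pos_right _ (Nat.pos_of_ne_zero (pow_ne_zero _ (by omega)))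
    calc c * Rt t + ∑ t1 ∈ Finset.range (t / C + 1), d ^ t1 * Bd d C Rt κ n t (c * κ t1)
        ≤ c * Rt t * M ^ (n + 1) +
          (t / C + 1) * (d ^ (t / C) * (c * κ (t / C) * (n + 1) * Rt t * M ^ n)) :=
          Nat.add_le_add h2 h1
      _ = c * (n + 1 + 1) * Rt t * M ^ (n + 1) := by
          rw [pow_succ, hM]
          ring

/-- TARGET: numerical estimate -/
theorem numerics (p d s j : ℕ) (μ : ℝ) (hμ : 1 < μ) (hs : 1 ≤ s) (hs2 : (256 : ℝ) ≤ μ ^ s) (hd : 2 ≤ d) (hp : 2 ≤ p) :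
    ∃ C, 2 ≤ C ∧ ∃ T0, ∀ t, T0 ≤ t →
      ((Bd d C (fun t => 2 ^ (2 * t / s + 1 + j) + 2 * t + j) (fun t => 4 * p * d ^ (2 * t)) j t 1 : ℕ) : ℝ) ≤ μ ^ t := by
  obtain ⟨C0, hC0⟩ := pow_unbounded_of_one_lt ((d : ℝ) ^ (12 * j)) hμ
  set C := C0 + 2 with hC
  have hCμ : (d : ℝ) ^ (12 * j) ≤ μ ^ C :=
    hC0.le.trans (pow_le_pow_right₀ hμ.le (by omega))
  refine ⟨C, by omega, ?_⟩
  -- fourth root
  set ν : ℝ := μ ^ ((1:ℝ) / 4) with hν
  have hν1 : 1 < ν := Real.one_lt_rpow hμ (by norm_num)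
  have hν0 : 0 < ν := by linarith
  have hν4 : ν ^ 4 = μ := by
    rw [hν, ← Real.rpow_natCast, ← Real.rpow_mul (by linarith)]
    norm_num
  have hρ : 1 < ν ^ 2 := one_lt_pow₀ hν1 (by norm_num)
  set A : ℝ := (j + 1) * (4 * p) ^ j * (2 ^ (1 + j) + 2 + j) with hA
  have hA0 : 0 < A := by positivity
  have htend := tendsto_pow_const_div_const_pow_of_one_lt (j + 1) hρ
  have hev : ∀ᶠ n : ℕ in Filter.atTop, (n : ℝ) ^ (j + 1) / (ν ^ 2) ^ n < 1 / (A * ν ^ 2) := by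
    apply htend.eventually (gt_mem_nhds _)
    positivity
  obtain ⟨T0, hT0⟩ := Filter.eventually_atTop.1 hev
  refine ⟨T0, ?_⟩
  intro t ht
  have h1 := Bd_le d C (fun t => 2 ^ (2 * t / s + 1 + j) + 2 * t + j) (fun t => 4 * p * d ^ (2 * t))
    (by omega) (by
      intro a b hab
      show 4 * p * d ^ (2 * a) ≤ 4 * p * d ^ (2 * b)
      apply Nat.mul_le_mul_left
      exact Nat.pow_le_pow_right (by omega) (by omega)) (by
      intro t
      have : 1 ≤ d ^ (2 * t) := Nat.one_le_pow _ _ (by omega)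
      show 1 ≤ 4 * p * d ^ (2 * t)
      nlinarith) t j 1
  simp only [one_mul] at h1
  have h1' : ((Bd d C (fun t => 2 ^ (2 * t / s + 1 + j) + 2 * t + j)
      (fun t => 4 * p * d ^ (2 * t)) j t 1 : ℕ) : ℝ) ≤
      ((j : ℝ) + 1) * ((2:ℝ) ^ (2 * t / s + 1 + j) + 2 * t + j) *
        (((t / C : ℕ) + 1) * (d:ℝ) ^ (t / C) * (4 * p * (d:ℝ) ^ (2 * (t / C)))) ^ j := by
    exact_mod_cast h1
  refine h1'.trans ?_
  set K : ℕ := t / C with hK
  have hKt : K ≤ t := Nat.div_le_self _ _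
  have hCK : C * K ≤ t := Nat.mul_div_le _ _
  have hd1 : (1:ℝ) ≤ d := by exact_mod_cast (by omega : 1 ≤ d)
  -- estimate of d ^ (3 j K)
  have hdK : (d:ℝ) ^ (3 * j * K) ≤ ν ^ t := by
    have e1 : ((d:ℝ) ^ (3 * j * K)) ^ 4 ≤ (ν ^ t) ^ 4 := by
      calc ((d:ℝ) ^ (3 * j * K)) ^ 4 = ((d:ℝ) ^ (12 * j)) ^ K := by
            rw [← pow_mul, ← pow_mul]; congr 1; ring
        _ ≤ (μ ^ C) ^ K := by gcongr
        _ = μ ^ (C * K) := by rw [← pow_mul]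
        _ ≤ μ ^ t := pow_le_pow_right₀ hμ.le hCK
        _ = (ν ^ t) ^ 4 := by rw [← hν4, ← pow_mul, ← pow_mul]; congr 1; ring
    exact le_of_pow_le_pow_left₀ (by norm_num) (by positivity) e1
  have h2s : (2:ℝ) ^ (2 * t / s) ≤ ν ^ t := by
    have e1 : ((2:ℝ) ^ (2 * t / s)) ^ (4 * s) ≤ (ν ^ t) ^ (4 * s) := by
      have e2 : (2 * t / s) * (4 * s) ≤ 8 * t := by
        have := Nat.div_mul_le_self (2 * t) s
        calc (2 * t / s) * (4 * s) = 4 * (2 * t / s * s) := by ring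
          _ ≤ 4 * (2 * t) := Nat.mul_le_mul_left _ this
          _ = 8 * t := by ring
      calc ((2:ℝ) ^ (2 * t / s)) ^ (4 * s) = (2:ℝ) ^ ((2 * t / s) * (4 * s)) := by rw [← pow_mul]
        _ ≤ (2:ℝ) ^ (8 * t) := pow_le_pow_right₀ (by norm_num) e2
        _ = (256:ℝ) ^ t := by rw [pow_mul]; norm_num
        _ ≤ (μ ^ s) ^ t := by gcongr
        _ = (ν ^ t) ^ (4 * s) := by
            rw [← hν4, ← pow_mul, ← pow_mul, ← pow_mul]; congr 1; ring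
    exact le_of_pow_le_pow_left₀ (by omega) (by positivity) e1
  have hνt : 1 ≤ ν ^ t := one_le_pow₀ hν1.le
  have hR : ((2:ℝ) ^ (2 * t / s + 1 + j) + 2 * t + j) ≤
      ν ^ t * ((2 ^ (1 + j) + 2 + j) * (t + 1)) := by
    have e1 : (2:ℝ) ^ (2 * t / s + 1 + j) ≤ ν ^ t * 2 ^ (1 + j) := by
      rw [show 2 * t / s + 1 + j = 2 * t / s + (1 + j) by ring, pow_add]
      gcongr
    have e2 : (2:ℝ) * t + j ≤ ν ^ t * (2 * t + j) := by
      have : (0:ℝ) ≤ 2 * t + j := by positivity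
      nlinarith
    have e3 : (2:ℝ) ^ (1 + j) + (2 * t + j) ≤ (2 ^ (1 + j) + 2 + j) * (t + 1) := by
      have h3 : (0:ℝ) ≤ 2 ^ (1 + j) * t := by positivity
      have h4 : (0:ℝ) ≤ (j:ℝ) * t := by positivity
      nlinarith
    calc ((2:ℝ) ^ (2 * t / s + 1 + j) + 2 * t + j) = (2:ℝ) ^ (2 * t / s + 1 + j) + (2 * t + j) := by ring
      _ ≤ ν ^ t * 2 ^ (1 + j) + ν ^ t * (2 * t + j) := by linarith
      _ = ν ^ t * ((2:ℝ) ^ (1 + j) + (2 * t + j)) := by ring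
      _ ≤ _ := by gcongr
  have hM : (((K : ℝ) + 1) * (d:ℝ) ^ K * (4 * p * (d:ℝ) ^ (2 * K))) ^ j ≤
      ((t:ℝ) + 1) ^ j * (4 * p) ^ j * ν ^ t := by
    calc (((K : ℝ) + 1) * (d:ℝ) ^ K * (4 * p * (d:ℝ) ^ (2 * K))) ^ j
        = ((K : ℝ) + 1) ^ j * (4 * p) ^ j * ((d:ℝ) ^ (3 * j * K)) := by
          have e1 : (d:ℝ) ^ (3 * j * K) = ((d:ℝ) ^ K * (d:ℝ) ^ (2 * K)) ^ j := by
            rw [← pow_add, ← pow_mul]; congr 1; ring
          rw [e1, ← mul_pow, ← mul_pow]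
          congr 1
          ring
      _ ≤ ((t:ℝ) + 1) ^ j * (4 * p) ^ j * ν ^ t := by
          have : (K:ℝ) ≤ t := by exact_mod_cast hKt
          gcongr
  have hfin : A * ((t:ℝ) + 1) ^ (j + 1) ≤ (ν ^ 2) ^ t := by
    have h3 := hT0 (t + 1) (by omega)
    push_cast at h3
    rw [div_lt_div_iff₀ (by positivity) (by positivity)] at h3
    have h4 : (ν ^ 2) ^ (t + 1) = (ν ^ 2) ^ t * ν ^ 2 := pow_succ _ _
    rw [h4, one_mul] at h3
    have h5 : (A * ((t:ℝ) + 1) ^ (j + 1)) * ν ^ 2 < (ν ^ 2) ^ t * ν ^ 2 := by linarith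
    exact (lt_of_mul_lt_mul_right h5 (by positivity)).le
  calc ((j : ℝ) + 1) * ((2:ℝ) ^ (2 * t / s + 1 + j) + 2 * t + j) *
        (((K : ℝ) + 1) * (d:ℝ) ^ K * (4 * p * (d:ℝ) ^ (2 * K))) ^ j
      ≤ ((j : ℝ) + 1) * (ν ^ t * ((2 ^ (1 + j) + 2 + j) * (t + 1))) *
        (((t:ℝ) + 1) ^ j * (4 * p) ^ j * ν ^ t) := by gcongr
    _ = (A * ((t:ℝ) + 1) ^ (j + 1)) * (ν ^ 2) ^ t := by
        rw [hA, ← pow_mul]
        ring
    _ ≤ (ν ^ 2) ^ t * (ν ^ 2) ^ t := by gcongr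
    _ = μ ^ t := by
        rw [← hν4, ← mul_pow]
        congr 1
        ring

end FPA
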