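import Pool.Agent.Helper993.FP.D0
set_option autoImplicit false
set_option linter.all false

namespace FPD
variable {Γ R : Type} [Group Γ] [Finite Γ] [AddCommGroup R]
variable {J : ℕ → AddSubgroup R} {DD GG : ℕ → Subgroup Γ}

theorem wt_le (S : Sys J DD GG) {σ s n m m' : ℕ} {φ : Γ → R} (hm : m' ≤ m) (h : Wt J DD σ s n m φ) :
    Wt J DD σ s n m' φ := by
  induction n generalizing m m' φ with
  | zero => exact fun z hz => S.Jle _ _ hm (h z hz)
  | succ n ih =>
    refine ⟨fun z hz => S.Jle _ _ hm (h.1 z hz), fun t ht u hu => ?_⟩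
    exact ih (by omega) (h.2 t ht u hu)

theorem wt_pred {σ s n m : ℕ} {φ : Γ → R} (h : Wt J DD σ s (n + 1) m φ) : Wt J DD σ s n m φ := by
  induction n generalizing m φ with
  | zero => exact h.1
  | succ n ih =>
    exact ⟨h.1, fun t ht u hu => ih (h.2 t ht u hu)⟩

theorem wt_sub (S : Sys J DD GG) {σ s n m : ℕ} {φ ψ : Γ → R} (h : Wt J DD σ s n m φ) (h' : Wt J DD σ s n m ψ) :
    Wt J DD σ s n m (φ - ψ) := by
  induction n generalizing m φ ψ with
  | zero => exact fun z hz => (J m).sub_mem (h z hz) (h' z hz)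
  | succ n ih =>
    refine ⟨fun z hz => (J m).sub_mem (h.1 z hz) (h'.1 z hz), fun t ht u hu => ?_⟩
    have e : del u (φ - ψ) = del u φ - del u ψ := by
      funext z; simp only [del, Pi.sub_apply]; abel
    rw [e]
    exact ih (h.2 t ht u hu) (h'.2 t ht u hu)

theorem wt_add (S : Sys J DD GG) {σ s n m : ℕ} {φ ψ : Γ → R} (h : Wt J DD σ s n m φ) (h' : Wt J DD σ s n m ψ) :
    Wt J DD σ s n m (φ + ψ) := by
  induction n generalizing m φ ψ with
  | zero => exact fun z hz => (J m).add_mem (h z hz) (h' z hz)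
  | succ n ih =>
    refine ⟨fun z hz => (J m).add_mem (h.1 z hz) (h'.1 z hz), fun t ht u hu => ?_⟩
    have e : del u (φ + ψ) = del u φ + del u ψ := by
      funext z; simp only [del, Pi.add_apply]; abel
    rw [e]
    exact ih (h.2 t ht u hu) (h'.2 t ht u hu)

theorem wt_shift (S : Sys J DD GG) {σ s n m : ℕ} {φ : Γ → R} (h : Wt J DD 0 s n m φ) : Wt J DD σ s n m φ := by
  induction n generalizing m φ with
  | zero => exact h
  | succ n ih =>
    refine ⟨h.1, fun t ht u hu => ?_⟩
    exact wt_le S (by omega) (ih (h.2 t ht u hu))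

variable (p : ℕ) (hp : 2 ≤ p) (T0 Tm C : ℕ) (Rt κ : ℕ → ℕ)

include hp in
/-- functions of high weight are degenerate with constant `0` -/
theorem deg_of_wt (S : Sys J DD GG) (s : ℕ) (hs : s ≤ T0) {σ n m α τ : ℕ} (hσ : σ ≤ s) {φ : Γ → R}
    (h : Wt J DD σ s n m φ) (hα : α + n * σ ≤ m) {z : Γ} (hz : z ∈ DD s) :
    Deg p J GG T0 Tm C Rt κ n φ z α τ 0 := by
  induction n generalizing m φ α τ with
  | zero => exact S.Jle _ _ (by omega) (h z hz)
  | succ n ih =>
    intro t ht hT0 hTm
    refine ⟨GG t, le_rfl, ?_, fun u hu => ?_⟩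
    · rw [Subgroup.relIndex_self]
      exact Nat.one_le_pow _ _ (by omega)
    · rw [zero_mul]
      have h1 : (n + 1) * σ = n * σ + σ := by ring
      exact ih (h.2 t (by omega) u (S.GGD t hu)) (by omega)

include hp in
theorem deg_mono (S : Sys J DD GG) {n α α' τ τ' c c' : ℕ} {φ : Γ → R} {z : Γ} (hα : α' ≤ α) (hτ : τ ≤ τ')
    (hc : c ≤ c') (h : Deg p J GG T0 Tm C Rt κ n φ z α τ c) : Deg p J GG T0 Tm C Rt κ n φ z α' τ' c' := by
  induction n generalizing α α' τ τ' c c' φ with
  | zero => exact S.Jle _ _ hα h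
  | succ n ih =>
    intro t ht hT0 hTm
    obtain ⟨K, hK, hi, hd⟩ := h t (by omega) hT0 hTm
    refine ⟨K, hK, hi.trans (Nat.pow_le_pow_right (by omega) (Nat.mul_le_mul_right _ hc)), fun u hu => ?_⟩
    exact ih (by omega) le_rfl (Nat.mul_le_mul_right _ hc) (hd u hu)

include hp in
theorem deg_add (S : Sys J DD GG) {n α τ c c' : ℕ} {φ ψ : Γ → R} {z : Γ}
    (h : Deg p J GG T0 Tm C Rt κ n φ z α τ c) (h' : Deg p J GG T0 Tm C Rt κ n ψ z α τ c') :
    Deg p J GG T0 Tm C Rt κ n (φ + ψ) z α τ (c + c') := by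
  induction n generalizing α τ c c' φ ψ with
  | zero => exact (J α).add_mem h h'
  | succ n ih =>
    intro t ht hT0 hTm
    obtain ⟨K, hK, hi, hd⟩ := h t ht hT0 hTm
    obtain ⟨K', hK', hi', hd'⟩ := h' t ht hT0 hTm
    refine ⟨K ⊓ K', inf_le_left.trans hK, ?_, fun u hu => ?_⟩
    · refine (Subgroup.relIndex_inf_le).trans ?_
      rw [add_mul, pow_add]
      exact Nat.mul_le_mul hi hi'
    · have e : del u (φ + ψ) = del u φ + del u ψ := by
        funext z; simp only [del, Pi.add_apply]; abel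
      rw [e, add_mul]
      exact ih (hd u hu.1) (hd' u hu.2)

include hp in
theorem deg_sub (S : Sys J DD GG) {n α τ c c' : ℕ} {φ ψ : Γ → R} {z : Γ}
    (h : Deg p J GG T0 Tm C Rt κ n φ z α τ c) (h' : Deg p J GG T0 Tm C Rt κ n ψ z α τ c') :
    Deg p J GG T0 Tm C Rt κ n (φ - ψ) z α τ (c + c') := by
  induction n generalizing α τ c c' φ ψ with
  | zero => exact (J α).sub_mem h h'
  | succ n ih =>
    intro t ht hT0 hTm
    obtain ⟨K, hK, hi, hd⟩ := h t ht hT0 hTm
    obtain ⟨K', hK', hi', hd'⟩ := h' t ht hT0 hTm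
    refine ⟨K ⊓ K', inf_le_left.trans hK, ?_, fun u hu => ?_⟩
    · refine (Subgroup.relIndex_inf_le).trans ?_
      rw [add_mul, pow_add]
      exact Nat.mul_le_mul hi hi'
    · have e : del u (φ - ψ) = del u φ - del u ψ := by
        funext z; simp only [del, Pi.sub_apply]; abel
      rw [e, add_mul]
      exact ih (hd u hu.1) (hd' u hu.2)

include hp in
/-- translation -/
theorem deg_trans (S : Sys J DD GG) {n α τ c : ℕ} {φ : Γ → R} {z v : Γ} :
    Deg p J GG T0 Tm C Rt κ n (fun x => φ (x * v)) z α τ c ↔ Deg p J GG T0 Tm C Rt κ n φ (z * v) α τ c := by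
  have key : ∀ (n α τ c : ℕ) (φ : Γ → R) (z v : Γ),
      Deg p J GG T0 Tm C Rt κ n (fun x => φ (x * v)) z α τ c → Deg p J GG T0 Tm C Rt κ n φ (z * v) α τ c := by
    intro n
    induction n with
    | zero => exact fun α τ c φ z v h => h
    | succ n ih =>
      intro α τ c φ z v h t ht hT0 hTm
      obtain ⟨K, hK, hi, hd⟩ := h t ht hT0 hTm
      have hn := S.GGn t
      have hG : (GG t).map (MulAut.conj v⁻¹).toMonoidHom = GG t := by
        ext y
        constructor
        · rintro ⟨a, ha, rfl⟩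
          exact hn.conj_mem a ha v⁻¹
        · intro hy
          refine ⟨v * y * v⁻¹, hn.conj_mem y hy v, ?_⟩
          simp only [MulEquiv.coe_toMonoidHom, MulAut.conj_apply]
          group
      refine ⟨K.map (MulAut.conj v⁻¹).toMonoidHom, ?_, ?_, ?_⟩
      · exact (Subgroup.map_mono hK).trans hG.le
      · have : (K.map (MulAut.conj v⁻¹).toMonoidHom).relIndex ((GG t).map (MulAut.conj v⁻¹).toMonoidHom) =
            K.relIndex (GG t) :=
          Subgroup.relIndex_map_map_of_injective _ _ (MulAut.conj v⁻¹).injective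
        rw [hG] at this
        rw [this]
        exact hi
      · rintro u' ⟨u, hu, rfl⟩
        apply ih
        have := hd u hu
        have e : del u (fun x => φ (x * v)) =
            fun x => del ((MulAut.conj v⁻¹).toMonoidHom u) φ (x * v) := by
          funext x
          simp only [del, MulEquiv.coe_toMonoidHom, MulAut.conj_apply]
          congr 2
          group
        rw [e] at this
        exact this
  constructor
  · exact key n α τ c φ z v
  · intro h
    have h1 := key n α τ c (fun x => φ (x * v)) (z * v) v⁻¹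
    simp only [mul_assoc, inv_mul_cancel, mul_inv_cancel, mul_one] at h1
    exact h1 h

include hp in
/-- invariance under small translations -/
theorem deg_inv (S : Sys J DD GG) (s : ℕ) (hs : s ≤ T0) {n m ρ α τ c : ℕ} {φ : Γ → R} (hφ : ∀ k, Wt J DD 0 s k m φ)
    (hρ : s ≤ ρ) (hα : α ≤ m + ρ) {z v : Γ} (hz : z ∈ DD s) (hv : v ∈ DD ρ) :
    Deg p J GG T0 Tm C Rt κ n φ (z * v) α τ c ↔ Deg p J GG T0 Tm C Rt κ n φ z α τ c := by
  have h1 : Deg p J GG T0 Tm C Rt κ n (del v φ) z α τ 0 :=
    deg_of_wt p hp T0 Tm C Rt κ S s hs (Nat.zero_le s) ((hφ (n + 1)).2 ρ hρ v hv) (by omega) hz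
  rw [← deg_trans p hp T0 Tm C Rt κ S]
  constructor
  · intro h
    have h2 := deg_sub p hp T0 Tm C Rt κ S h h1
    have e : (fun x => φ (x * v)) - del v φ = φ := by
      funext x; simp only [del, Pi.sub_apply]; abel
    rw [e] at h2
    exact h2
  · intro h
    have h2 := deg_add p hp T0 Tm C Rt κ S h h1
    have e : φ + del v φ = (fun x => φ (x * v)) := by
      funext x; simp only [del, Pi.add_apply]; abel
    rw [e] at h2
    exact h2

end FPD
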