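import Pool.Agent.Helper993.FP.A5
import Pool.Agent.Helper993.FP.D1
set_option autoImplicit false
set_option linter.all false

namespace FPA
open FPD
variable {p : ℕ} [Fact p.Prime] {H R : Type} [Group H] [Finite H] [Ring R] [Algebra (ZMod p) R] {ι : H →* R}
  {J : ℕ → Submodule (ZMod p) R} (F : Flt ι J)

theorem ff_words (q : ℕ) : ∃ W : Finset (List Bool), (∀ w, w ∈ W ↔ w.length < q) ∧
    W.card ≤ 2 ^ q := by
  classical
  refine ⟨(Finset.range q).biUnion (fun n => (Finset.univ : Finset (Fin n → Bool)).image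
    (fun h => List.ofFn h)), ?_, ?_⟩
  · intro w
    rw [Finset.mem_biUnion]
    constructor
    · rintro ⟨n, hn, hw⟩
      rw [Finset.mem_image] at hw
      obtain ⟨h, -, rfl⟩ := hw
      rw [List.length_ofFn]
      exact Finset.mem_range.1 hn
    · intro hw
      refine ⟨w.length, Finset.mem_range.2 hw, ?_⟩
      rw [Finset.mem_image]
      exact ⟨fun i => w.get i, Finset.mem_univ _, List.ofFn_get w⟩
  · refine le_trans Finset.card_biUnion_le ?_
    have h1 : ∑ n ∈ Finset.range q, ((Finset.univ : Finset (Fin n → Bool)).image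
        (fun h => List.ofFn h)).card ≤ ∑ n ∈ Finset.range q, 2 ^ n := by
      apply Finset.sum_le_sum
      intro n _
      refine le_trans Finset.card_image_le ?_
      rw [Finset.card_univ, Fintype.card_fun, Fintype.card_bool, Fintype.card_fin]
    refine le_trans h1 ?_
    have h2 : ∀ q, ∑ n ∈ Finset.range q, 2 ^ n + 1 = 2 ^ q := by
      intro q
      induction q with
      | zero => simp
      | succ q ih => rw [Finset.sum_range_succ, pow_succ]; omega
    have := h2 q
    omega

theorem ff_ev_sub {p : ℕ} {H R : Type} [Group H] [Ring R] [Algebra (ZMod p) R] (ι : H →* R)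
    (f g : List Bool →₀ ZMod p) : ev ι f - ev ι g = ev ι (f - g) := by
  funext z
  show ev ι f z - ev ι g z = ev ι (f - g) z
  unfold ev
  rw [Finsupp.sum_sub_index]
  intro w a b
  rw [sub_smul]

/-- TARGET: up to degenerate functions there are few polynomials -/
theorem fin_family (Gm : ℕ → Subgroup H) (hn : ∀ t, (Gm t).Normal) (hle : ∀ m n, m ≤ n → Gm n ≤ Gm m)
    (hD : ∀ t, Gm t ≤ Dg F t) (s j T0 Tm C : ℕ) (hs1 : 1 ≤ s) (hs : s ≤ T0) (Rt κ : ℕ → ℕ) (t : ℕ) :
    ∃ G : Finset (H × H → R), (∀ g ∈ G, g ∈ Set.range (ev (p := p) ι)) ∧ G.card ≤ p ^ (2 ^ (2 * t / s + 1 + j)) ∧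
      ∀ φ ∈ Set.range (ev (p := p) ι), ∃ g ∈ G, ∀ n, n < j → ∀ z ∈ DD F s, ∀ α, α ≤ 2 * t → ∀ τ,
        Deg p (JA J) (GP Gm) T0 Tm C Rt κ n (φ - g) z α τ 0 := by
  classical
  have hp : 2 ≤ p := (Fact.out : p.Prime).two_le
  haveI : NeZero p := ⟨by omega⟩
  obtain ⟨q, hq⟩ : ∃ q, q = 2 * t / s + 1 + j := ⟨_, rfl⟩
  obtain ⟨W, hW, hWc⟩ := ff_words q
  refine ⟨(Finset.univ : Finset (W → ZMod p)).image (fun h => ev (p := p) ι
    (Finsupp.indicator W (fun i hi => h ⟨i, hi⟩))), ?_, ?_, ?_⟩
  · intro g hg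
    rw [Finset.mem_image] at hg
    obtain ⟨h, -, rfl⟩ := hg
    exact ⟨_, rfl⟩
  · refine le_trans Finset.card_image_le ?_
    rw [Finset.card_univ, Fintype.card_fun, ZMod.card, Fintype.card_coe, ← hq]
    exact Nat.pow_le_pow_right (by omega) hWc
  · rintro φ ⟨f, rfl⟩
    refine ⟨ev ι (Finsupp.indicator W (fun i _ => f i)), ?_, ?_⟩
    · rw [Finset.mem_image]
      exact ⟨fun i => f i.1, Finset.mem_univ _, rfl⟩
    · intro n hn' z hz α hα τ
      rw [ff_ev_sub]
      have hwt := wt_evs F s n q (f - Finsupp.indicator W (fun i _ => f i)) (by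
        intro w hw
        by_contra hlt
        have hwW : w ∈ W := (hW w).2 (by omega)
        rw [Finsupp.mem_support_iff, Finsupp.sub_apply, Finsupp.indicator_of_mem hwW, sub_self]
          at hw
        exact hw rfl)
      refine deg_of_wt p hp T0 Tm C Rt κ (sys F Gm hn hle hD) s hs le_rfl hwt ?_ hz
      have h1 := Nat.div_add_mod (2 * t) s
      have h2 := Nat.mod_lt (2 * t) (show 0 < s by omega)
      have h3 : n * s ≤ j * s := Nat.mul_le_mul_right _ hn'.le
      have h4 : s * q = s * (2 * t / s) + s + j * s := by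
        rw [hq]
        ring
      omega

end FPA
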