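import Pool.Agent.Helper993.FP.A5
set_option autoImplicit false
set_option linter.all false

namespace FPG
open FPA FPD

section aux
variable (p : ℕ) (H : Type) [Group H]

/-- augmentation ideal as submodule -/
noncomputable def AI : Submodule (ZMod p) (MonoidAlgebra (ZMod p) H) :=
  Submodule.span (ZMod p) (Set.range (fun g : H => MonoidAlgebra.of (ZMod p) H g - 1))

lemma Jm_zero : Jm p H 0 = ⊤ := by simp [Jm]

lemma Jm_succ (n : ℕ) : Jm p H (n + 1) = AI p H ^ (n + 1) := by simp [Jm, AI]

lemma Jm_pos {n : ℕ} (hn : n ≠ 0) : Jm p H n = AI p H ^ n := by simp [Jm, AI, hn]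

lemma of_sub_mem (h : H) : MonoidAlgebra.of (ZMod p) H h - 1 ∈ AI p H :=
  Submodule.subset_span ⟨h, rfl⟩

lemma of_mul_mem (h : H) {x : MonoidAlgebra (ZMod p) H} (hx : x ∈ AI p H) :
    MonoidAlgebra.of (ZMod p) H h * x ∈ AI p H := by
  induction hx using Submodule.span_induction with
  | mem x hx =>
    obtain ⟨g, rfl⟩ := hx
    have : MonoidAlgebra.of (ZMod p) H h * (MonoidAlgebra.of (ZMod p) H g - 1)
      = (MonoidAlgebra.of (ZMod p) H (h * g) - 1) - (MonoidAlgebra.of (ZMod p) H h - 1) := by
      rw [map_mul]; noncomm_ring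
    show MonoidAlgebra.of (ZMod p) H h * (MonoidAlgebra.of (ZMod p) H g - 1) ∈ _
    rw [this]
    exact sub_mem (of_sub_mem p H _) (of_sub_mem p H _)
  | zero => simp
  | add x y _ _ hx hy => rw [mul_add]; exact add_mem hx hy
  | smul c x _ hx => rw [mul_smul_comm]; exact Submodule.smul_mem _ _ hx

lemma mul_of_mem (h : H) {x : MonoidAlgebra (ZMod p) H} (hx : x ∈ AI p H) :
    x * MonoidAlgebra.of (ZMod p) H h ∈ AI p H := by
  induction hx using Submodule.span_induction with
  | mem x hx =>
    obtain ⟨g, rfl⟩ := hx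
    have : (MonoidAlgebra.of (ZMod p) H g - 1) * MonoidAlgebra.of (ZMod p) H h
      = (MonoidAlgebra.of (ZMod p) H (g * h) - 1) - (MonoidAlgebra.of (ZMod p) H h - 1) := by
      rw [map_mul]; noncomm_ring
    show (MonoidAlgebra.of (ZMod p) H g - 1) * MonoidAlgebra.of (ZMod p) H h ∈ _
    rw [this]
    exact sub_mem (of_sub_mem p H _) (of_sub_mem p H _)
  | zero => simp
  | add x y _ _ hx hy => rw [add_mul]; exact add_mem hx hy
  | smul c x _ hx => rw [smul_mul_assoc]; exact Submodule.smul_mem _ _ hx

lemma top_mul_AI : (⊤ : Submodule (ZMod p) (MonoidAlgebra (ZMod p) H)) * AI p H ≤ AI p H := by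
  rw [Submodule.mul_le]
  intro a _ x hx
  induction a using MonoidAlgebra.induction_on with
  | of h => exact of_mul_mem p H h hx
  | add a b ha hb => rw [add_mul]; exact add_mem (ha trivial) (hb trivial)
  | smul c a ha => rw [smul_mul_assoc]; exact Submodule.smul_mem _ _ (ha trivial)

lemma AI_mul_top : AI p H * (⊤ : Submodule (ZMod p) (MonoidAlgebra (ZMod p) H)) ≤ AI p H := by
  rw [Submodule.mul_le]
  intro x hx a _
  induction a using MonoidAlgebra.induction_on with
  | of h => exact mul_of_mem p H h hx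
  | add a b ha hb => rw [mul_add]; exact add_mem (ha trivial) (hb trivial)
  | smul c a ha => rw [mul_smul_comm]; exact Submodule.smul_mem _ _ (ha trivial)

lemma top_mul_Jm (n : ℕ) : (⊤ : Submodule (ZMod p) (MonoidAlgebra (ZMod p) H)) * Jm p H n ≤ Jm p H n := by
  cases n with
  | zero => rw [Jm_zero]; exact le_top
  | succ n =>
    rw [Jm_succ, pow_succ', ← mul_assoc]
    exact mul_le_mul_left (top_mul_AI p H) _

lemma Jm_mul_top (n : ℕ) : Jm p H n * (⊤ : Submodule (ZMod p) (MonoidAlgebra (ZMod p) H)) ≤ Jm p H n := by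
  cases n with
  | zero => rw [Jm_zero]; exact le_top
  | succ n =>
    rw [Jm_succ, pow_succ, mul_assoc]
    exact mul_le_mul_right (AI_mul_top p H) _

lemma Jm_mul_Jm (m n : ℕ) : Jm p H m * Jm p H n ≤ Jm p H (m + n) := by
  cases m with
  | zero => rw [Jm_zero, zero_add]; exact top_mul_Jm p H n
  | succ m =>
    cases n with
    | zero => rw [Jm_zero, add_zero]; exact Jm_mul_top p H _
    | succ n =>
      rw [Jm_succ, Jm_succ, Jm_pos p H (by omega : m + 1 + (n + 1) ≠ 0), ← pow_add]

lemma Jm_anti (n : ℕ) : Jm p H (n + 1) ≤ Jm p H n := by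
  cases n with
  | zero => rw [Jm_zero]; exact le_top
  | succ n =>
    have h1 : Jm p H (n + 1 + 1) = Jm p H (n + 1) * Jm p H 1 := by
      rw [Jm_succ, Jm_succ, Jm_succ, ← pow_add]
    rw [h1]
    exact (mul_le_mul_right le_top _).trans (Jm_mul_top p H _)

end aux

/-- TARGET 1 -/
theorem flt_mon (p : ℕ) [Fact p.Prime] (H : Type) [Group H] : Flt (MonoidAlgebra.of (ZMod p) H) (Jm p H) where
  top := Jm_zero p H
  anti := Jm_anti p H
  mul := fun m n a b ha hb => Jm_mul_Jm p H m n (Submodule.mul_mem_mul ha hb)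
  aug := fun h => by rw [Jm_succ, zero_add, pow_one]; exact of_sub_mem p H h

lemma mem_one_add (p : ℕ) (H : Type) [Group H] (a : MonoidAlgebra (ZMod p) H) :
    ∃ c : ZMod p, ∃ x ∈ AI p H, a = c • (1 : MonoidAlgebra (ZMod p) H) + x := by
  induction a using MonoidAlgebra.induction_on with
  | of h => exact ⟨1, _, of_sub_mem p H h, by simp⟩
  | add a b ha hb =>
    obtain ⟨c, x, hx, rfl⟩ := ha
    obtain ⟨d, y, hy, rfl⟩ := hb
    exact ⟨c + d, x + y, add_mem hx hy, by rw [add_smul]; abel⟩
  | smul r a ha =>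
    obtain ⟨c, x, hx, rfl⟩ := ha
    exact ⟨r * c, r • x, Submodule.smul_mem _ _ hx, by rw [smul_add, smul_smul]⟩

/-- span of the words of length `n` -/
noncomputable def WS {p : ℕ} {H R : Type} [Group H] [Ring R] [Algebra (ZMod p) R] {d : ℕ} (ι : H →* R)
    (g : Fin d → H) (n : ℕ) : Submodule (ZMod p) R :=
  Submodule.span (ZMod p) {a | ∃ w : List (Fin d), w.length = n ∧ a = xw ι g w}

lemma WS_mul {p : ℕ} {H R : Type} [Group H] [Ring R] [Algebra (ZMod p) R] {d : ℕ} (ι : H →* R)
    (g : Fin d → H) (m n : ℕ) : WS (p := p) ι g m * WS (p := p) ι g n ≤ WS ι g (m + n) := by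
  unfold WS
  rw [Submodule.span_mul_span]
  refine Submodule.span_mono ?_
  rintro _ ⟨_, ⟨u, hu, rfl⟩, _, ⟨v, hv, rfl⟩, rfl⟩
  exact ⟨u ++ v, by simp [hu, hv], by simp [xw]⟩

/-- TARGET 2 -/
theorem gen_mon (p : ℕ) [Fact p.Prime] (H : Type) [Group H] [Finite H] {d : ℕ} (g : Fin d → H)
    (hg : Subgroup.closure (Set.range g) = ⊤) : Gen (MonoidAlgebra.of (ZMod p) H) (Jm p H) g := by
  -- the left ideal generated by the `g_i - 1`
  have hI : AI p H ≤ WS (MonoidAlgebra.of (ZMod p) H) g 1 ⊔ Jm p H 2 := by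
    -- all `h` with `h - 1` in `W`
    set W := WS (p := p) (MonoidAlgebra.of (ZMod p) H) g 1 ⊔ Jm p H 2 with hW
    have hJ2 : Jm p H 2 ≤ W := le_sup_right
    have hadd : ∀ h k : H, (MonoidAlgebra.of (ZMod p) H (h * k) - 1) -
        ((MonoidAlgebra.of (ZMod p) H h - 1) + (MonoidAlgebra.of (ZMod p) H k - 1)) ∈ W := by
      intro h k
      have h1 : (MonoidAlgebra.of (ZMod p) H (h * k) - 1) -
        ((MonoidAlgebra.of (ZMod p) H h - 1) + (MonoidAlgebra.of (ZMod p) H k - 1)) =
        (MonoidAlgebra.of (ZMod p) H h - 1) * (MonoidAlgebra.of (ZMod p) H k - 1) := by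
        rw [map_mul]; noncomm_ring
      rw [h1]
      apply hJ2
      rw [Jm_succ, pow_succ, pow_one]
      exact Submodule.mul_mem_mul (of_sub_mem p H h) (of_sub_mem p H k)
    have hall : ∀ h : H, MonoidAlgebra.of (ZMod p) H h - 1 ∈ W := by
      intro h
      have hh : h ∈ Subgroup.closure (Set.range g) := by rw [hg]; trivial
      induction hh using Subgroup.closure_induction with
      | mem x hx =>
        obtain ⟨i, rfl⟩ := hx
        exact (le_sup_left : _ ≤ W) (Submodule.subset_span ⟨[i], rfl, by simp [xw]⟩)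
      | one => rw [map_one, sub_self]; exact zero_mem _
      | mul x y _ _ hx hy =>
        have := add_mem (hadd x y) (add_mem hx hy)
        simpa using this
      | inv x _ hx =>
        have h1 := hadd x x⁻¹
        have h2 : MonoidAlgebra.of (ZMod p) H x⁻¹ - 1 = - (((MonoidAlgebra.of (ZMod p) H (x * x⁻¹) - 1) -
          ((MonoidAlgebra.of (ZMod p) H x - 1) + (MonoidAlgebra.of (ZMod p) H x⁻¹ - 1))) +
          (MonoidAlgebra.of (ZMod p) H x - 1)) := by
          rw [mul_inv_cancel, map_one]; noncomm_ring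
        rw [h2]
        exact neg_mem (add_mem h1 hx)
    unfold AI
    rw [Submodule.span_le]
    rintro _ ⟨h, rfl⟩
    exact hall h
  -- induction
  have key : ∀ n, Jm p H n ≤ WS (MonoidAlgebra.of (ZMod p) H) g n ⊔ Jm p H (n + 1) := by
    intro n
    induction n with
    | zero =>
      intro a _
      obtain ⟨c, x, hx, rfl⟩ := mem_one_add p H a
      refine add_mem (Submodule.smul_mem _ _ ((le_sup_left : WS (MonoidAlgebra.of (ZMod p) H) g 0 ≤ _)
        (Submodule.subset_span ⟨[], rfl, by simp [xw]⟩))) (le_sup_right (a := WS (MonoidAlgebra.of (ZMod p) H) g 0) ?_)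
      rw [Jm_succ, zero_add, pow_one]
      exact hx
    | succ n ih =>
      have h1 : Jm p H (n + 1) ≤ Jm p H n * AI p H := by
        cases n with
        | zero =>
          rw [Jm_zero, Jm_succ, zero_add, pow_one]
          intro x hx
          rw [← one_mul x]
          exact Submodule.mul_mem_mul trivial hx
        | succ n => rw [Jm_succ, Jm_succ, ← pow_succ]
      refine h1.trans ?_
      have h2 : Jm p H n * AI p H ≤ (WS (MonoidAlgebra.of (ZMod p) H) g n ⊔ Jm p H (n + 1)) *
          (WS (MonoidAlgebra.of (ZMod p) H) g 1 ⊔ Jm p H 2) := mul_le_mul' ih hI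
      refine h2.trans ?_
      have hWJ : ∀ n, WS (p := p) (MonoidAlgebra.of (ZMod p) H) g n ≤ Jm p H n := by
        intro n
        unfold WS
        rw [Submodule.span_le]
        rintro _ ⟨w, rfl, rfl⟩
        induction w with
        | nil => rw [List.length_nil, Jm_zero]; trivial
        | cons i w ih =>
          have : xw (MonoidAlgebra.of (ZMod p) H) g (i :: w) =
            (MonoidAlgebra.of (ZMod p) H (g i) - 1) * xw (MonoidAlgebra.of (ZMod p) H) g w := by simp [xw]
          rw [this, List.length_cons, add_comm]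
          exact (flt_mon p H).mul _ _ _ _ ((flt_mon p H).aug _) ih
      rw [Submodule.sup_mul, Submodule.mul_sup, Submodule.mul_sup]
      refine sup_le (sup_le ?_ ?_) (sup_le ?_ ?_)
      · exact (WS_mul _ g n 1).trans le_sup_left
      · exact (mul_le_mul' (hWJ n) le_rfl).trans ((Jm_mul_Jm p H n 2).trans le_sup_right)
      · refine (mul_le_mul' le_rfl (hWJ 1)).trans ((Jm_mul_Jm p H (n + 1) 1).trans le_sup_right)
      · refine (Jm_mul_Jm p H (n + 1) 2).trans ?_
        exact (Jm_anti p H (n + 1 + 1)).trans le_sup_right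
  exact key

lemma exists_fixed {p : ℕ} [Fact p.Prime] {P : Type} [Group P] (hP : ∃ k : ℕ, Nat.card P = p ^ k)
    {V : Type} [AddCommGroup V] [Module (ZMod p) V] [Finite V] [Nontrivial V]
    (ρ : P →* Module.End (ZMod p) V) : ∃ v : V, v ≠ 0 ∧ ∀ g, ρ g v = v := by
  have hPG : IsPGroup p P := by
    obtain ⟨k, hk⟩ := hP
    exact IsPGroup.of_card hk
  letI : MulAction P V := MulAction.compHom V ρ
  have hdvd : p ∣ Nat.card V := by
    have h1 : Fintype (ZMod p) := inferInstance
    haveI : Fintype V := Fintype.ofFinite V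
    rw [Nat.card_eq_fintype_card, Module.card_eq_pow_finrank (K := ZMod p) (V := V), ZMod.card]
    exact dvd_pow_self p (Module.finrank_pos).ne'
  have h0 : (0 : V) ∈ MulAction.fixedPoints P V := fun g => by
    show ρ g 0 = 0
    simp
  obtain ⟨b, hb, hb0⟩ := hPG.exists_fixed_point_of_prime_dvd_card_of_fixed_point V hdvd h0
  exact ⟨b, hb0.symm, fun g => hb g⟩

/-- TARGET 3: the augmentation ideal of a finite p-group is nilpotent -/
theorem aug_nilp (p : ℕ) [Fact p.Prime] (P : Type) [Group P] [Finite P] (hP : ∃ k : ℕ, Nat.card P = p ^ k) :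
    ∃ n, 1 ≤ n ∧ Jm p P n = ⊥ := by
  haveI hfR : Finite (MonoidAlgebra (ZMod p) P) := by
    haveI : Finite (P →₀ ZMod p) := Finite.of_injective (fun f : P →₀ ZMod p => (f : P → ZMod p))
      DFunLike.coe_injective
    exact Finite.of_injective (fun f : MonoidAlgebra (ZMod p) P => f.coeff) (fun a b h => by
      ext x
      exact DFunLike.congr_fun h x)
  -- left annihilators of the powers
  let A : ℕ → Submodule (ZMod p) (MonoidAlgebra (ZMod p) P) := fun n =>
    { carrier := {a | ∀ x ∈ Jm p P n, a * x = 0}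
      add_mem' := fun {a b} ha hb x hx => by rw [add_mul, ha x hx, hb x hx, add_zero]
      zero_mem' := fun x _ => zero_mul x
      smul_mem' := fun c a ha x hx => by rw [smul_mul_assoc, ha x hx, smul_zero] }
  have hA : ∀ n a, a ∈ A n ↔ ∀ x ∈ Jm p P n, a * x = 0 := fun n a => Iff.rfl
  have hmono : Monotone A := monotone_nat_of_le_succ fun n a ha x hx => ha x (Jm_anti p P n hx)
  have hstep : ∀ n, A n ≠ ⊤ → ∃ a, a ∈ A (n + 1) ∧ a ∉ A n := by
    intro n hn
    haveI : Nontrivial (MonoidAlgebra (ZMod p) P ⧸ A n) := Submodule.Quotient.nontrivial_iff.2 hn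
    haveI : Finite (MonoidAlgebra (ZMod p) P ⧸ A n) := Finite.of_surjective _ (A n).mkQ_surjective
    have hst : ∀ g : P, A n ≤ (A n).comap (LinearMap.mulRight (ZMod p) (MonoidAlgebra.of (ZMod p) P g)) := by
      intro g a ha x hx
      rw [LinearMap.mulRight_apply, mul_assoc]
      exact ha _ (top_mul_Jm p P n (Submodule.mul_mem_mul trivial hx))
    let ρ : P →* Module.End (ZMod p) (MonoidAlgebra (ZMod p) P ⧸ A n) :=
      { toFun := fun g => (A n).mapQ (A n) (LinearMap.mulRight (ZMod p) (MonoidAlgebra.of (ZMod p) P g⁻¹)) (hst _)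
        map_one' := by
          ext x
          simp
        map_mul' := fun g h => by
          refine LinearMap.ext fun v => ?_
          obtain ⟨a, rfl⟩ := (A n).mkQ_surjective v
          simp only [Submodule.mkQ_apply, Submodule.mapQ_apply, LinearMap.mulRight_apply,
            Module.End.mul_apply, mul_inv_rev, map_mul, mul_assoc] }
    obtain ⟨v, hv0, hv⟩ := exists_fixed hP ρ
    obtain ⟨a, rfl⟩ := (A n).mkQ_surjective v
    have ha : ∀ g : P, a * (MonoidAlgebra.of (ZMod p) P g - 1) ∈ A n := by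
      intro g
      have h1 := hv g⁻¹
      have h2 : (A n).mkQ (a * MonoidAlgebra.of (ZMod p) P g⁻¹⁻¹) = (A n).mkQ a := h1
      rw [inv_inv, ← sub_eq_zero, ← map_sub, Submodule.mkQ_apply, Submodule.Quotient.mk_eq_zero] at h2
      rw [mul_sub, mul_one]
      exact h2
    have ha2 : ∀ i ∈ AI p P, a * i ∈ A n := by
      intro i hi
      induction hi using Submodule.span_induction with
      | mem x hx => obtain ⟨g, rfl⟩ := hx; exact ha g
      | zero => rw [mul_zero]; exact zero_mem _
      | add x y _ _ hx hy => rw [mul_add]; exact add_mem hx hy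
      | smul c x _ hx => rw [mul_smul_comm]; exact Submodule.smul_mem _ _ hx
    have hle : Jm p P (n + 1) ≤ AI p P * Jm p P n := by
      cases n with
      | zero =>
        rw [Jm_zero, Jm_succ, zero_add, pow_one]
        intro x hx
        rw [← mul_one x]
        exact Submodule.mul_mem_mul hx trivial
      | succ n => rw [Jm_succ, Jm_succ, ← pow_succ']
    refine ⟨a, fun x hx => ?_, fun hmem => hv0 ?_⟩
    · have h3 : AI p P * Jm p P n ≤ LinearMap.ker (LinearMap.mulLeft (ZMod p) a) :=
        Submodule.mul_le.2 fun i hi y hy => by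
          rw [LinearMap.mem_ker, LinearMap.mulLeft_apply, ← mul_assoc]
          exact ha2 i hi y hy
      exact h3 (hle hx)
    · rw [Submodule.mkQ_apply, Submodule.Quotient.mk_eq_zero]
      exact hmem
  obtain ⟨n, hn⟩ := monotone_stabilizes_iff_noetherian.2
    (inferInstance : IsNoetherian (ZMod p) (MonoidAlgebra (ZMod p) P)) ⟨A, hmono⟩
  have hAn : A n = ⊤ := by
    by_contra hne
    obtain ⟨a, ha1, ha2⟩ := hstep n hne
    have h1 : A n = A (n + 1) := hn (n + 1) (by omega)
    exact ha2 (h1 ▸ ha1)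
  refine ⟨n + 1, by omega, ?_⟩
  rw [eq_bot_iff]
  intro x hx
  have h1 : (1 : MonoidAlgebra (ZMod p) P) ∈ A n := by rw [hAn]; trivial
  have := h1 x (Jm_anti p P n hx)
  rwa [one_mul] at this

section
variable {p : ℕ} [Fact p.Prime] {H R : Type} [Group H] [Ring R] [Algebra (ZMod p) R] {ι : H →* R}
  {J : ℕ → Submodule (ZMod p) R} (F : Flt ι J) {d : ℕ} (g : Fin d → H)

/-- one step of the filtration -/
lemma step_finrank (V : Type) [AddCommGroup V] [Module (ZMod p) V] (A B : Submodule (ZMod p) V)
    (hBA : B ≤ A) (S : Set V) (hS : S.Finite) (hAS : A ≤ Submodule.span (ZMod p) S ⊔ B)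
    (hfin : Module.Finite (ZMod p) (V ⧸ A)) :
    Module.Finite (ZMod p) (V ⧸ B) ∧
      Module.finrank (ZMod p) (V ⧸ B) ≤ Module.finrank (ZMod p) (V ⧸ A) + S.ncard := by
  have hM : A.map B.mkQ ≤ Submodule.span (ZMod p) (B.mkQ '' S) := by
    refine (Submodule.map_mono hAS).trans ?_
    rw [Submodule.map_sup, Submodule.map_span]
    refine sup_le le_rfl ?_
    rw [Submodule.mkQ_map_self]
    exact bot_le
  have hSf : (B.mkQ '' S).Finite := hS.image _
  haveI : Module.Finite (ZMod p) (Submodule.span (ZMod p) (B.mkQ '' S)) :=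
    Module.Finite.span_of_finite _ hSf
  haveI : Module.Finite (ZMod p) (A.map B.mkQ) := Submodule.finiteDimensional_of_le hM
  have e := Submodule.quotientQuotientEquivQuotient B A hBA
  haveI : Module.Finite (ZMod p) ((V ⧸ B) ⧸ A.map B.mkQ) := Module.Finite.equiv e.symm
  haveI h1 : Module.Finite (ZMod p) (V ⧸ B) := Module.Finite.of_submodule_quotient (A.map B.mkQ)
  refine ⟨h1, ?_⟩
  rw [← Submodule.finrank_quotient_add_finrank (A.map B.mkQ), e.finrank_eq]
  refine Nat.add_le_add_left ?_ _
  refine (Submodule.finrank_mono hM).trans ?_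
  haveI := hSf.fintype
  refine (finrank_span_le_card _).trans ?_
  rw [Set.toFinset_card, ← Nat.card_eq_fintype_card, Nat.card_coe_set_eq]
  exact Set.ncard_image_le hS

lemma words_finite (n : ℕ) : {w : List (Fin d) | w.length = n}.Finite :=
  List.finite_length_eq (Fin d) n

lemma words_ncard (n : ℕ) : {w : List (Fin d) | w.length = n}.ncard = d ^ n := by
  rw [← Nat.card_coe_set_eq]
  have : Nat.card (List.Vector (Fin d) n) = d ^ n := by
    rw [Nat.card_eq_fintype_card, card_vector, Fintype.card_fin]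
  exact this

include F in
/-- TARGET 4 -/
theorem finrank_quot (hg : Gen ι J g) (hd : 2 ≤ d) (n : ℕ) :
    Module.Finite (ZMod p) (R ⧸ J n) ∧ Module.finrank (ZMod p) (R ⧸ J n) ≤ d ^ n := by
  have key : ∀ n, Module.Finite (ZMod p) (R ⧸ J n) ∧ Module.finrank (ZMod p) (R ⧸ J n) + 1 ≤ d ^ n := by
    intro n
    induction n with
    | zero =>
      rw [F.top]
      haveI : Subsingleton (R ⧸ (⊤ : Submodule (ZMod p) R)) := inferInstance
      refine ⟨inferInstance, ?_⟩
      rw [Module.finrank_zero_of_subsingleton]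
      simp
    | succ n ih =>
      have hset : {a | ∃ w : List (Fin d), w.length = n ∧ a = xw ι g w} =
          (fun w => xw ι g w) '' {w : List (Fin d) | w.length = n} := by
        ext a
        constructor
        · rintro ⟨w, hw, rfl⟩; exact ⟨w, hw, rfl⟩
        · rintro ⟨w, hw, rfl⟩; exact ⟨w, hw, rfl⟩
      have h1 := step_finrank R (J n) (J (n + 1)) (F.anti n)
        {a | ∃ w : List (Fin d), w.length = n ∧ a = xw ι g w}
        (by rw [hset]; exact (words_finite n).image _) (hg n) ih.1
      refine ⟨h1.1, ?_⟩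
      have h2 : {a | ∃ w : List (Fin d), w.length = n ∧ a = xw ι g w}.ncard ≤ d ^ n := by
        rw [hset, ← words_ncard n]
        exact Set.ncard_image_le (words_finite n)
      have h3 : 2 * d ^ n ≤ d ^ (n + 1) := by
        rw [pow_succ, mul_comm]
        exact Nat.mul_le_mul_left _ hd
      have := h1.2
      omega
  exact ⟨(key n).1, by have := (key n).2; omega⟩

include F in
lemma xw_mem (w : List (Fin d)) : xw ι g w ∈ J w.length := by
  induction w with
  | nil => rw [List.length_nil, F.top]; trivial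
  | cons i w ih =>
    have : xw ι g (i :: w) = (ι (g i) - 1) * xw ι g w := by simp [xw]
    rw [this, List.length_cons, add_comm]
    exact F.mul _ _ _ _ (F.aug _) ih

lemma xw_append (u v : List (Fin d)) : xw ι g (u ++ v) = xw ι g u * xw ι g v := by
  simp [xw]

lemma lt_append_of_length {v v' : List (Fin d)} (h : v < v') (hl : v'.length = v.length)
    (u w : List (Fin d)) : u ++ v ++ w < u ++ v' ++ w := by
  have h1 : v ++ w < v' ++ w := by
    induction v generalizing v' with
    | nil =>
      cases v' with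
      | nil => exact absurd h (lt_irrefl _)
      | cons => simp at hl
    | cons a v ih =>
      cases v' with
      | nil => simp at hl
      | cons b v' =>
        rw [List.cons_lt_cons_iff] at h
        rw [List.cons_append, List.cons_append, List.cons_lt_cons_iff]
        rcases h with h | ⟨h, h'⟩
        · exact Or.inl h
        · exact Or.inr ⟨h, ih h' (by simpa using hl)⟩
  rw [List.append_assoc, List.append_assoc]
  exact List.append_left_lt h1

include F in
/-- TARGET 5: factors of normal words are normal -/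
theorem normal_factor (u v w : List (Fin d)) (h : xw ι g (u ++ v ++ w) ∉ TT ι J g (u ++ v ++ w)) :
    xw ι g v ∉ TT ι J g v := by
  intro hv
  apply h
  have key : TT ι J g v ≤ (TT ι J g (u ++ v ++ w)).comap
      ((LinearMap.mulLeft (ZMod p) (xw ι g u)).comp (LinearMap.mulRight (ZMod p) (xw ι g w))) := by
    unfold TT
    refine sup_le ?_ ?_
    · rw [Submodule.span_le]
      rintro _ ⟨v', hl, hlt, rfl⟩
      refine (le_sup_left : Submodule.span (ZMod p) {a | ∃ w' : List (Fin d), w'.length = (u ++ v ++ w).length ∧ (u ++ v ++ w) < w' ∧ a = xw ι g w'} ≤ _) (Submodule.subset_span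
        ⟨u ++ v' ++ w, by simp [hl], lt_append_of_length hlt hl u w, ?_⟩)
      rw [xw_append, xw_append, mul_assoc]
      rfl
    · intro x hx
      refine (le_sup_right : J ((u ++ v ++ w).length + 1) ≤ _) ?_
      have h1 := F.mul _ _ _ _ (xw_mem F g u) (F.mul _ _ _ _ hx (xw_mem F g w))
      have h2 : u.length + (v.length + 1 + w.length) = (u ++ v ++ w).length + 1 := by
        simp only [List.length_append]; omega
      rw [h2] at h1
      exact h1
  have h1 := key hv
  rw [xw_append, xw_append, mul_assoc]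
  exact h1

include F in
/-- TARGET 6: normal words span -/
theorem normal_count (hg : Gen ι J g) (n : ℕ) (hfin : Module.Finite (ZMod p) (R ⧸ J (n + 1))) :
    Module.finrank (ZMod p) (R ⧸ J (n + 1)) ≤ Module.finrank (ZMod p) (R ⧸ J n) +
      Set.ncard {w : List (Fin d) | w.length = n ∧ xw ι g w ∉ TT ι J g w} := by
  set N : Set (List (Fin d)) := {w : List (Fin d) | w.length = n ∧ xw ι g w ∉ TT ι J g w} with hN
  have hNf : N.Finite := (words_finite n).subset fun w hw => hw.1
  have hword : ∀ w : {w : List (Fin d) // w.length = n}, xw ι g w.1 ∈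
      Submodule.span (ZMod p) ((fun w => xw ι g w) '' N) ⊔ J (n + 1) := by
    intro w
    haveI : Finite {w : List (Fin d) // w.length = n} := (words_finite n).to_subtype
    induction w using (Finite.to_wellFoundedGT (α := {w : List (Fin d) // w.length = n})).wf.induction with
    | _ w ih =>
    by_cases hw : xw ι g w.1 ∈ TT ι J g w.1
    · have hle : TT ι J g w.1 ≤ Submodule.span (ZMod p) ((fun w => xw ι g w) '' N) ⊔ J (n + 1) := by
        unfold TT
        refine sup_le ?_ ?_
        · rw [Submodule.span_le]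
          rintro _ ⟨w', hl, hlt, rfl⟩
          exact ih ⟨w', hl.trans w.2⟩ hlt
        · rw [w.2]
          exact le_sup_right
      exact hle hw
    · exact (le_sup_left : _ ≤ Submodule.span (ZMod p) ((fun w => xw ι g w) '' N) ⊔ J (n + 1))
        (Submodule.subset_span ⟨w.1, ⟨w.2, hw⟩, rfl⟩)
  have hle : J n ≤ Submodule.span (ZMod p) ((fun w => xw ι g w) '' N) ⊔ J (n + 1) := by
    refine (hg n).trans (sup_le ?_ le_sup_right)
    rw [Submodule.span_le]
    rintro _ ⟨w, hw, rfl⟩
    exact hword ⟨w, hw⟩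
  haveI : Module.Finite (ZMod p) (R ⧸ J n) :=
    Module.Finite.of_surjective (Submodule.factor (F.anti n)) (Submodule.factor_surjective (F.anti n))
  have h1 := (step_finrank R (J n) (J (n + 1)) (F.anti n) ((fun w => xw ι g w) '' N)
    (hNf.image _) hle inferInstance).2
  exact h1.trans (Nat.add_le_add_left (Set.ncard_image_le hNf) _)
end

/-- TARGET 7: a relation between words persists in quotients -/
theorem TT_map (p : ℕ) [Fact p.Prime] {H H' : Type} [Group H] [Group H'] (f : H →* H') {d : ℕ}
    (g : Fin d → H) (w : List (Fin d))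
    (h : xw (MonoidAlgebra.of (ZMod p) H) g w ∈ TT (MonoidAlgebra.of (ZMod p) H) (Jm p H) g w) :
    xw (MonoidAlgebra.of (ZMod p) H') (fun i => f (g i)) w ∈
      TT (MonoidAlgebra.of (ZMod p) H') (Jm p H') (fun i => f (g i)) w := by
  set φ : MonoidAlgebra (ZMod p) H →ₐ[ZMod p] MonoidAlgebra (ZMod p) H' :=
    MonoidAlgebra.mapDomainAlgHom (ZMod p) (ZMod p) f with hφ
  have hof : ∀ x, φ (MonoidAlgebra.of (ZMod p) H x) = MonoidAlgebra.of (ZMod p) H' (f x) := by
    intro x
    simp [hφ, MonoidAlgebra.of_apply, MonoidAlgebra.mapDomain_single]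
  have hxw : ∀ w, φ (xw (MonoidAlgebra.of (ZMod p) H) g w) =
      xw (MonoidAlgebra.of (ZMod p) H') (fun i => f (g i)) w := by
    intro w
    unfold xw
    rw [map_list_prod, List.map_map]
    congr 1
    refine List.map_congr_left fun i _ => ?_
    simp only [Function.comp_apply, map_sub, map_one, hof]
  have hAI : (AI p H).map φ.toLinearMap ≤ AI p H' := by
    unfold AI
    rw [Submodule.map_span, Submodule.span_le]
    rintro _ ⟨_, ⟨x, rfl⟩, rfl⟩
    refine Submodule.subset_span ⟨f x, ?_⟩
    simp only [AlgHom.toLinearMap_apply, map_sub, map_one, hof]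
  have hJ : ∀ n, (Jm p H n).map φ.toLinearMap ≤ Jm p H' n := by
    intro n
    cases n with
    | zero => rw [Jm_zero p H']; exact le_top
    | succ n =>
      rw [Jm_succ, Jm_succ, Submodule.map_pow]
      exact pow_le_pow_left' hAI _
  have key : TT (MonoidAlgebra.of (ZMod p) H) (Jm p H) g w ≤
      (TT (MonoidAlgebra.of (ZMod p) H') (Jm p H') (fun i => f (g i)) w).comap φ.toLinearMap := by
    unfold TT
    refine sup_le ?_ ?_
    · rw [Submodule.span_le]
      rintro _ ⟨w', hl, hlt, rfl⟩
      refine (le_sup_left : Submodule.span (ZMod p) {a | ∃ w' : List (Fin d), w'.length = w.length ∧ w < w' ∧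
        a = xw (MonoidAlgebra.of (ZMod p) H') (fun i => f (g i)) w'} ≤ _) (Submodule.subset_span ⟨w', hl, hlt, hxw w'⟩)
    · intro x hx
      exact (le_sup_right : Jm p H' (w.length + 1) ≤ _) (hJ _ (Submodule.mem_map_of_mem hx))
  have h1 := key h
  rw [← hxw]
  exact h1

end FPG
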