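import Pool.Agent.Helper993.FP.A5
set_option autoImplicit false
set_option linter.all false

namespace FPA
open FPD
variable {p : ℕ} [Fact p.Prime] {H R : Type} [Group H] [Ring R] [Algebra (ZMod p) R] {ι : H →* R}
  {J : ℕ → Submodule (ZMod p) R} (F : Flt ι J)

theorem j4051_mono {σ s : ℕ} (n : ℕ) : ∀ {m m' : ℕ} {φ : H × H → R}, m' ≤ m →
    Wt (JA J) (DD F) σ s n m φ → Wt (JA J) (DD F) σ s n m' φ := by
  induction n with
  | zero =>
    intro m m' φ hm h z hz
    exact J_le F m' m hm (h z hz)
  | succ n ih =>
    intro m m' φ hm h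
    refine ⟨fun z hz => J_le F m' m hm (h.1 z hz), fun t ht u hu => ?_⟩
    exact ih (by omega) (h.2 t ht u hu)

theorem j4051_add {σ s : ℕ} (n : ℕ) : ∀ {m : ℕ} {φ ψ : H × H → R},
    Wt (JA J) (DD F) σ s n m φ → Wt (JA J) (DD F) σ s n m ψ →
    Wt (JA J) (DD F) σ s n m (fun z => φ z + ψ z) := by
  induction n with
  | zero =>
    intro m φ ψ h h' z hz
    exact add_mem (h z hz) (h' z hz)
  | succ n ih =>
    intro m φ ψ h h'
    refine ⟨fun z hz => add_mem (h.1 z hz) (h'.1 z hz), fun t ht u hu => ?_⟩
    have := ih (h.2 t ht u hu) (h'.2 t ht u hu)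
    have e : del u (fun z => φ z + ψ z) = fun z => del u φ z + del u ψ z := by
      funext z; simp only [del]; abel
    rw [e]; exact this

theorem j4051_dels_cons (u : Bool × H) (U : List (Bool × H)) (φ : H × H → R) :
    dels (u :: U) φ = dels U (del (pur u.1 u.2) φ) := rfl

theorem j4051_dels_add (U : List (Bool × H)) : ∀ (φ ψ : H × H → R) (z : H × H),
    dels U (fun z => φ z + ψ z) z = dels U φ z + dels U ψ z := by
  induction U with
  | nil => intro φ ψ z; rfl
  | cons u U ih =>
    intro φ ψ z
    rw [j4051_dels_cons, j4051_dels_cons, j4051_dels_cons, ← ih]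
    have e : del (pur u.1 u.2) (fun z => φ z + ψ z) =
        fun z => del (pur u.1 u.2) φ z + del (pur u.1 u.2) ψ z := by
      funext z; simp only [del]; abel
    rw [e]

theorem j4051_dels_lmul (c : R) (U : List (Bool × H)) : ∀ (φ : H × H → R) (z : H × H),
    dels U (fun z => c * φ z) z = c * dels U φ z := by
  induction U with
  | nil => intro φ z; rfl
  | cons u U ih =>
    intro φ z
    rw [j4051_dels_cons, j4051_dels_cons, ← ih]
    have e : del (pur u.1 u.2) (fun z => c * φ z) =
        fun z => c * del (pur u.1 u.2) φ z := by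
      funext z; simp only [del]; rw [mul_sub]
    rw [e]

theorem j4051_dels_smul (c : ZMod p) (U : List (Bool × H)) : ∀ (φ : H × H → R) (z : H × H),
    dels U (fun z => c • φ z) z = c • dels U φ z := by
  induction U with
  | nil => intro φ z; rfl
  | cons u U ih =>
    intro φ z
    rw [j4051_dels_cons, j4051_dels_cons, ← ih]
    have e : del (pur u.1 u.2) (fun z => c • φ z) =
        fun z => c • del (pur u.1 u.2) φ z := by
      funext z; simp only [del]; rw [smul_sub]
    rw [e]

theorem j4051_dels_zero (U : List (Bool × H)) : ∀ (z : H × H),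
    dels U (fun _ => (0 : R)) z = 0 := by
  induction U with
  | nil => intro z; rfl
  | cons u U ih =>
    intro z
    rw [j4051_dels_cons]
    have e : del (pur u.1 u.2) (fun _ : H × H => (0 : R)) = fun _ => 0 := by
      funext z; simp only [del]; simp
    rw [e]; exact ih z

theorem j4051_dels_sum {α : Type} (U : List (Bool × H)) (S : Finset α) (f : α → H × H → R) (z : H × H) :
    dels U (fun z => ∑ a ∈ S, f a z) z = ∑ a ∈ S, dels U (f a) z := by
  classical
  induction S using Finset.induction_on with
  | empty => simp only [Finset.sum_empty]; exact j4051_dels_zero U z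
  | insert a S ha ih =>
    rw [Finset.sum_insert ha, ← ih, ← j4051_dels_add]
    congr 1
    funext z
    rw [Finset.sum_insert ha]

theorem j4051_pur_mem {t : ℕ} {b : Bool} {h : H} (hh : h ∈ Dg F t) : pur b h ∈ DD F t := by
  unfold pur DD
  split_ifs
  · exact Subgroup.mem_prod.2 ⟨hh, one_mem _⟩
  · exact Subgroup.mem_prod.2 ⟨one_mem _, hh⟩

/-- differences of functions in a weight class -/
theorem j4051_dels_wt {σ s : ℕ} (hσ : σ ≤ s) (U : List (Bool × H)) : ∀ (T : List ℕ)
    (hUT : List.Forall₂ (fun x t => x.2 ∈ Dg F t ∧ s ≤ t) U T) (φ : H × H → R) (m M : ℕ)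
    (hφ : ∀ n, Wt (JA J) (DD F) σ s n m φ) (hM : M + σ * U.length ≤ m + T.sum),
    ∀ n, Wt (JA J) (DD F) σ s n M (dels U φ) := by
  induction U with
  | nil =>
    intro T hUT φ m M hφ hM n
    cases hUT
    simp only [List.length_nil, mul_zero, add_zero, List.sum_nil] at hM
    exact j4051_mono F n hM (hφ n)
  | cons u U ih =>
    intro T hUT φ m M hφ hM n
    cases hUT with
    | cons h1 h2 =>
      rename_i t T'
      rw [j4051_dels_cons]
      refine ih T' h2 _ (m + t - σ) M ?_ ?_ n
      · intro k
        exact (hφ (k + 1)).2 t h1.2 _ (j4051_pur_mem F h1.1)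
      · simp only [List.length_cons, List.sum_cons, mul_add, mul_one] at hM
        have := h1.2
        omega

/-- coordinate function -/
theorem j4051_X (s k : ℕ) (b : Bool) :
    Wt (JA J) (DD F) s s k s (fun z : H × H => ι (if b then z.1 else z.2) - 1) := by
  have := wt_mons F s k [b]
  have e : (fun z : H × H => ι (if b then z.1 else z.2) - 1) = mon ι [b] := by
    funext z; simp [mon]
  rw [e]
  simpa using this

theorem j4051_erase {P : Bool × H → ℕ → Prop} (U : List (Bool × H)) : ∀ (T : List ℕ)
    (hUT : List.Forall₂ P U T) (i : Fin U.length),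
    ∃ (t : ℕ) (T' : List ℕ), P (U.get i) t ∧ List.Forall₂ P (U.eraseIdx i) T' ∧ t + T'.sum = T.sum := by
  induction U with
  | nil => intro T hUT i; exact i.elim0
  | cons u U ih =>
    intro T hUT i
    cases hUT with
    | cons h1 h2 =>
      rename_i t T'
      refine Fin.cases ?_ (fun j => ?_) i
      · exact ⟨t, T', h1, h2, by simp⟩
      · obtain ⟨t', T'', h3, h4, h5⟩ := ih T' h2 j
        refine ⟨t', t :: T'', ?_, ?_, ?_⟩
        · simpa using h3
        · simpa using List.Forall₂.cons h1 h4
        · simp only [List.sum_cons]; omega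

theorem j4051_del_ne {b c : Bool} (hbc : c ≠ b) (h : H) (ψ : H × H → R) :
    del (pur c h) (fun z : H × H => (ι (if b then z.1 else z.2) - 1) * ψ z) =
      fun z => (ι (if b then z.1 else z.2) - 1) * del (pur c h) ψ z := by
  funext z
  have e : (if b then (z * pur c h).1 else (z * pur c h).2) = (if b then z.1 else z.2) := by
    cases b <;> cases c <;> simp_all [pur]
  simp only [del]
  rw [e, mul_sub]

theorem j4051_del_eq (b : Bool) (h : H) (ψ : H × H → R) :
    del (pur b h) (fun z : H × H => (ι (if b then z.1 else z.2) - 1) * ψ z) =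
      fun z => ((ι (if b then z.1 else z.2) - 1) * del (pur b h) ψ z + (ι h - 1) * ψ z) +
        ((ι (if b then z.1 else z.2) - 1) * ((ι h - 1) * ψ z) +
         ((ι (if b then z.1 else z.2) - 1) + 1) * ((ι h - 1) * del (pur b h) ψ z)) := by
  funext z
  have e : (if b then (z * pur b h).1 else (z * pur b h).2) = (if b then z.1 else z.2) * h := by
    cases b <;> simp [pur]
  simp only [del]
  rw [e, map_mul]
  noncomm_ring

/-- correction sum -/
theorem j4051_sum_cons (ι : H →* R) (b : Bool) (u : Bool × H) (U : List (Bool × H)) (ψ : H × H → R) (z : H × H) :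
    (∑ i : Fin (u :: U).length, if ((u :: U).get i).1 = b then
      (ι ((u :: U).get i).2 - 1) * dels ((u :: U).eraseIdx i) ψ z else 0) =
    (if u.1 = b then (ι u.2 - 1) * dels U ψ z else 0) +
    ∑ i : Fin U.length, if (U.get i).1 = b then
      (ι (U.get i).2 - 1) * dels (U.eraseIdx i) (del (pur u.1 u.2) ψ) z else 0 := by
  exact Fin.sum_univ_succ (n := U.length) (fun i : Fin (U.length + 1) => if ((u :: U).get i).1 = b then
      (ι ((u :: U).get i).2 - 1) * dels ((u :: U).eraseIdx i) ψ z else 0)

theorem j4051_claim (s : ℕ) (b : Bool) (U : List (Bool × H)) : ∀ (T : List ℕ)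
    (hUT : List.Forall₂ (fun x t => x.2 ∈ Dg F t ∧ 2 * s ≤ t) U T) (ψ : H × H → R) (m M : ℕ)
    (hψ : ∀ n, Wt (JA J) (DD F) s s n m ψ) (hM : M + s * U.length ≤ m + 2 * s + T.sum),
    ∀ z ∈ DD F s, dels U (fun z => (ι (if b then z.1 else z.2) - 1) * ψ z) z -
      ((ι (if b then z.1 else z.2) - 1) * dels U ψ z +
        ∑ i : Fin U.length, if (U.get i).1 = b then (ι (U.get i).2 - 1) * dels (U.eraseIdx i) ψ z else 0) ∈ J M := by
  induction U with
  | nil =>
    intro T hUT ψ m M hψ hM z hz
    have e : dels ([] : List (Bool × H)) (fun z : H × H => (ι (if b then z.1 else z.2) - 1) * ψ z) z -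
      ((ι (if b then z.1 else z.2) - 1) * dels [] ψ z +
        ∑ i : Fin ([] : List (Bool × H)).length, if (([] : List (Bool × H)).get i).1 = b then
          (ι (([] : List (Bool × H)).get i).2 - 1) * dels (([] : List (Bool × H)).eraseIdx i) ψ z else 0) = 0 := by
      have : (∑ i : Fin ([] : List (Bool × H)).length, if (([] : List (Bool × H)).get i).1 = b then
          (ι (([] : List (Bool × H)).get i).2 - 1) * dels (([] : List (Bool × H)).eraseIdx i) ψ z else 0) = 0 :=
        Fin.sum_univ_zero _
      rw [this, add_zero]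
      exact sub_self _
    rw [e]; exact zero_mem _
  | cons u U ih =>
    intro T hUT ψ m M hψ hM z hz
    cases hUT with
    | cons h1 h2 =>
      rename_i t T'
      obtain ⟨c, h⟩ := u
      have hts := h1.2
      simp only at h1
      simp only [List.length_cons, List.sum_cons, mul_add, mul_one] at hM
      have hT' : List.Forall₂ (fun (x : Bool × H) t => x.2 ∈ Dg F t ∧ s ≤ t) U T' := by
        refine List.Forall₂.imp ?_ h2
        intro x t hx; exact ⟨hx.1, by have := hx.2; omega⟩
      have hD : ∀ n, Wt (JA J) (DD F) s s n (m + t - s) (del (pur c h) ψ) := fun k =>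
        (hψ (k + 1)).2 t (by omega) _ (j4051_pur_mem F h1.1)
      have key := ih T' h2 (del (pur c h) ψ) (m + t - s) M hD (by omega) z hz
      rw [j4051_sum_cons ι b (c, h) U ψ z, j4051_dels_cons, j4051_dels_cons]
      simp only
      by_cases hcb : c = b
      · subst hcb
        rw [j4051_del_eq, j4051_dels_add, j4051_dels_add, j4051_dels_add, j4051_dels_lmul]
        simp only [if_true]
        have hc : dels U (fun z : H × H => (ι (if c then z.1 else z.2) - 1) * ((ι h - 1) * ψ z)) z ∈ J M := by
          have := j4051_dels_wt F (le_refl s) U T' hT'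
            (fun z : H × H => (ι (if c then z.1 else z.2) - 1) * ((ι h - 1) * ψ z)) (s + (t + m)) M
            (fun n => wt_mul F (le_refl s) (j4051_X F s n c) (wt_mul F (le_refl s) (wt_const F h1.1) (hψ n)))
            (by omega) 0
          exact this z hz
        have hd : dels U (fun z : H × H => ((ι (if c then z.1 else z.2) - 1) + 1) *
            ((ι h - 1) * del (pur c h) ψ z)) z ∈ J M := by
          have := j4051_dels_wt F (le_refl s) U T' hT'
            (fun z : H × H => ((ι (if c then z.1 else z.2) - 1) + 1) * ((ι h - 1) * del (pur c h) ψ z))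
            (0 + (t + (m + t - s))) M
            (fun n => wt_mul F (le_refl s)
              (j4051_add F n (j4051_mono F n (Nat.zero_le s) (j4051_X F s n c))
                (wt_const F (by rw [F.top]; trivial)))
              (wt_mul F (le_refl s) (wt_const F h1.1) (hD n)))
            (by omega) 0
          exact this z hz
        have := add_mem key (add_mem hc hd)
        convert this using 1
        abel
      · rw [j4051_del_ne hcb]
        simp only [if_neg hcb, zero_add]
        exact key

theorem PP_len (U : List (Bool × H)) (w : List Bool) (h : U.length ≠ w.length) : PP ι U w = 0 := by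
  induction w generalizing U with
  | nil =>
    have : U ≠ [] := by rintro rfl; exact h rfl
    rw [PP, if_neg this]
  | cons b w ih =>
    rw [PP]
    refine Finset.sum_eq_zero fun i _ => ?_
    split_ifs
    · rw [ih, mul_zero]
      rw [List.length_eraseIdx, if_pos i.2]
      have := i.2
      simp only [List.length_cons] at h
      omega
    · rfl

/-- TARGET 1: more factors than differences -/
theorem LF_lt (s : ℕ) (hs : 1 ≤ s) (U : List (Bool × H)) (T : List ℕ)
    (hUT : List.Forall₂ (fun x t => x.2 ∈ Dg F t ∧ 2 * s ≤ t) U T) (w : List Bool) (hlen : U.length < w.length)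
    (z : H × H) (hz : z ∈ DD F s) : dels U (mon ι w) z ∈ J (T.sum + 1) := by
  have hT' : List.Forall₂ (fun (x : Bool × H) t => x.2 ∈ Dg F t ∧ s ≤ t) U T := by
    refine List.Forall₂.imp ?_ hUT
    intro x t hx; exact ⟨hx.1, by have := hx.2; omega⟩
  have hm : s * (U.length + 1) ≤ s * w.length := Nat.mul_le_mul_left s hlen
  rw [mul_add, mul_one] at hm
  exact j4051_dels_wt F (le_refl s) U T hT' (mon ι w) (s * w.length) (T.sum + 1)
    (fun n => wt_mons F s n w) (by omega) 0 z hz

/-- TARGET 2: leading form -/
theorem LF_eq (s : ℕ) (hs : 1 ≤ s) (U : List (Bool × H)) (T : List ℕ)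
    (hUT : List.Forall₂ (fun x t => x.2 ∈ Dg F t ∧ 2 * s ≤ t) U T) (w : List Bool) (hlen : U.length = w.length)
    (z : H × H) (hz : z ∈ DD F s) : dels U (mon ι w) z - PP ι U w ∈ J (T.sum + 1) := by
  induction w generalizing U T with
  | nil =>
    have hU : U = [] := List.length_eq_zero_iff.1 hlen
    subst hU
    rw [PP, if_pos rfl]
    have : dels [] (mon ι []) z = 1 := by simp [dels, mon]
    rw [this, sub_self]
    exact zero_mem _
  | cons b w ih =>
    have hT' : List.Forall₂ (fun (x : Bool × H) t => x.2 ∈ Dg F t ∧ s ≤ t) U T := by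
      refine List.Forall₂.imp ?_ hUT
      intro x t hx; exact ⟨hx.1, by have := hx.2; omega⟩
    have hmon : mon ι (b :: w) = fun z => (ι (if b then z.1 else z.2) - 1) * mon ι w z := by
      funext z; simp [mon]
    simp only [List.length_cons] at hlen
    have h1 := j4051_claim F s b U T hUT (mon ι w) (s * w.length) (T.sum + s)
      (fun n => wt_mons F s n w) (by rw [hlen, mul_add, mul_one]; omega) z hz
    rw [hmon]
    have h1' := J_le F (T.sum + 1) (T.sum + s) (by omega) h1
    -- the product with the coordinate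
    have h2 : dels U (mon ι w) z ∈ J T.sum := by
      have hT0 := hT'
      exact j4051_dels_wt F (Nat.zero_le s) U T hT0 (mon ι w) 0 T.sum
        (fun n => wt_mon0 F s n w) (by omega) 0 z hz
    have h3 : (ι (if b then z.1 else z.2) - 1) ∈ J s := j4051_X F s 0 b z hz
    have h4 : (ι (if b then z.1 else z.2) - 1) * dels U (mon ι w) z ∈ J (T.sum + 1) :=
      J_le F (T.sum + 1) (s + T.sum) (by omega) (F.mul _ _ _ _ h3 h2)
    have h5 : (∑ i : Fin U.length, if (U.get i).1 = b then
        (ι (U.get i).2 - 1) * dels (U.eraseIdx i) (mon ι w) z else 0) - PP ι U (b :: w) ∈ J (T.sum + 1) := by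
      rw [PP, ← Finset.sum_sub_distrib]
      refine Submodule.sum_mem _ fun i _ => ?_
      split_ifs with hb
      · rw [← mul_sub]
        obtain ⟨t, T', h6, h7, h8⟩ := j4051_erase U T hUT i
        have h9 := ih (U.eraseIdx i) T' h7 (by
          rw [List.length_eraseIdx, if_pos i.2]; omega)
        have h10 := F.mul _ _ _ _ h6.1 h9
        rw [← h8, add_assoc]
        exact h10
      · rw [sub_self]; exact zero_mem _
    have := add_mem (add_mem h1' h4) h5
    convert this using 1
    abel

/-- TARGET 3: leading form of a polynomial without terms of low degree -/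
theorem LF_ev (s : ℕ) (hs : 1 ≤ s) (U : List (Bool × H)) (T : List ℕ)
    (hUT : List.Forall₂ (fun x t => x.2 ∈ Dg F t ∧ 2 * s ≤ t) U T) (f : List Bool →₀ ZMod p)
    (hf : ∀ w ∈ f.support, U.length ≤ w.length) (z : H × H) (hz : z ∈ DD F s) :
    dels U (ev ι f) z - f.sum (fun w c => c • PP ι U w) ∈ J (T.sum + 1) := by
  have e : dels U (ev ι f) z = ∑ w ∈ f.support, f w • dels U (mon ι w) z := by
    have h1 : ev ι f = fun z => ∑ w ∈ f.support, f w • mon ι w z := rfl
    rw [h1, j4051_dels_sum]
    refine Finset.sum_congr rfl fun w _ => ?_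
    exact j4051_dels_smul (f w) U (mon ι w) z
  rw [e, Finsupp.sum, ← Finset.sum_sub_distrib]
  refine Submodule.sum_mem _ fun w hw => ?_
  rw [← smul_sub]
  refine Submodule.smul_mem _ _ ?_
  rcases Nat.lt_or_ge U.length w.length with hlt | hge
  · rw [PP_len U w (by omega), sub_zero]
    exact LF_lt F s hs U T hUT w hlt z hz
  · exact LF_eq F s hs U T hUT w (le_antisymm (hf w hw) hge) z hz

end FPA
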