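import Pool.Agent.Helper993.FP.A8
set_option autoImplicit false
set_option linter.all false

namespace FPA
open FPD FPW
variable {p : ℕ} [Fact p.Prime] {H R : Type} [Group H] [Finite H] [Ring R] [Algebra (ZMod p) R] {ι : H →* R}
  {J : ℕ → Submodule (ZMod p) R} (F : Flt ι J) {d : ℕ} (g : Fin d → H)


include F in
/-- TARGET: degeneracy gives exceptional sets outside of which Lyndon words are realised -/
theorem nest (Gm : ℕ → Subgroup H) (hD : ∀ t, Gm t ≤ Dg F t)
    (HB : ∀ l : List (Fin d), Lyn l → ∃ c ∈ Gm l.length, Lead ι J g (ι c - 1) l)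
    (T0 Tm C : ℕ) (hT0 : 1 ≤ T0) (hC : 1 ≤ C) (Rt κ : ℕ → ℕ) (bs : List Bool) (φ : H × H → R) (z : H × H) (α τ c : ℕ)
    (h : Deg p (JA J) (GP Gm) T0 Tm C Rt κ bs.length φ z α τ c) :
    ∃ E : ℕ → Finset (List (Fin d)), (∀ t, (E t).card ≤ Bd d C Rt κ bs.length t c) ∧
      ∀ l : ℕ → List (Fin d),
        (∀ i, i < bs.length → Lyn (l i) ∧ T0 ≤ (l i).length ∧ (l i).length ≤ Tm ∧ l i ∉ E (l i).length) →
        (∀ i, i < bs.length → τ ≤ (l i).length) →
        (∀ i, i + 1 < bs.length → C * (l i).length ≤ (l (i + 1)).length) →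
        ∃ U : List (Bool × H), U.map Prod.fst = bs ∧
          (∀ i (hi : i < U.length), (U.get ⟨i, hi⟩).2 ∈ Gm (l i).length ∧
            Lead ι J g (ι (U.get ⟨i, hi⟩).2 - 1) (l i)) ∧
          dels U φ z ∈ J (α + ∑ i ∈ Finset.range bs.length, (l i).length) := by
  classical
  -- words of a given length
  have hwords : ∀ t : ℕ, ∃ W : Finset (List (Fin d)), (∀ l, l ∈ W ↔ l.length = t) ∧ W.card ≤ d ^ t := by
    intro t
    refine ⟨(Finset.univ : Finset (Fin t → Fin d)).image List.ofFn, ?_, ?_⟩
    · intro l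
      constructor
      · intro hl
        obtain ⟨v, _, rfl⟩ := Finset.mem_image.1 hl
        simp
      · intro hl
        subst hl
        exact Finset.mem_image.2 ⟨l.get, Finset.mem_univ _, List.ofFn_get l⟩
    · refine Finset.card_image_le.trans ?_
      simp
  choose W hW hWc using hwords
  induction bs generalizing φ z α τ c with
  | nil =>
    refine ⟨fun _ => ∅, ?_, ?_⟩
    · intro t; simp
    · intro l _ _ _
      refine ⟨[], rfl, ?_, ?_⟩
      · intro i hi
        exact absurd hi (Nat.not_lt_zero i)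
      · have h' : φ z ∈ JA J α := h
        simpa [dels, JA] using h'
  | cons b bs ih =>
    have h' : ∀ t, τ ≤ t → T0 ≤ t → t ≤ Tm →
      ∃ K : Subgroup (H × H), K ≤ GP Gm t ∧ K.relIndex (GP Gm t) ≤ p ^ (c * Rt t) ∧
        ∀ u ∈ K, Deg p (JA J) (GP Gm) T0 Tm C Rt κ bs.length (del u φ) z (α + t) (C * t) (c * κ t) := h
    choose K hK1 hK2 hK3 using h'
    -- first exceptional set
    have hE1 : ∀ t, ∃ E1 : Finset (List (Fin d)), E1.card ≤ c * Rt t ∧
        ∀ (h1 : τ ≤ t) (h2 : T0 ≤ t) (h3 : t ≤ Tm) (l : List (Fin d)), l.length = t → Lyn l → l ∉ E1 →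
          ∃ h, pur b h ∈ K t h1 h2 h3 ∧ Lead ι J g (ι h - 1) l := by
      intro t
      by_cases hh : τ ≤ t ∧ T0 ≤ t ∧ t ≤ Tm
      · obtain ⟨h1, h2, h3⟩ := hh
        refine ⟨(W t).filter (fun l => Lyn l ∧ ¬ ∃ h, pur b h ∈ K t h1 h2 h3 ∧ Lead ι J g (ι h - 1) l), ?_, ?_⟩
        · refine exc F g Gm hD t (hT0.trans h2) (K t h1 h2 h3) (hK1 t h1 h2 h3) (c * Rt t)
            (hK2 t h1 h2 h3) b _ ?_ ?_
          · intro l hl
            rw [Finset.mem_filter, hW] at hl
            obtain ⟨hl1, hl2, _⟩ := hl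
            subst hl1
            exact ⟨rfl, HB l hl2⟩
          · intro l hl
            rw [Finset.mem_filter] at hl
            exact hl.2.2
        · intro _ _ _ l hl1 hl2 hl3
          by_contra hne
          exact hl3 (Finset.mem_filter.2 ⟨(hW t l).2 hl1, hl2, hne⟩)
      · refine ⟨∅, by simp, ?_⟩
        intro h1 h2 h3
        exact absurd ⟨h1, h2, h3⟩ hh
    choose E1 hE1c hE1p using hE1
    -- choices for every word
    have hv : ∀ v : List (Fin d), ∃ (hv : H) (Ev : ℕ → Finset (List (Fin d))),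
        (∀ t, (Ev t).card ≤ Bd d C Rt κ bs.length t (c * κ v.length)) ∧
        (τ ≤ v.length → T0 ≤ v.length → v.length ≤ Tm → Lyn v → v ∉ E1 v.length →
          hv ∈ Gm v.length ∧ Lead ι J g (ι hv - 1) v ∧
          ∀ l : ℕ → List (Fin d),
            (∀ i, i < bs.length → Lyn (l i) ∧ T0 ≤ (l i).length ∧ (l i).length ≤ Tm ∧ l i ∉ Ev (l i).length) →
            (∀ i, i < bs.length → C * v.length ≤ (l i).length) →
            (∀ i, i + 1 < bs.length → C * (l i).length ≤ (l (i + 1)).length) →
            ∃ U : List (Bool × H), U.map Prod.fst = bs ∧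
              (∀ i (hi : i < U.length), (U.get ⟨i, hi⟩).2 ∈ Gm (l i).length ∧
                Lead ι J g (ι (U.get ⟨i, hi⟩).2 - 1) (l i)) ∧
              dels U (del (pur b hv) φ) z ∈ J (α + v.length + ∑ i ∈ Finset.range bs.length, (l i).length)) := by
      intro v
      by_cases hh : τ ≤ v.length ∧ T0 ≤ v.length ∧ v.length ≤ Tm ∧ Lyn v ∧ v ∉ E1 v.length
      · obtain ⟨h1, h2, h3, h4, h5⟩ := hh
        obtain ⟨hv, hvK, hvL⟩ := hE1p v.length h1 h2 h3 v rfl h4 h5
        obtain ⟨Ev, hEv1, hEv2⟩ := ih (del (pur b hv) φ) z (α + v.length) (C * v.length) (c * κ v.length)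
          (hK3 v.length h1 h2 h3 _ hvK)
        refine ⟨hv, Ev, hEv1, fun _ _ _ _ _ => ⟨?_, hvL, hEv2⟩⟩
        have h6 := hK1 v.length h1 h2 h3 hvK
        have h7 : pur b hv ∈ (Gm v.length).prod (Gm v.length) := h6
        rw [Subgroup.mem_prod] at h7
        cases b
        · exact h7.2
        · exact h7.1
      · refine ⟨1, fun _ => ∅, fun t => by simp, ?_⟩
        intro h1 h2 h3 h4 h5
        exact absurd ⟨h1, h2, h3, h4, h5⟩ hh
    choose hv Ev hEvc hEvp using hv
    refine ⟨fun t => E1 t ∪ (Finset.range (t / C + 1)).biUnion (fun t1 => (W t1).biUnion (fun v => Ev v t)),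
      ?_, ?_⟩
    · intro t
      show (E1 t ∪ (Finset.range (t / C + 1)).biUnion (fun t1 => (W t1).biUnion (fun v => Ev v t))).card
        ≤ c * Rt t + ∑ t1 ∈ Finset.range (t / C + 1), d ^ t1 * Bd d C Rt κ bs.length t (c * κ t1)
      refine (Finset.card_union_le _ _).trans (Nat.add_le_add (hE1c t) ?_)
      refine Finset.card_biUnion_le.trans (Finset.sum_le_sum ?_)
      intro t1 _
      refine Finset.card_biUnion_le.trans ?_
      calc ∑ v ∈ W t1, (Ev v t).card ≤ ∑ v ∈ W t1, Bd d C Rt κ bs.length t (c * κ t1) := by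
            refine Finset.sum_le_sum ?_
            intro v hv'
            have := hEvc v t
            rwa [(hW t1 v).1 hv'] at this
        _ = (W t1).card * Bd d C Rt κ bs.length t (c * κ t1) := by
            rw [Finset.sum_const, smul_eq_mul]
        _ ≤ d ^ t1 * Bd d C Rt κ bs.length t (c * κ t1) := Nat.mul_le_mul_right _ (hWc t1)
    · intro l hl1 hl2 hl3
      simp only [List.length_cons] at hl1 hl2 hl3
      have h0 := hl1 0 (Nat.succ_pos _)
      have hτ := hl2 0 (Nat.succ_pos _)
      have h0E : l 0 ∉ E1 (l 0).length := fun hh => h0.2.2.2 (Finset.mem_union_left _ hh)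
      have hchain : ∀ i, i < bs.length → C * (l 0).length ≤ (l (i + 1)).length := by
        intro i
        induction i with
        | zero =>
          intro hi
          exact hl3 0 (by omega)
        | succ i ihi =>
          intro hi
          have h1 := ihi (by omega)
          have h2 := hl3 (i + 1) (by omega)
          have h3 : (l (i + 1)).length ≤ C * (l (i + 1)).length := Nat.le_mul_of_pos_left _ hC
          omega
      obtain ⟨hG, hL, hU⟩ := hEvp (l 0) hτ h0.2.1 h0.2.2.1 h0.1 h0E
      obtain ⟨U, hU1, hU2, hU3⟩ := hU (fun i => l (i + 1))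
        (by
          intro i hi
          have hi' := hl1 (i + 1) (by omega)
          refine ⟨hi'.1, hi'.2.1, hi'.2.2.1, ?_⟩
          intro hmem
          refine hi'.2.2.2 (Finset.mem_union_right _ ?_)
          rw [Finset.mem_biUnion]
          refine ⟨(l 0).length, ?_, ?_⟩
          · rw [Finset.mem_range, Nat.lt_succ_iff, Nat.le_div_iff_mul_le (by omega)]
            have := hchain i hi
            rwa [mul_comm] at this
          · rw [Finset.mem_biUnion]
            exact ⟨l 0, (hW _ _).2 rfl, hmem⟩)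
        hchain
        (by
          intro i hi
          exact hl3 (i + 1) (by omega))
      refine ⟨(b, hv (l 0)) :: U, ?_, ?_, ?_⟩
      · simp [hU1]
      · intro i hi
        cases i with
        | zero => exact ⟨hG, hL⟩
        | succ i =>
          exact hU2 i (by simpa using hi)
      · have h1 : dels ((b, hv (l 0)) :: U) φ z = dels U (del (pur b (hv (l 0))) φ) z := rfl
        rw [h1]
        have h2 : α + ∑ i ∈ Finset.range (b :: bs).length, (l i).length
            = α + (l 0).length + ∑ i ∈ Finset.range bs.length, (l (i + 1)).length := by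
          rw [List.length_cons, Finset.sum_range_succ']
          ring
        rw [h2]
        exact hU3


end FPA
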