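import Pool.Agent.Helper993.FP.D1
set_option autoImplicit false
set_option linter.all false

namespace FPD

/-- double counting: if every translate `u⁻¹B ∩ K` with `u ∈ B` has at most `card K / N` elements, `B ⊆ A` has at most `card A / N` -/
theorem coset_count {Γ : Type} [Group Γ] [Finite Γ] (A K : Subgroup Γ) (hKA : K ≤ A) (B : Set Γ) (hB : B ⊆ A) (N : ℕ)
    (h : ∀ u ∈ B, N * Nat.card {v : Γ // v ∈ K ∧ u * v ∈ B} ≤ Nat.card K) :
    N * Nat.card B ≤ Nat.card A := by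
  classical
  haveI := Fintype.ofFinite Γ
  have cA : Nat.card A = (Finset.univ.filter (fun a : Γ => a ∈ A)).card := by
    rw [Nat.card_eq_fintype_card]
    exact Fintype.card_subtype _
  have cK : Nat.card K = (Finset.univ.filter (fun a : Γ => a ∈ K)).card := by
    rw [Nat.card_eq_fintype_card]
    exact Fintype.card_subtype _
  have cB : Nat.card B = (Finset.univ.filter (fun a : Γ => a ∈ B)).card := by
    rw [Nat.card_eq_fintype_card]
    exact Fintype.card_subtype _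
  have cV : ∀ u : Γ, Nat.card {v : Γ // v ∈ K ∧ u * v ∈ B}
      = (Finset.univ.filter (fun v : Γ => v ∈ K ∧ u * v ∈ B)).card := by
    intro u
    rw [Nat.card_eq_fintype_card]
    exact Fintype.card_subtype _
  -- fibre counts
  have h1 : ∀ a : Γ, N * (Finset.univ.filter (fun v : Γ => v ∈ K ∧ a * v ∈ B)).card
      ≤ (Finset.univ.filter (fun a : Γ => a ∈ K)).card := by
    intro a
    by_cases hex : ∃ v0 ∈ K, a * v0 ∈ B
    · obtain ⟨v0, hv0, hav0⟩ := hex
      have h2 := h (a * v0) hav0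
      rw [cV, cK] at h2
      refine le_trans (Nat.mul_le_mul_left N (le_of_eq ?_)) h2
      refine Finset.card_bij' (fun v _ => v0⁻¹ * v) (fun v _ => v0 * v) ?_ ?_ ?_ ?_
      · intro v hv
        simp only [Finset.mem_filter, Finset.mem_univ, true_and] at hv ⊢
        refine ⟨K.mul_mem (K.inv_mem hv0) hv.1, ?_⟩
        have : a * v0 * (v0⁻¹ * v) = a * v := by group
        rw [this]
        exact hv.2
      · intro v hv
        simp only [Finset.mem_filter, Finset.mem_univ, true_and] at hv ⊢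
        refine ⟨K.mul_mem hv0 hv.1, ?_⟩
        rw [← mul_assoc]
        exact hv.2
      · intro v _
        simp only [mul_inv_cancel_left]
      · intro v _
        simp only [inv_mul_cancel_left]
    · have : (Finset.univ.filter (fun v : Γ => v ∈ K ∧ a * v ∈ B)) = ∅ := by
        apply Finset.filter_eq_empty_iff.2
        intro v _ hv
        exact hex ⟨v, hv.1, hv.2⟩
      rw [this, Finset.card_empty, mul_zero]
      exact Nat.zero_le _
  have h2 : ∀ v ∈ Finset.univ.filter (fun a : Γ => a ∈ K),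
      (Finset.univ.filter (fun a : Γ => a ∈ A ∧ a * v ∈ B)).card
        = (Finset.univ.filter (fun a : Γ => a ∈ B)).card := by
    intro v hv
    have hvK : v ∈ K := (Finset.mem_filter.1 hv).2
    refine Finset.card_bij' (fun a _ => a * v) (fun b _ => b * v⁻¹) ?_ ?_ ?_ ?_
    · intro a ha
      simp only [Finset.mem_filter, Finset.mem_univ, true_and] at ha ⊢
      exact ha.2
    · intro b hb
      simp only [Finset.mem_filter, Finset.mem_univ, true_and] at hb ⊢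
      refine ⟨A.mul_mem (hB hb) (A.inv_mem (hKA hvK)), ?_⟩
      rw [inv_mul_cancel_right]
      exact hb
    · intro a _
      simp only [mul_inv_cancel_right]
    · intro a _
      simp only [inv_mul_cancel_right]
  have h3 : ∑ a ∈ Finset.univ.filter (fun a : Γ => a ∈ A),
        (Finset.univ.filter (fun v : Γ => v ∈ K ∧ a * v ∈ B)).card
      = ∑ v ∈ Finset.univ.filter (fun a : Γ => a ∈ K),
        (Finset.univ.filter (fun a : Γ => a ∈ A ∧ a * v ∈ B)).card := by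
    simp only [Finset.card_eq_sum_ones, Finset.sum_filter]
    have e1 : ∀ a : Γ, (if a ∈ A then ∑ v : Γ, (if v ∈ K ∧ a * v ∈ B then 1 else 0) else 0)
        = ∑ v : Γ, (if a ∈ A ∧ v ∈ K ∧ a * v ∈ B then 1 else 0) := by
      intro a
      by_cases ha : a ∈ A
      · simp [ha]
      · simp [ha]
    have e2 : ∀ v : Γ, (if v ∈ K then ∑ a : Γ, (if a ∈ A ∧ a * v ∈ B then 1 else 0) else 0)
        = ∑ a : Γ, (if a ∈ A ∧ v ∈ K ∧ a * v ∈ B then 1 else 0) := by
      intro v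
      by_cases hv : v ∈ K
      · simp [hv]
      · simp [hv]
    rw [Finset.sum_congr rfl (fun a _ => e1 a), Finset.sum_congr rfl (fun v _ => e2 v),
      Finset.sum_comm]
  rw [Finset.sum_congr rfl h2, Finset.sum_const, smul_eq_mul] at h3
  have h4 : N * ∑ a ∈ Finset.univ.filter (fun a : Γ => a ∈ A),
        (Finset.univ.filter (fun v : Γ => v ∈ K ∧ a * v ∈ B)).card
      ≤ (Finset.univ.filter (fun a : Γ => a ∈ A)).card
        * (Finset.univ.filter (fun a : Γ => a ∈ K)).card := by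
    rw [Finset.mul_sum]
    refine (Finset.sum_le_sum fun a _ => h1 a).trans ?_
    rw [Finset.sum_const, smul_eq_mul]
  rw [h3] at h4
  rw [cA, cB]
  have hKpos : 0 < (Finset.univ.filter (fun a : Γ => a ∈ K)).card :=
    Finset.card_pos.2 ⟨1, by simp [K.one_mem]⟩
  refine Nat.le_of_mul_le_mul_right ?_ hKpos
  calc _ = N * ((Finset.univ.filter (fun a : Γ => a ∈ K)).card
        * (Finset.univ.filter (fun a : Γ => a ∈ B)).card) := by ring
    _ ≤ _ := h4

theorem geo_sum (m : ℕ) : ∑ t ∈ Finset.Icc 1 m, (1 / 2 : ℝ) ^ t = 1 - (1 / 2) ^ m := by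
  induction m with
  | zero => simp
  | succ m ih =>
    rw [Finset.sum_Icc_succ_top (by omega), ih]
    ring

variable {Γ R : Type} [Group Γ] [Finite Γ] [AddCommGroup R]
variable {J : ℕ → AddSubgroup R} {DD GG : ℕ → Subgroup Γ}
variable (p : ℕ) (hp : 2 ≤ p) (T0 Tm C : ℕ) (Rt κ : ℕ → ℕ)

include hp in
/-- TARGET: a random point is good for all functions of the family -/
theorem good_point (S : Sys J DD GG) (s : ℕ) (hs : s ≤ T0) (j : ℕ) (Φ : Set (Γ → R)) (z0 : Γ) (hz0 : z0 ∈ DD s)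
    (qn : ℕ → ℕ) (hR : ∀ t, T0 ≤ t → t ≤ Tm → qn t + 2 * t + j ≤ Rt t) (hT0 : 1 ≤ T0)
    (fin : ∀ t, T0 ≤ t → t ≤ Tm → ∃ G : Finset (Γ → R), (∀ g ∈ G, g ∈ Φ) ∧ G.card ≤ p ^ (qn t) ∧
      ∀ φ ∈ Φ, ∃ g ∈ G, ∀ n, n < j → ∀ z ∈ DD s, ∀ α, α ≤ 2 * t → ∀ τ,
        Deg p J GG T0 Tm C Rt κ n (φ - g) z α τ 0) :
    ∃ u ∈ GG T0, ∀ φ ∈ Φ, ∀ n, n < j → ∀ t, T0 ≤ t → t ≤ Tm → ∀ ρ, 1 ≤ ρ → ρ ≤ t →
      Deg p J GG T0 Tm C Rt κ n φ (z0 * u) (t + ρ) (C * t) 1 →
      Nat.card (GG t) ≤ p ^ (Rt t) *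
        Nat.card {v : Γ // v ∈ GG t ∧ Deg p J GG T0 Tm C Rt κ n φ ((z0 * u) * v) (t + ρ) (C * t) 1} := by
  classical
  choose! G hG1 hG2 hG3 using fin
  set Bad : ℕ → ℕ → ℕ → (Γ → R) → Set Γ := fun n t ρ g =>
    {u | u ∈ GG T0 ∧ Deg p J GG T0 Tm C Rt κ n g (z0 * u) (t + ρ) (C * t) 1 ∧
      p ^ (Rt t) * Nat.card {v : Γ // v ∈ GG t ∧
        Deg p J GG T0 Tm C Rt κ n g ((z0 * u) * v) (t + ρ) (C * t) 1} < Nat.card (GG t)} with hBad
  have hb : ∀ n t ρ g, T0 ≤ t → p ^ (Rt t) * Nat.card (Bad n t ρ g) ≤ Nat.card (GG T0) := by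
    intro n t ρ g ht
    refine coset_count (GG T0) (GG t) (S.GGle T0 t ht) (Bad n t ρ g) (fun u hu => hu.1) (p ^ (Rt t)) ?_
    intro u hu
    refine le_trans (Nat.mul_le_mul_left _ ?_) hu.2.2.le
    refine Nat.card_le_card_of_injective (fun v : {v : Γ // v ∈ GG t ∧ u * v ∈ Bad n t ρ g} =>
      (⟨v.1, v.2.1, by
        have := v.2.2.2.1
        rw [← mul_assoc] at this
        exact this⟩ : {v : Γ // v ∈ GG t ∧
        Deg p J GG T0 Tm C Rt κ n g ((z0 * u) * v) (t + ρ) (C * t) 1})) ?_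
    intro a b hab
    exact Subtype.ext (congrArg (fun x => x.1) hab)
  haveI : Fintype Γ := Fintype.ofFinite Γ
  have cB : ∀ n t ρ g, Nat.card (Bad n t ρ g)
      = (Finset.univ.filter (fun a : Γ => a ∈ Bad n t ρ g)).card := by
    intro n t ρ g
    rw [Nat.card_eq_fintype_card]
    exact Fintype.card_subtype _
  have cA : Nat.card (GG T0) = (Finset.univ.filter (fun a : Γ => a ∈ GG T0)).card := by
    rw [Nat.card_eq_fintype_card]
    exact Fintype.card_subtype _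
  have hMpos : (0 : ℝ) < (Nat.card (GG T0) : ℝ) := by
    rw [cA]
    exact_mod_cast Finset.card_pos.2 ⟨1, by simp [(GG T0).one_mem]⟩
  have hp0 : (0 : ℝ) < p := by
    have : 0 < p := by omega
    exact_mod_cast this
  have hp2 : (2 : ℝ) ≤ p := by exact_mod_cast hp
  have hbR : ∀ n t ρ g, T0 ≤ t → t ≤ Tm → (Nat.card (Bad n t ρ g) : ℝ)
      ≤ (Nat.card (GG T0) : ℝ) / (p : ℝ) ^ (qn t + 2 * t + j) := by
    intro n t ρ g h1 h2
    rw [le_div_iff₀ (by positivity)]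
    have h3 := hb n t ρ g h1
    have h4 : (p : ℝ) ^ (qn t + 2 * t + j) ≤ (p : ℝ) ^ (Rt t) :=
      pow_le_pow_right₀ (by linarith) (hR t h1 h2)
    have h5 : ((p : ℝ) ^ (Rt t)) * (Nat.card (Bad n t ρ g) : ℝ) ≤ (Nat.card (GG T0) : ℝ) := by
      exact_mod_cast h3
    have h6 : (0 : ℝ) ≤ (Nat.card (Bad n t ρ g) : ℝ) := Nat.cast_nonneg _
    calc (Nat.card (Bad n t ρ g) : ℝ) * (p : ℝ) ^ (qn t + 2 * t + j)
        ≤ (Nat.card (Bad n t ρ g) : ℝ) * (p : ℝ) ^ (Rt t) := mul_le_mul_of_nonneg_left h4 h6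
      _ = ((p : ℝ) ^ (Rt t)) * (Nat.card (Bad n t ρ g) : ℝ) := mul_comm _ _
      _ ≤ _ := h5
  -- existence of a good point
  have hex : ∃ u ∈ GG T0, ∀ t, T0 ≤ t → t ≤ Tm → ∀ n, n < j → ∀ ρ, 1 ≤ ρ → ρ ≤ t → ∀ g ∈ G t,
      u ∉ Bad n t ρ g := by
    by_contra hcon
    push Not at hcon
    have hsub : (Finset.univ.filter (fun a : Γ => a ∈ GG T0)) ⊆
        (Finset.Icc T0 Tm).biUnion (fun t => (Finset.range j).biUnion (fun n =>
          (Finset.Icc 1 t).biUnion (fun ρ => (G t).biUnion (fun g =>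
            Finset.univ.filter (fun a : Γ => a ∈ Bad n t ρ g))))) := by
      intro u hu
      have hu' : u ∈ GG T0 := (Finset.mem_filter.1 hu).2
      obtain ⟨t, h1, h2, n, hn, ρ, h3, h4, g, hg, hug⟩ := hcon u hu'
      simp only [Finset.mem_biUnion, Finset.mem_Icc, Finset.mem_range, Finset.mem_filter,
        Finset.mem_univ, true_and]
      exact ⟨t, ⟨h1, h2⟩, n, hn, ρ, ⟨h3, h4⟩, g, hg, hug⟩
    have hcard := Finset.card_le_card hsub
    rw [← cA] at hcard
    have hcard2 : Nat.card (GG T0) ≤ ∑ t ∈ Finset.Icc T0 Tm, ∑ n ∈ Finset.range j,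
        ∑ ρ ∈ Finset.Icc 1 t, ∑ g ∈ G t, Nat.card (Bad n t ρ g) := by
      refine hcard.trans (Finset.card_biUnion_le.trans (Finset.sum_le_sum fun t _ =>
        Finset.card_biUnion_le.trans (Finset.sum_le_sum fun n _ =>
          Finset.card_biUnion_le.trans (Finset.sum_le_sum fun ρ _ =>
            Finset.card_biUnion_le.trans (Finset.sum_le_sum fun g _ => le_of_eq (cB n t ρ g).symm)))))
    have hcard3 : (Nat.card (GG T0) : ℝ) ≤ ∑ t ∈ Finset.Icc T0 Tm, ∑ n ∈ Finset.range j,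
        ∑ ρ ∈ Finset.Icc 1 t, ∑ g ∈ G t, (Nat.card (Bad n t ρ g) : ℝ) := by
      exact_mod_cast hcard2
    have hterm : ∀ t ∈ Finset.Icc T0 Tm, (∑ n ∈ Finset.range j,
        ∑ ρ ∈ Finset.Icc 1 t, ∑ g ∈ G t, (Nat.card (Bad n t ρ g) : ℝ))
        ≤ (Nat.card (GG T0) : ℝ) * (1 / 2) ^ t := by
      intro t ht
      rw [Finset.mem_Icc] at ht
      have e1 : (∑ n ∈ Finset.range j, ∑ ρ ∈ Finset.Icc 1 t, ∑ g ∈ G t,
          (Nat.card (Bad n t ρ g) : ℝ))
          ≤ ∑ n ∈ Finset.range j, ∑ ρ ∈ Finset.Icc 1 t, ∑ g ∈ G t,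
            (Nat.card (GG T0) : ℝ) / (p : ℝ) ^ (qn t + 2 * t + j) :=
        Finset.sum_le_sum fun n _ => Finset.sum_le_sum fun ρ _ => Finset.sum_le_sum fun g _ =>
          hbR n t ρ g ht.1 ht.2
      refine e1.trans ?_
      rw [Finset.sum_const, Finset.sum_const, Finset.sum_const, Finset.card_range, Nat.card_Icc,
        nsmul_eq_mul, nsmul_eq_mul, nsmul_eq_mul]
      have e2 : ((G t).card : ℝ) ≤ (p : ℝ) ^ (qn t) := by exact_mod_cast hG2 t ht.1 ht.2
      have e3 : (j : ℝ) ≤ (p : ℝ) ^ j := by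
        have : j < p ^ j := Nat.lt_pow_self (by omega)
        exact_mod_cast this.le
      have e4 : (t : ℝ) ≤ (p : ℝ) ^ t := by
        have : t < p ^ t := Nat.lt_pow_self (by omega)
        exact_mod_cast this.le
      have e5 : (((t + 1 - 1 : ℕ)) : ℝ) = (t : ℝ) := by
        rw [Nat.add_sub_cancel]
      rw [e5]
      have e6 : (j : ℝ) * ((t : ℝ) * (((G t).card : ℝ) * ((Nat.card (GG T0) : ℝ) /
          (p : ℝ) ^ (qn t + 2 * t + j))))
          ≤ (p : ℝ) ^ j * ((p : ℝ) ^ t * ((p : ℝ) ^ (qn t) * ((Nat.card (GG T0) : ℝ) /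
          (p : ℝ) ^ (qn t + 2 * t + j)))) := by
        gcongr
      refine e6.trans ?_
      have e7 : (p : ℝ) ^ j * ((p : ℝ) ^ t * ((p : ℝ) ^ (qn t) * ((Nat.card (GG T0) : ℝ) /
          (p : ℝ) ^ (qn t + 2 * t + j)))) = (Nat.card (GG T0) : ℝ) * (1 / (p : ℝ)) ^ t := by
        have hpp : (p : ℝ) ≠ 0 := ne_of_gt hp0
        rw [show qn t + 2 * t + j = qn t + t + t + j by ring, pow_add, pow_add, pow_add, one_div,
          inv_pow]
        field_simp
      rw [e7]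
      refine mul_le_mul_of_nonneg_left ?_ hMpos.le
      refine pow_le_pow_left₀ (by positivity) ?_ t
      exact one_div_le_one_div_of_le (by norm_num) hp2
    have htot := hcard3.trans (Finset.sum_le_sum hterm)
    rw [← Finset.mul_sum] at htot
    have hgs : ∑ t ∈ Finset.Icc T0 Tm, (1 / 2 : ℝ) ^ t < 1 := by
      have h1 : ∑ t ∈ Finset.Icc T0 Tm, (1 / 2 : ℝ) ^ t ≤ ∑ t ∈ Finset.Icc 1 Tm, (1 / 2 : ℝ) ^ t := by
        refine Finset.sum_le_sum_of_subset_of_nonneg (Finset.Icc_subset_Icc_left hT0) ?_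
        intro i _ _
        positivity
      rw [geo_sum] at h1
      have h2 : (0 : ℝ) < (1 / 2) ^ Tm := by positivity
      linarith
    have h3 := mul_lt_mul_of_pos_left hgs hMpos
    linarith
  obtain ⟨u, hu, hgood⟩ := hex
  refine ⟨u, hu, ?_⟩
  intro φ hφ n hn t ht1 ht2 ρ hρ1 hρ2 hdeg
  obtain ⟨g, hg, hgd⟩ := hG3 t ht1 ht2 φ hφ
  have huD : z0 * u ∈ DD s := (DD s).mul_mem hz0 (S.DDle s T0 hs (S.GGD T0 hu))
  have hdg : Deg p J GG T0 Tm C Rt κ n g (z0 * u) (t + ρ) (C * t) 1 := by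
    have h1 := deg_sub p hp T0 Tm C Rt κ S hdeg (hgd n hn (z0 * u) huD (t + ρ) (by omega) (C * t))
    rw [sub_sub_cancel] at h1
    exact h1
  have hnb := hgood t ht1 ht2 n hn ρ hρ1 hρ2 g hg
  have h2 : Nat.card (GG t) ≤ p ^ (Rt t) * Nat.card {v : Γ // v ∈ GG t ∧
        Deg p J GG T0 Tm C Rt κ n g ((z0 * u) * v) (t + ρ) (C * t) 1} := by
    by_contra h3
    exact hnb ⟨hu, hdg, not_le.1 h3⟩
  refine h2.trans (Nat.mul_le_mul_left _ ?_)
  refine Nat.card_le_card_of_injective (fun v : {v : Γ // v ∈ GG t ∧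
        Deg p J GG T0 Tm C Rt κ n g ((z0 * u) * v) (t + ρ) (C * t) 1} =>
      (⟨v.1, v.2.1, ?_⟩ : {v : Γ // v ∈ GG t ∧
        Deg p J GG T0 Tm C Rt κ n φ ((z0 * u) * v) (t + ρ) (C * t) 1})) ?_
  · have hvD : z0 * u * v.1 ∈ DD s :=
      (DD s).mul_mem huD (S.DDle s t (hs.trans ht1) (S.GGD t v.2.1))
    have h1 := deg_add p hp T0 Tm C Rt κ S v.2.2
      (hgd n hn (z0 * u * v.1) hvD (t + ρ) (by omega) (C * t))
    rw [add_sub_cancel] at h1
    exact h1
  · intro a b hab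
    exact Subtype.ext (congrArg (fun x => x.1) hab)

end FPD
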