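import Pool.Agent.Helper993.FP.D2
import Pool.Agent.Helper993.FP.D3
set_option autoImplicit false
set_option linter.all false

namespace FPD
variable {Γ R : Type} [Group Γ] [Finite Γ] [AddCommGroup R]
variable {J : ℕ → AddSubgroup R} {DD GG : ℕ → Subgroup Γ}
variable (p : ℕ) (hp : 2 ≤ p) (T0 Tm C : ℕ) (Rt κ : ℕ → ℕ)

include hp in
/-- TARGET: the good element theorem -/
theorem good_elt (S : Sys J DD GG) (s : ℕ) (hs : s ≤ T0) (hC : 2 ≤ C) (j : ℕ) (Φ : Set (Γ → R))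
    (hΦ : ∀ φ ∈ Φ, ∀ k, Wt J DD 0 s k 0 φ) (z0 : Γ) (hz0 : z0 ∈ DD s)
    (qn δ : ℕ → ℕ) (hR : ∀ t, T0 ≤ t → t ≤ Tm → qn t + 2 * t + j ≤ Rt t) (hT0 : 1 ≤ T0)
    (fin : ∀ t, T0 ≤ t → t ≤ Tm → ∃ G : Finset (Γ → R), (∀ g ∈ G, g ∈ Φ) ∧ G.card ≤ p ^ (qn t) ∧
      ∀ φ ∈ Φ, ∃ g ∈ G, ∀ n, n < j → ∀ z ∈ DD s, ∀ α, α ≤ 2 * t → ∀ τ,
        Deg p J GG T0 Tm C Rt κ n (φ - g) z α τ 0)
    (hκ : ∀ t, T0 ≤ t → t ≤ Tm → 2 * δ t ≤ κ t)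
    (EA : ∀ t ρ, T0 ≤ t → t ≤ Tm → ρ ≤ t → ∀ A : Set Γ, A ⊆ GG t → ∀ v ∈ Subgroup.closure A,
      ∃ l : List Γ, (∀ b ∈ l, b ∈ A) ∧ l.length ≤ δ t ∧ v * (l.prod)⁻¹ ∈ DD (t + ρ)) :
    ∃ u ∈ GG T0, ∀ φ ∈ Φ, ∀ n, n ≤ j → ∀ ρ, 1 ≤ ρ → φ (z0 * u) ∈ J (ρ + n * Tm) →
      Deg p J GG T0 Tm C Rt κ n φ (z0 * u) ρ ρ 1 := by
  obtain ⟨u, hu, hgood⟩ := good_point p hp T0 Tm C Rt κ S s hs j Φ z0 hz0 qn hR hT0 fin
  refine ⟨u, hu, fun φ hφ n => ?_⟩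
  have hz : z0 * u ∈ DD s := (DD s).mul_mem hz0 (S.DDle s T0 hs (S.GGD T0 hu))
  induction n with
  | zero =>
    intro _ ρ _ h
    rw [zero_mul, add_zero] at h
    exact h
  | succ n ih =>
    intro hn ρ hρ h
    intro t hρt hTt htT
    have hle : t + ρ + n * Tm ≤ ρ + (n + 1) * Tm := by
      rw [add_mul, one_mul]; omega
    have h1 := ih (by omega) (t + ρ) (by omega) (S.Jle _ _ hle h)
    have hC2 : t + ρ ≤ C * t := by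
      have : 2 * t ≤ C * t := Nat.mul_le_mul_right t hC
      omega
    have h2 := deg_mono p hp T0 Tm C Rt κ S (le_refl (t + ρ)) hC2 (le_refl 1) h1
    have h3 := hgood φ hφ n (by omega) t hTt htT ρ hρ hρt h2
    exact kstep p hp T0 Tm C Rt κ S s hs (hΦ φ hφ) hz n t ρ (δ t) hρt hTt (hκ t hTt htT)
      (fun A hA v hv => EA t ρ hTt htT hρt A hA v hv) h3

end FPD
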