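import Pool.Agent.Helper993.FP.W9
import Pool.Agent.Helper993.FP.D4
import Pool.Agent.Helper993.FP.A6
import Pool.Agent.Helper993.FP.A7
import Pool.Agent.Helper993.FP.A9
import Pool.Agent.Helper993.FP.A10b
import Pool.Agent.Helper993.FP.A11
import Pool.Agent.Helper993.FP.A12
import Pool.Agent.Helper993.FP.A13
import Pool.Agent.Helper993.FP.A14
set_option autoImplicit false
set_option linter.all false

namespace FPA


end FPA

namespace FPW
variable {d : ℕ}


end FPW

namespace FPD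

end FPD

namespace FPG
open FPA FPD FPW

section
variable {p : ℕ} [Fact p.Prime] {H R : Type} [Group H] [Finite H] [Ring R] [Algebra (ZMod p) R] {ι : H →* R}
  {J : ℕ → Submodule (ZMod p) R} (F : Flt ι J) {d : ℕ} (g : Fin d → H)

end

theorem MFT_two_le (d : ℕ) (N : Set (List (Fin d))) (r : ℝ) (hr : 1 < r)
    (hN : ∀ n, 1 ≤ n → r ^ n ≤ (an N n : ℝ)) : 2 ≤ d := by
  have h1 := hN 1 le_rfl
  rw [pow_one] at h1
  have h2 : an N 1 ≤ d := by
    unfold an
    have hsub : {w : List (Fin d) | w ∈ N ∧ w.length = 1} ⊆ Set.range (fun i : Fin d => [i]) := by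
      rintro w ⟨_, hw⟩
      obtain ⟨a, rfl⟩ := List.length_eq_one_iff.1 hw
      exact ⟨a, rfl⟩
    calc Set.ncard {w : List (Fin d) | w ∈ N ∧ w.length = 1}
        ≤ Set.ncard (Set.range (fun i : Fin d => [i])) :=
          Set.ncard_le_ncard hsub (Set.finite_range _)
      _ ≤ Nat.card (Fin d) := by
          rw [← Set.image_univ]
          refine (Set.ncard_image_le (Set.finite_univ)).trans ?_
          rw [Set.ncard_univ]
      _ = d := Nat.card_fin d
  have h3 : (1 : ℝ) < (d : ℝ) := lt_of_lt_of_le hr (h1.trans (by exact_mod_cast h2))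
  have h4 : 1 < d := by exact_mod_cast h3
  exact h4

theorem MFT_cat_length {d : ℕ} (l : ℕ → List (Fin d)) (j : ℕ) :
    (cat l j).length = ∑ i ∈ Finset.range j, (l i).length := by
  induction j with
  | zero => simp [cat]
  | succ j ih => rw [cat, List.length_append, ih, Finset.sum_range_succ, add_comm]

/-- TARGET: main finite theorem -/
theorem MFT (p : ℕ) [Fact p.Prime] (d : ℕ) (N : Set (List (Fin d)))
    (hfac : ∀ u v w : List (Fin d), u ++ v ++ w ∈ N → v ∈ N)
    (r : ℝ) (hr : 1 < r) (hN : ∀ n, 1 ≤ n → r ^ n ≤ (an N n : ℝ)) (μ : ℝ) (h1 : 1 < μ) (h2 : μ < r)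
    (s : ℕ) (hs1 : 1 ≤ s) (hs2 : (256 : ℝ) ≤ μ ^ s) (j : ℕ) (hj : 1 ≤ j) (Tst : ℕ) :
    ∃ nmax, ∀ (H : Type) [Group H] [Finite H] (R : Type) [Ring R] [Algebra (ZMod p) R] (ι : H →* R)
      (J : ℕ → Submodule (ZMod p) R) (_ : Flt ι J) (g : Fin d → H) (_ : Gen ι J g),
      (∀ w ∈ N, w.length ≤ nmax → xw ι g w ∉ TT ι J g w) →
      ∀ z0 ∈ GP (Gf H) s, ∃ u ∈ GP (Gf H) Tst, ∀ f : List Bool →₀ ZMod p,
        (∀ w : List Bool, w.length < j → f w = 0) → (∃ w : List Bool, w.length = j ∧ f w ≠ 0) →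
        ev ι f (z0 * u) ≠ 0 := by
  have hd : 2 ≤ d := MFT_two_le d N r hr hN
  have hp : 2 ≤ p := (Fact.out : p.Prime).two_le
  obtain ⟨C, hC, T0', hT0'⟩ := numerics p d s j μ h1 hs1 hs2 hd hp
  set Rt : ℕ → ℕ := fun t => 2 ^ (2 * t / s + 1 + j) + 2 * t + j with hRt
  set κ : ℕ → ℕ := fun t => 4 * p * d ^ (2 * t) with hκ
  set T0 : ℕ := max (max T0' Tst) (max (2 * s) 1) with hT0
  have hT0a : T0' ≤ T0 := (le_max_left _ _).trans (le_max_left _ _)
  have hT0b : Tst ≤ T0 := (le_max_right _ _).trans (le_max_left _ _)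
  have hT0c : 2 * s ≤ T0 := (le_max_left _ _).trans (le_max_right _ _)
  have hT0d : 1 ≤ T0 := (le_max_right _ _).trans (le_max_right _ _)
  obtain ⟨nmax, hWL⟩ := WL N hfac r hr hN μ h1 h2 C j T0 (by omega)
  refine ⟨nmax, ?_⟩
  intro H _ _ R _ _ ι J F g hg hxw z0 hz0
  have hGD : ∀ t, Gf H t ≤ Dg F t := fun t => Gf_le F t
  have hS := sys F (Gf H) (Gf_normal H) (Gf_anti H) hGD
  have hGPD : ∀ t, GP (Gf H) t ≤ DD F t := fun t => Subgroup.prod_mono (hGD t) (hGD t)
  have hGPanti : ∀ m n, m ≤ n → GP (Gf H) n ≤ GP (Gf H) m := fun m n h =>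
    Subgroup.prod_mono (Gf_anti H m n h) (Gf_anti H m n h)
  obtain ⟨u, huT, hu⟩ := good_elt (J := JA J) (DD := DD F) (GG := GP (Gf H)) p hp T0 nmax C Rt κ hS s
    (by omega) hC j (Set.range (ev (p := p) ι))
    (by rintro φ ⟨f, rfl⟩ k; exact wt_ev0 F s k f) z0 (hGPD s hz0)
    (fun t => 2 ^ (2 * t / s + 1 + j)) (fun t => 2 * p * d ^ (2 * t))
    (fun t _ _ => le_rfl) hT0d
    (fun t _ _ => fin_family F (Gf H) (Gf_normal H) (Gf_anti H) hGD s j T0 nmax C hs1 (by omega)
      Rt κ t)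
    (fun t _ _ => by simp only [hκ]; linarith)
    (by
      intro t ρ _ _ hρ A hA v hv
      obtain ⟨hfin, hfr⟩ := finrank_quot F g hg hd (2 * t)
      refine EA F (Gf H) hGD t ρ hρ hfin _ ?_ A hA v hv
      calc p * (2 * Module.finrank (ZMod p) (R ⧸ J (2 * t))) ≤ p * (2 * d ^ (2 * t)) := by gcongr
        _ = 2 * p * d ^ (2 * t) := by ring)
  refine ⟨u, hGPanti _ _ hT0b huT, ?_⟩
  intro f hf0 hfZ hzero
  obtain ⟨Z, hZl, hZ⟩ := hfZ
  have hdeg := hu (ev ι f) ⟨f, rfl⟩ j le_rfl 1 le_rfl (by rw [hzero]; exact zero_mem _)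
  have hbl : Z.reverse.length = j := by rw [List.length_reverse, hZl]
  have hdeg' : Deg p (JA J) (GP (Gf H)) T0 nmax C Rt κ Z.reverse.length (ev ι f) (z0 * u) 1 1 1 := by
    rw [hbl]; exact hdeg
  obtain ⟨E, hE, hnest⟩ := nest F g (Gf H) hGD (fun l hl => bracket F g hg l hl) T0 nmax C hT0d
    (by omega) Rt κ Z.reverse (ev ι f) (z0 * u) 1 1 1 hdeg'
  obtain ⟨l, hlN, hlen, hl1, hl2⟩ := hWL E (by
    intro t ht
    refine le_trans ?_ (hT0' t (hT0a.trans ht))
    have := hE t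
    rw [hbl] at this
    exact_mod_cast this)
  have hsum := MFT_cat_length l j
  have hlile : ∀ i, i < j → (l i).length ≤ nmax := by
    intro i hi
    refine le_trans ?_ hlen
    rw [hsum]
    exact Finset.single_le_sum (f := fun i => (l i).length) (fun _ _ => Nat.zero_le _)
      (Finset.mem_range.2 hi)
  obtain ⟨U, hUb, hUG, hUJ⟩ := hnest l
    (by
      intro i hi
      rw [hbl] at hi
      obtain ⟨a1, a2, a3⟩ := hl1 i hi
      exact ⟨a1, a2, hlile i hi, a3⟩)
    (by
      intro i hi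
      rw [hbl] at hi
      have := (hl1 i hi).2.1
      omega)
    (by
      intro i hi
      rw [hbl] at hi
      exact (hl2 i hi).1)
  have hUl : U.length = j := by
    have := congrArg List.length hUb
    rwa [List.length_map, hbl] at this
  have hzD : z0 * u ∈ DD F s :=
    mul_mem (hGPD s hz0) (hGPD s (hGPanti s T0 (by omega) huT))
  set T : List ℕ := (List.range j).map (fun i => (l i).length) with hT
  have hTsum : T.sum = ∑ i ∈ Finset.range j, (l i).length := by
    rw [hT, Finset.sum_range]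
    rw [← List.sum_ofFn]
    congr 1
    apply List.ext_getElem
    · simp
    · intro n h1 h2; simp
  have hUT : List.Forall₂ (fun x t => x.2 ∈ Dg F t ∧ 2 * s ≤ t) U T := by
    rw [List.forall₂_iff_get]
    refine ⟨by simp [hT, hUl], ?_⟩
    intro i hi1 hi2
    have hij : i < j := by omega
    have hTi : T.get ⟨i, hi2⟩ = (l i).length := by simp [hT]
    have ha := (hUG i hi1).1
    rw [hTi]
    exact ⟨hGD _ ha, hT0c.trans (hl1 i hij).2.1⟩
  have hLF := LF_ev F s hs1 U T hUT f (by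
    intro w hw
    rw [hUl]
    by_contra hlt
    push Not at hlt
    exact (Finsupp.mem_support_iff.1 hw) (hf0 w hlt)) (z0 * u) hzD
  have hPP := lead_PP F g hg U l (fun i hi => (hUG i hi).2) (fun i hi => (hl2 i (by omega)).2) f
  rw [hUb, List.reverse_reverse, hUl] at hPP
  rw [hTsum, ← hsum] at hLF
  rw [hbl, ← hsum, add_comm 1] at hUJ
  have hsumJ : f.sum (fun w c => c • PP ι U w) ∈ J ((cat l j).length + 1) := by
    have := sub_mem hUJ hLF
    simpa using this
  have hTT : f.sum (fun w c => c • PP ι U w) ∈ TT ι J g (cat l j) :=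
    Submodule.mem_sup_right hsumJ
  have hfx : f Z • xw ι g (cat l j) ∈ TT ι J g (cat l j) := by
    have := sub_mem hTT hPP
    simpa using this
  have hx : xw ι g (cat l j) ∈ TT ι J g (cat l j) := by
    have := Submodule.smul_mem _ (f Z)⁻¹ hfx
    rwa [smul_smul, inv_mul_cancel₀ hZ, one_smul] at this
  exact hxw _ hlN hlen hx

end FPG
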