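import Pool.Agent.Helper993.FP.A0
set_option autoImplicit false
set_option linter.all false

namespace FPA
open FPD
variable {p : ℕ} [Fact p.Prime] {H R : Type} [Group H] [Ring R] [Algebra (ZMod p) R] {ι : H →* R}
  {J : ℕ → Submodule (ZMod p) R} (F : Flt ι J)

theorem J_le (F : Flt ι J) (m n : ℕ) (h : m ≤ n) : J n ≤ J m := by
  induction n, h using Nat.le_induction with
  | base => exact le_rfl
  | succ k hk ih => exact (F.anti k).trans ih

theorem Dg_le (m n : ℕ) (h : m ≤ n) : Dg F n ≤ Dg F m := by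
  intro a ha
  exact J_le F m n h ha

theorem A5_left (F : Flt ι J) {m : ℕ} (c a : R) (ha : a ∈ J m) : c * a ∈ J m := by
  have := F.mul 0 m c a (by rw [F.top]; trivial) ha
  simpa using this

theorem A5_right (F : Flt ι J) {m : ℕ} (c a : R) (ha : a ∈ J m) : a * c ∈ J m := by
  have := F.mul m 0 a c ha (by rw [F.top]; trivial)
  simpa using this

theorem Dg_normal (n : ℕ) : (Dg F n).Normal := by
  refine ⟨fun g hg h => ?_⟩
  show ι (h * g * h⁻¹) - 1 ∈ J n
  have h1 : ι h * ι h⁻¹ = 1 := by rw [← map_mul]; simp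
  have e : ι (h * g * h⁻¹) - 1 = ι h * ((ι g - 1) * ι h⁻¹) := by
    rw [map_mul, map_mul, sub_mul, one_mul, mul_sub, h1, mul_assoc]
  rw [e]
  exact A5_left F _ _ (A5_right F _ _ hg)

theorem Dg_comm (m n : ℕ) (a b : H) (ha : a ∈ Dg F m) (hb : b ∈ Dg F n) :
    a⁻¹ * b⁻¹ * a * b ∈ Dg F (m + n) ∧
    (ι (a⁻¹ * b⁻¹ * a * b) - 1) - ((ι a - 1) * (ι b - 1) - (ι b - 1) * (ι a - 1)) ∈ J (m + n + 1) := by
  obtain ⟨c, hc⟩ : ∃ c, c = (ι a - 1) * (ι b - 1) - (ι b - 1) * (ι a - 1) := ⟨_, rfl⟩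
  have hcJ : c ∈ J (m + n) := by
    rw [hc]
    refine Submodule.sub_mem _ (F.mul m n _ _ ha hb) ?_
    rw [add_comm m n]
    exact F.mul n m _ _ hb ha
  have e1 : ι (a * b) - ι (b * a) = c := by
    rw [hc, map_mul, map_mul]; noncomm_ring
  have h1 : ι (a⁻¹ * b⁻¹) * ι (b * a) = 1 := by
    rw [← map_mul]
    have : a⁻¹ * b⁻¹ * (b * a) = 1 := by group
    rw [this, map_one]
  have e2 : ι (a⁻¹ * b⁻¹ * a * b) - 1 = ι (a⁻¹ * b⁻¹) * c := by
    rw [← e1, mul_sub, h1, ← map_mul]
    have : a⁻¹ * b⁻¹ * a * b = a⁻¹ * b⁻¹ * (a * b) := by group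
    rw [this]
  constructor
  · show ι (a⁻¹ * b⁻¹ * a * b) - 1 ∈ J (m + n)
    rw [e2]
    exact A5_left F _ _ hcJ
  · rw [← hc, e2]
    have e3 : ι (a⁻¹ * b⁻¹) * c - c = (ι (a⁻¹ * b⁻¹) - 1) * c := by noncomm_ring
    rw [e3, add_comm (m + n) 1]
    exact F.mul 1 (m + n) _ _ (F.aug _) hcJ

theorem sys (Gm : ℕ → Subgroup H) (hn : ∀ t, (Gm t).Normal) (hle : ∀ m n, m ≤ n → Gm n ≤ Gm m)
    (hD : ∀ t, Gm t ≤ Dg F t) : Sys (JA J) (DD F) (GP Gm) where
  Jle := fun m n h => J_le F m n h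
  DDle := fun m n h => Subgroup.prod_mono (Dg_le F m n h) (Dg_le F m n h)
  DDn := fun n => by
    have := Dg_normal F n
    exact Subgroup.prod_normal (Dg F n) (Dg F n)
  GGn := fun n => by
    have := hn n
    exact Subgroup.prod_normal (Gm n) (Gm n)
  GGD := fun n => Subgroup.prod_mono (hD n) (hD n)
  GGle := fun m n h => Subgroup.prod_mono (hle m n h) (hle m n h)

theorem A5_val {σ s n m : ℕ} {φ : H × H → R} (h : Wt (JA J) (DD F) σ s n m φ) :
    ∀ z ∈ DD F s, φ z ∈ J m := by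
  cases n with
  | zero => exact h
  | succ n => exact h.1

theorem A5_mono_m {σ s n m m' : ℕ} (hm : m ≤ m') {φ : H × H → R}
    (h : Wt (JA J) (DD F) σ s n m' φ) : Wt (JA J) (DD F) σ s n m φ := by
  induction n generalizing m m' φ with
  | zero => exact fun z hz => J_le F _ _ hm (h z hz)
  | succ n ih =>
    exact ⟨fun z hz => J_le F _ _ hm (h.1 z hz),
      fun t ht u hu => ih (by omega) (h.2 t ht u hu)⟩

theorem A5_mono_n {σ s n m : ℕ} {φ : H × H → R}
    (h : Wt (JA J) (DD F) σ s (n + 1) m φ) : Wt (JA J) (DD F) σ s n m φ := by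
  induction n generalizing m φ with
  | zero => exact h.1
  | succ n ih => exact ⟨h.1, fun t ht u hu => ih (h.2 t ht u hu)⟩

theorem A5_shift {σ σ' s n m : ℕ} (hσ : σ ≤ σ') {φ : H × H → R}
    (h : Wt (JA J) (DD F) σ s n m φ) : Wt (JA J) (DD F) σ' s n m φ := by
  induction n generalizing m φ with
  | zero => exact h
  | succ n ih =>
    exact ⟨h.1, fun t ht u hu => A5_mono_m F (by omega) (ih (h.2 t ht u hu))⟩

theorem A5_add {σ s n m : ℕ} {φ ψ : H × H → R} (h : Wt (JA J) (DD F) σ s n m φ)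
    (h' : Wt (JA J) (DD F) σ s n m ψ) : Wt (JA J) (DD F) σ s n m (fun z => φ z + ψ z) := by
  induction n generalizing m φ ψ with
  | zero => exact fun z hz => Submodule.add_mem _ (h z hz) (h' z hz)
  | succ n ih =>
    refine ⟨fun z hz => Submodule.add_mem _ (h.1 z hz) (h'.1 z hz), fun t ht u hu => ?_⟩
    have e : del u (fun z => φ z + ψ z) = fun z => del u φ z + del u ψ z := by
      funext z; simp only [del]; abel
    rw [e]
    exact ih (h.2 t ht u hu) (h'.2 t ht u hu)

theorem A5_smul {σ s n m : ℕ} (c : ZMod p) {φ : H × H → R} (h : Wt (JA J) (DD F) σ s n m φ) :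
    Wt (JA J) (DD F) σ s n m (fun z => c • φ z) := by
  induction n generalizing m φ with
  | zero => exact fun z hz => Submodule.smul_mem _ _ (h z hz)
  | succ n ih =>
    refine ⟨fun z hz => Submodule.smul_mem _ _ (h.1 z hz), fun t ht u hu => ?_⟩
    have e : del u (fun z => c • φ z) = fun z => c • del u φ z := by
      funext z; simp only [del, smul_sub]
    rw [e]
    exact ih (h.2 t ht u hu)

theorem wt_mul {σ s n m m' : ℕ} (hσ : σ ≤ s) {φ ψ : H × H → R} (h : Wt (JA J) (DD F) σ s n m φ)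
    (h' : Wt (JA J) (DD F) σ s n m' ψ) : Wt (JA J) (DD F) σ s n (m + m') (fun z => φ z * ψ z) := by
  induction n generalizing m m' φ ψ with
  | zero => exact fun z hz => F.mul m m' _ _ (h z hz) (h' z hz)
  | succ n ih =>
    refine ⟨fun z hz => F.mul m m' _ _ (h.1 z hz) (h'.1 z hz), fun t ht u hu => ?_⟩
    have e : del u (fun z => φ z * ψ z) = fun z => (del u φ z * ψ z + φ z * del u ψ z) +
        del u φ z * del u ψ z := by
      funext z; simp only [del]; noncomm_ring
    rw [e]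
    have h1 := ih (h.2 t ht u hu) (A5_mono_n F h')
    have h2 := ih (A5_mono_n F h) (h'.2 t ht u hu)
    have h3 := ih (h.2 t ht u hu) (h'.2 t ht u hu)
    exact A5_add F (A5_add F (A5_mono_m F (by omega) h1) (A5_mono_m F (by omega) h2))
      (A5_mono_m F (by omega) h3)

theorem wt_const {σ s n m : ℕ} {c : R} (hc : c ∈ J m) : Wt (JA J) (DD F) σ s n m (fun _ => c) := by
  induction n generalizing m c with
  | zero => exact fun z _ => hc
  | succ n ih =>
    refine ⟨fun z _ => hc, fun t ht u hu => ?_⟩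
    have e : del u (fun _ : H × H => c) = fun _ => (0 : R) := by
      funext z; simp only [del, sub_self]
    rw [e]
    exact ih (Submodule.zero_mem _)

theorem A5_theta (θ : H × H →* H) (hθ : ∀ t, ∀ u ∈ DD F t, ι (θ u) - 1 ∈ J t) {s n m : ℕ} {c : R}
    (hc : c ∈ J m) : Wt (JA J) (DD F) 0 s n m (fun z => ι (θ z) * c) := by
  induction n generalizing m c with
  | zero => exact fun z _ => A5_left F _ _ hc
  | succ n ih =>
    refine ⟨fun z _ => A5_left F _ _ hc, fun t ht u hu => ?_⟩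
    have e : del u (fun z => ι (θ z) * c) = fun z => ι (θ z) * ((ι (θ u) - 1) * c) := by
      funext z; simp only [del, map_mul]; noncomm_ring
    rw [e]
    have h1 : (ι (θ u) - 1) * c ∈ J (m + t - 0) := by
      rw [Nat.sub_zero, add_comm m t]
      exact F.mul t m _ _ (hθ t u hu) hc
    exact ih h1

theorem A5_key0 (θ : H × H →* H) (hθ : ∀ t, ∀ u ∈ DD F t, ι (θ u) - 1 ∈ J t) (s n : ℕ) :
    Wt (JA J) (DD F) 0 s n 0 (fun z => ι (θ z) - 1) := by
  have h1 : Wt (JA J) (DD F) 0 s n 0 (fun z => ι (θ z) * 1) :=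
    A5_theta F θ hθ (by rw [F.top]; trivial)
  have h2 : Wt (JA J) (DD F) 0 s n 0 (fun _ => (-1 : R)) :=
    wt_const F (by rw [F.top]; trivial)
  have e : (fun z => ι (θ z) - 1) = fun z => ι (θ z) * 1 + (-1 : R) := by
    funext z; noncomm_ring
  rw [e]
  exact A5_add F h1 h2

theorem A5_keys (θ : H × H →* H) (hθ : ∀ t, ∀ u ∈ DD F t, ι (θ u) - 1 ∈ J t) (s n : ℕ) :
    Wt (JA J) (DD F) s s n s (fun z => ι (θ z) - 1) := by
  cases n with
  | zero => exact fun z hz => hθ s z hz
  | succ n =>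
    refine ⟨fun z hz => hθ s z hz, fun t ht u hu => ?_⟩
    have e : del u (fun z => ι (θ z) - 1) = fun z => ι (θ z) * (ι (θ u) - 1) := by
      funext z; simp only [del, map_mul]; noncomm_ring
    rw [e]
    have h1 : ι (θ u) - 1 ∈ J (s + t - s) := by
      rw [Nat.add_sub_cancel_left]; exact hθ t u hu
    exact A5_shift F (Nat.zero_le s) (A5_theta F θ hθ h1)

/-- coordinate projection -/
def A5_pr (b : Bool) : H × H →* H := if b then MonoidHom.fst H H else MonoidHom.snd H H

theorem A5_pr_apply (b : Bool) (z : H × H) : A5_pr b z = if b then z.1 else z.2 := by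
  cases b <;> rfl

theorem A5_pr_mem (b : Bool) : ∀ t, ∀ u ∈ DD F t, ι (A5_pr b u) - 1 ∈ J t := by
  intro t u hu
  obtain ⟨h1, h2⟩ := Subgroup.mem_prod.1 hu
  cases b
  · exact h2
  · exact h1

theorem A5_mon_cons (b : Bool) (w : List Bool) :
    mon ι (b :: w) = fun z => (ι (A5_pr b z) - 1) * mon ι w z := by
  funext z
  rw [A5_pr_apply]
  rfl

theorem wt_mon0 (s k : ℕ) (w : List Bool) : Wt (JA J) (DD F) 0 s k 0 (mon ι w) := by
  induction w with
  | nil =>
    exact wt_const F (c := 1) (by rw [F.top]; trivial)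
  | cons b w ih =>
    rw [A5_mon_cons]
    exact wt_mul F (Nat.zero_le s) (A5_key0 F (A5_pr b) (A5_pr_mem F b) s k) ih

theorem wt_mons (s k : ℕ) (w : List Bool) : Wt (JA J) (DD F) s s k (s * w.length) (mon ι w) := by
  induction w with
  | nil =>
    exact wt_const F (c := 1) (by rw [List.length_nil, Nat.mul_zero, F.top]; trivial)
  | cons b w ih =>
    rw [A5_mon_cons]
    have e : s * (b :: w).length = s + s * w.length := by
      rw [List.length_cons]; ring
    rw [e]
    exact wt_mul F le_rfl (A5_keys F (A5_pr b) (A5_pr_mem F b) s k) ih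

theorem A5_sum {σ s n m : ℕ} {κ : Type} (S : Finset κ) (φ : κ → H × H → R)
    (h : ∀ w ∈ S, Wt (JA J) (DD F) σ s n m (φ w)) :
    Wt (JA J) (DD F) σ s n m (fun z => ∑ w ∈ S, φ w z) := by
  classical
  induction S using Finset.induction_on with
  | empty =>
    simp only [Finset.sum_empty]
    exact wt_const F (Submodule.zero_mem _)
  | insert a S ha ih =>
    simp only [Finset.sum_insert ha]
    exact A5_add F (h a (Finset.mem_insert_self _ _))
      (ih fun w hw => h w (Finset.mem_insert_of_mem hw))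

theorem wt_ev0 (s k : ℕ) (f : List Bool →₀ ZMod p) : Wt (JA J) (DD F) 0 s k 0 (ev ι f) := by
  exact A5_sum F f.support (fun w z => f w • mon ι w z)
    fun w _ => A5_smul F _ (wt_mon0 F s k w)

theorem wt_evs (s k q : ℕ) (f : List Bool →₀ ZMod p) (hf : ∀ w ∈ f.support, q ≤ w.length) :
    Wt (JA J) (DD F) s s k (s * q) (ev ι f) := by
  exact A5_sum F f.support (fun w z => f w • mon ι w z)
    fun w hw => A5_mono_m F (Nat.mul_le_mul_left s (hf w hw)) (A5_smul F _ (wt_mons F s k w))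

end FPA
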