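import Pool.Agent.Helper993.FP.A5
set_option autoImplicit false
set_option linter.all false

namespace FPA
open FPD FPW
variable {p : ℕ} [Fact p.Prime] {H R : Type} [Group H] [Finite H] [Ring R] [Algebra (ZMod p) R] {ι : H →* R}
  {J : ℕ → Submodule (ZMod p) R} (F : Flt ι J) {d : ℕ} (g : Fin d → H)

omit [Finite H] in
include F in
theorem exc_mul (t : ℕ) (ht : 1 ≤ t) {a b : H} (ha : a ∈ Dg F t) (hb : b ∈ Dg F t) :
    (J (t + 1)).mkQ (ι (a * b) - 1) = (J (t + 1)).mkQ (ι a - 1) + (J (t + 1)).mkQ (ι b - 1) := by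
  rw [← map_add, Submodule.mkQ_apply, Submodule.mkQ_apply, Submodule.Quotient.eq]
  have h1 : ι (a * b) - 1 - (ι a - 1 + (ι b - 1)) = (ι a - 1) * (ι b - 1) := by
    rw [map_mul]; noncomm_ring
  rw [h1]
  have h2 : (ι a - 1) * (ι b - 1) ∈ J (t + t) := F.mul t t _ _ ha hb
  have h3 : ∀ k m, J (m + k) ≤ J m := by
    intro k
    induction k with
    | zero => intro m; exact le_refl _
    | succ k ih => intro m; exact (F.anti (m + k)).trans (ih m)
  obtain ⟨s, rfl⟩ : ∃ s, t = s + 1 := ⟨t - 1, by omega⟩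
  have h4 : s + 1 + (s + 1) = (s + 1 + 1) + s := by ring
  rw [h4] at h2
  exact h3 s _ h2

omit [Finite H] in
include F in
theorem exc_pow (t : ℕ) (ht : 1 ≤ t) {a : H} (ha : a ∈ Dg F t) (m : ℕ) :
    (J (t + 1)).mkQ (ι (a ^ m) - 1) = m • (J (t + 1)).mkQ (ι a - 1) := by
  induction m with
  | zero => simp
  | succ m ih =>
    rw [pow_succ, exc_mul F t ht (pow_mem ha m) ha, ih, succ_nsmul]

omit [Finite H] in
include F in
theorem exc_inv (t : ℕ) (ht : 1 ≤ t) {a : H} (ha : a ∈ Dg F t) :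
    (J (t + 1)).mkQ (ι (a⁻¹) - 1) = - (J (t + 1)).mkQ (ι a - 1) := by
  have h := exc_mul F t ht (inv_mem ha) ha
  rw [inv_mul_cancel, map_one, sub_self, map_zero] at h
  exact eq_neg_of_add_eq_zero_left h.symm

omit [Finite H] in
include F in
theorem exc_prod (t : ℕ) (ht : 1 ≤ t) (n : ℕ) (c : Fin n → H) (hc : ∀ i, c i ∈ Dg F t) :
    (J (t + 1)).mkQ (ι (List.ofFn c).prod - 1) = ∑ i, (J (t + 1)).mkQ (ι (c i) - 1) := by
  induction n with
  | zero => simp
  | succ n ih =>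
    rw [List.ofFn_succ, List.prod_cons, Fin.sum_univ_succ, exc_mul F t ht (hc 0), ih]
    · intro i; exact hc _
    · refine Subgroup.list_prod_mem _ ?_
      intro x hx
      rw [List.mem_ofFn] at hx
      obtain ⟨i, rfl⟩ := hx
      exact hc _

theorem pur_inv_mul (b : Bool) (x y : H) : pur b (x⁻¹ * y) = (pur b x)⁻¹ * pur b y := by
  cases b <;> simp [pur]

theorem pur_pow (b : Bool) (x : H) (m : ℕ) : pur b (x ^ m) = (pur b x) ^ m := by
  cases b <;> simp [pur, Prod.ext_iff]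

include F in
/-- TARGET: a subgroup of index at most `p^N` misses at most `N` leading words -/
theorem exc (Gm : ℕ → Subgroup H) (hD : ∀ t, Gm t ≤ Dg F t) (t : ℕ) (ht : 1 ≤ t) (K : Subgroup (H × H))
    (hK : K ≤ GP Gm t) (N : ℕ) (hN : K.relIndex (GP Gm t) ≤ p ^ N) (b : Bool) (S : Finset (List (Fin d)))
    (hS1 : ∀ l ∈ S, l.length = t ∧ ∃ c ∈ Gm t, Lead ι J g (ι c - 1) l)
    (hS2 : ∀ l ∈ S, ¬ ∃ h, pur b h ∈ K ∧ Lead ι J g (ι h - 1) l) : S.card ≤ N := by
  classical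
  by_contra hlt
  rw [not_le] at hlt
  have hp : p.Prime := Fact.out
  have h1p : 1 < p := hp.one_lt
  set n := S.card with hn
  set l := S.orderEmbOfFin hn.symm with hl
  have hlS : ∀ i, l i ∈ S := fun i => S.orderEmbOfFin_mem _ i
  have hlen : ∀ i, (l i).length = t := fun i => (hS1 _ (hlS i)).1
  choose c hcG hcL using fun i => (hS1 _ (hlS i)).2
  have hcD : ∀ i, c i ∈ Dg F t := fun i => hD t (hcG i)
  set P : (Fin n → Fin p) → H := fun e => (List.ofFn fun i => c i ^ (e i : ℕ)).prod with hP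
  have hPG : ∀ e, P e ∈ Gm t := by
    intro e
    refine Subgroup.list_prod_mem _ ?_
    intro x hx
    rw [List.mem_ofFn] at hx
    obtain ⟨i, rfl⟩ := hx
    exact pow_mem (hcG i) _
  have hPD : ∀ e, P e ∈ Dg F t := fun e => hD t (hPG e)
  have hpurG : ∀ x ∈ Gm t, pur b x ∈ GP Gm t := by
    intro x hx
    cases b
    · exact ⟨one_mem _, hx⟩
    · exact ⟨hx, one_mem _⟩
  -- pigeonhole
  have hnotinj : ¬ Function.Injective (fun e : Fin n → Fin p =>
      ((⟨pur b (P e), hpurG _ (hPG e)⟩ : GP Gm t) : GP Gm t ⧸ K.subgroupOf (GP Gm t))) := by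
    intro hinj
    have h1 := Nat.card_le_card_of_injective _ hinj
    have h2 : Nat.card (GP Gm t ⧸ K.subgroupOf (GP Gm t)) = K.relIndex (GP Gm t) := rfl
    rw [h2, Nat.card_eq_fintype_card, Fintype.card_fun, Fintype.card_fin, Fintype.card_fin] at h1
    have h3 : p ^ N < p ^ n := Nat.pow_lt_pow_right h1p hlt
    omega
  rw [Function.not_injective_iff] at hnotinj
  obtain ⟨e, e', hee, hne⟩ := hnotinj
  have hee1 : (⟨pur b (P e), hpurG _ (hPG e)⟩ : GP Gm t)⁻¹ * ⟨pur b (P e'), hpurG _ (hPG e')⟩ ∈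
      K.subgroupOf (GP Gm t) := QuotientGroup.eq.1 hee
  rw [Subgroup.mem_subgroupOf] at hee1
  set h : H := (P e)⁻¹ * P e' with hh
  have hhK : pur b h ∈ K := by
    rw [hh, pur_inv_mul]
    simpa using hee1
  have hhD : h ∈ Dg F t := mul_mem (inv_mem (hPD e)) (hPD e')
  -- minimal index
  have hex : (Finset.univ.filter (fun i => e i ≠ e' i)).Nonempty := by
    by_contra hemp
    rw [Finset.not_nonempty_iff_eq_empty] at hemp
    apply hne
    funext i
    by_contra hi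
    have : i ∈ Finset.univ.filter (fun i => e i ≠ e' i) := by simp [hi]
    rw [hemp] at this
    simp at this
  set i0 := (Finset.univ.filter (fun i => e i ≠ e' i)).min' hex with hi0
  have hi0ne : e i0 ≠ e' i0 := by
    have := Finset.min'_mem _ hex
    rw [← hi0] at this
    simpa using this
  have hi0min : ∀ i, i < i0 → e i = e' i := by
    intro i hi
    by_contra hne'
    have h1 : i0 ≤ i := Finset.min'_le _ i (by simp [hne'])
    exact absurd hi (not_lt.2 h1)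
  set k : Fin n → ZMod p := fun i => ((e' i : ℕ) : ZMod p) - ((e i : ℕ) : ZMod p) with hk
  have hk0 : k i0 ≠ 0 := by
    intro h0
    have h1 : ((e' i0 : ℕ) : ZMod p) = ((e i0 : ℕ) : ZMod p) := sub_eq_zero.1 h0
    rw [ZMod.natCast_eq_natCast_iff'] at h1
    rw [Nat.mod_eq_of_lt (e' i0).2, Nat.mod_eq_of_lt (e i0).2] at h1
    exact hi0ne (Fin.ext h1.symm)
  haveI : NeZero p := ⟨hp.ne_zero⟩
  set m : ℕ := ((k i0)⁻¹).val with hm
  have hmc : (m : ZMod p) = (k i0)⁻¹ := by rw [hm]; exact ZMod.natCast_zmod_val _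
  have hℓP : ∀ e : Fin n → Fin p, (J (t + 1)).mkQ (ι (P e) - 1) =
      ∑ i, ((e i : ℕ) : ZMod p) • (J (t + 1)).mkQ (ι (c i) - 1) := by
    intro e
    rw [hP]
    rw [exc_prod F t ht n _ (fun i => pow_mem (hcD i) _)]
    refine Finset.sum_congr rfl (fun i _ => ?_)
    rw [exc_pow F t ht (hcD i), Nat.cast_smul_eq_nsmul]
  have hℓh : (J (t + 1)).mkQ (ι h - 1) = ∑ i, k i • (J (t + 1)).mkQ (ι (c i) - 1) := by
    rw [hh, exc_mul F t ht (inv_mem (hPD e)) (hPD e'), exc_inv F t ht (hPD e), hℓP, hℓP,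
      neg_add_eq_sub, ← Finset.sum_sub_distrib]
    refine Finset.sum_congr rfl (fun i _ => ?_)
    rw [← sub_smul]
  have hℓhm : (J (t + 1)).mkQ (ι (h ^ m) - 1) =
      (J (t + 1)).mkQ (∑ i, ((k i0)⁻¹ * k i) • (ι (c i) - 1)) := by
    rw [exc_pow F t ht hhD, hℓh, ← Nat.cast_smul_eq_nsmul (ZMod p), hmc, Finset.smul_sum, map_sum]
    refine Finset.sum_congr rfl (fun i _ => ?_)
    rw [map_smul, smul_smul]
  rw [Submodule.mkQ_apply, Submodule.mkQ_apply, Submodule.Quotient.eq] at hℓhm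
  -- TT facts
  have hTJ : J (t + 1) ≤ TT ι J g (l i0) := by
    unfold TT
    rw [hlen i0]
    exact le_sup_right
  have hTgt : ∀ i, i0 < i → xw ι g (l i) ∈ TT ι J g (l i0) := by
    intro i hi
    unfold TT
    apply Submodule.mem_sup_left
    apply Submodule.subset_span
    exact ⟨l i, by rw [hlen, hlen], l.strictMono hi, rfl⟩
  have hTmono : ∀ i, i0 < i → TT ι J g (l i) ≤ TT ι J g (l i0) := by
    intro i hi
    unfold TT
    rw [hlen, hlen]
    apply sup_le_sup_right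
    apply Submodule.span_mono
    rintro a ⟨w', hw1, hw2, rfl⟩
    exact ⟨w', hw1, lt_trans (l.strictMono hi) hw2, rfl⟩
  have hTc : ∀ i, i0 < i → ι (c i) - 1 ∈ TT ι J g (l i0) := by
    intro i hi
    have h1 : ι (c i) - 1 - xw ι g (l i) ∈ TT ι J g (l i0) := hTmono i hi (hcL i)
    have h2 := add_mem h1 (hTgt i hi)
    simpa using h2
  refine hS2 (l i0) (hlS i0) ⟨h ^ m, ?_, ?_⟩
  · rw [pur_pow]; exact pow_mem hhK m
  · show ι (h ^ m) - 1 - xw ι g (l i0) ∈ TT ι J g (l i0)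
    have h1 : ι (h ^ m) - 1 - xw ι g (l i0) =
        (ι (h ^ m) - 1 - ∑ i, ((k i0)⁻¹ * k i) • (ι (c i) - 1)) +
        (∑ i, ((k i0)⁻¹ * k i) • (ι (c i) - 1) - xw ι g (l i0)) := by abel
    rw [h1]
    refine add_mem (hTJ hℓhm) ?_
    have h2 : ∑ i, ((k i0)⁻¹ * k i) • (ι (c i) - 1) - xw ι g (l i0) =
        (ι (c i0) - 1 - xw ι g (l i0)) +
        ∑ i ∈ Finset.univ.erase i0, ((k i0)⁻¹ * k i) • (ι (c i) - 1) := by
      rw [← Finset.add_sum_erase Finset.univ _ (Finset.mem_univ i0), inv_mul_cancel₀ hk0, one_smul]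
      abel
    rw [h2]
    refine add_mem (hcL i0) (Submodule.sum_mem _ ?_)
    intro i hi
    rw [Finset.mem_erase] at hi
    rcases lt_or_gt_of_ne hi.1 with hlt' | hgt'
    · have : k i = 0 := by
        simp only [hk, hi0min i hlt', sub_self]
      rw [this, mul_zero, zero_smul]
      exact zero_mem _
    · exact Submodule.smul_mem _ _ (hTc i hgt')

end FPA
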