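import Mathlib
set_option autoImplicit false
set_option linter.all false

namespace FPD
variable {Γ R : Type} [Group Γ] [AddCommGroup R]

/-- right difference in direction `u` -/
def del (u : Γ) (φ : Γ → R) : Γ → R := fun z => φ (z * u) - φ z

/-- weight class with shift `σ` on `DD s` -/
def Wt (J : ℕ → AddSubgroup R) (DD : ℕ → Subgroup Γ) (σ s : ℕ) : ℕ → ℕ → (Γ → R) → Prop
  | 0, m, φ => ∀ z ∈ DD s, φ z ∈ J m
  | n + 1, m, φ => (∀ z ∈ DD s, φ z ∈ J m) ∧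
      ∀ t, s ≤ t → ∀ u ∈ DD t, Wt J DD σ s n (m + t - σ) (del u φ)

/-- iterated degeneracy -/
def Deg (p : ℕ) (J : ℕ → AddSubgroup R) (GG : ℕ → Subgroup Γ) (T0 Tm C : ℕ) (Rt κ : ℕ → ℕ) :
    ℕ → (Γ → R) → Γ → ℕ → ℕ → ℕ → Prop
  | 0, φ, z, α, _, _ => φ z ∈ J α
  | n + 1, φ, z, α, τ, c => ∀ t, τ ≤ t → T0 ≤ t → t ≤ Tm →
      ∃ K : Subgroup Γ, K ≤ GG t ∧ K.relIndex (GG t) ≤ p ^ (c * Rt t) ∧
        ∀ u ∈ K, Deg p J GG T0 Tm C Rt κ n (del u φ) z (α + t) (C * t) (c * κ t)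

/-- standing assumptions -/
structure Sys (J : ℕ → AddSubgroup R) (DD GG : ℕ → Subgroup Γ) : Prop where
  Jle : ∀ m n, m ≤ n → J n ≤ J m
  DDle : ∀ m n, m ≤ n → DD n ≤ DD m
  DDn : ∀ n, (DD n).Normal
  GGn : ∀ n, (GG n).Normal
  GGD : ∀ n, GG n ≤ DD n
  GGle : ∀ m n, m ≤ n → GG n ≤ GG m

end FPD
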