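import Pool.Agent.Helper993.FP.D1
set_option autoImplicit false
set_option linter.all false

namespace FPD
variable {Γ R : Type} [Group Γ] [Finite Γ] [AddCommGroup R]
variable {J : ℕ → AddSubgroup R} {DD GG : ℕ → Subgroup Γ}
variable (p : ℕ) (hp : 2 ≤ p) (T0 Tm C : ℕ) (Rt κ : ℕ → ℕ)

include hp in
/-- TARGET: the generation step -/
theorem kstep (S : Sys J DD GG) (s : ℕ) (hs : s ≤ T0) {f : Γ → R} (hf : ∀ k, Wt J DD 0 s k 0 f) {z : Γ}
    (hz : z ∈ DD s) (n t ρ δ : ℕ) (hρ : ρ ≤ t) (hT : T0 ≤ t) (hκ : 2 * δ ≤ κ t)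
    (EA : ∀ A : Set Γ, A ⊆ GG t → ∀ v ∈ Subgroup.closure A, ∃ l : List Γ, (∀ b ∈ l, b ∈ A) ∧ l.length ≤ δ ∧
      v * (l.prod)⁻¹ ∈ DD (t + ρ))
    (hcard : Nat.card (GG t) ≤ p ^ (Rt t) *
      Nat.card {u : Γ // u ∈ GG t ∧ Deg p J GG T0 Tm C Rt κ n f (z * u) (t + ρ) (C * t) 1}) :
    ∃ K : Subgroup Γ, K ≤ GG t ∧ K.relIndex (GG t) ≤ p ^ (1 * Rt t) ∧
      ∀ v ∈ K, Deg p J GG T0 Tm C Rt κ n (del v f) z (ρ + t) (C * t) (1 * κ t) := by
  classical
  have hst : s ≤ t := hs.trans hT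
  set α : ℕ := t + ρ with hα
  -- weights of differences
  have hwt : ∀ v ∈ GG t, ∀ k, Wt J DD 0 s k t (del v f) := by
    intro v hv k
    have h1 := (hf (k + 1)).2 t hst v (S.GGD t hv)
    have h2 : 0 + t - 0 = t := by omega
    rwa [h2] at h1
  -- moving the base point
  have hmove : ∀ v ∈ GG t, ∀ u ∈ GG t, ∀ c, Deg p J GG T0 Tm C Rt κ n (del v f) (z * u) α (C * t) c ↔
      Deg p J GG T0 Tm C Rt κ n (del v f) z α (C * t) c := by
    intro v hv u hu c
    exact deg_inv p hp T0 Tm C Rt κ S s hs (hwt v hv) hst (by omega : α ≤ t + t) hz (S.GGD t hu)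
  -- (ii)
  have h2 : ∀ v ∈ DD α, Deg p J GG T0 Tm C Rt κ n (del v f) z α (C * t) 0 := by
    intro v hv
    have h1 := (hf (n + 1)).2 α (by omega) v hv
    have h3 : 0 + α - 0 = α := by omega
    rw [h3] at h1
    exact deg_of_wt p hp T0 Tm C Rt κ S s hs (Nat.zero_le s) h1 (by omega) hz
  -- (iii)
  have h3 : ∀ v ∈ GG t, ∀ v' ∈ GG t, ∀ c c', Deg p J GG T0 Tm C Rt κ n (del v f) z α (C * t) c →
      Deg p J GG T0 Tm C Rt κ n (del v' f) z α (C * t) c' →
      Deg p J GG T0 Tm C Rt κ n (del (v * v') f) z α (C * t) (c + c') := by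
    intro v hv v' hv' c c' hc hc'
    have e1 : del (v * v') f = (fun x => (del v' f) (x * v)) + del v f := by
      funext x
      show f (x * (v * v')) - f x = (f (x * v * v') - f (x * v)) + (f (x * v) - f x)
      rw [mul_assoc]
      abel
    rw [e1, add_comm c c']
    apply deg_add p hp T0 Tm C Rt κ S _ hc
    rw [deg_trans p hp T0 Tm C Rt κ S, hmove v' hv' v hv]
    exact hc'
  -- the set
  set A0 : Set Γ := {u | u ∈ GG t ∧ Deg p J GG T0 Tm C Rt κ n f (z * u) α (C * t) 1} with hA0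
  have hcard' : Nat.card (GG t) ≤ p ^ (Rt t) * Nat.card A0 := hcard
  have hGpos : 0 < Nat.card (GG t) := Nat.card_pos
  have hA0pos : 0 < Nat.card A0 := by
    rcases Nat.eq_zero_or_pos (Nat.card A0) with h | h
    · rw [h, mul_zero] at hcard'
      omega
    · exact h
  obtain ⟨⟨u0, hu0⟩⟩ : Nonempty A0 := (Nat.card_pos_iff.1 hA0pos).1
  set A : Set Γ := {v | ∃ u ∈ A0, ∃ u' ∈ A0, v = u⁻¹ * u'} with hA
  have hAG : A ⊆ GG t := by
    rintro v ⟨u, hu, u', hu', rfl⟩
    exact (GG t).mul_mem ((GG t).inv_mem hu.1) hu'.1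
  have hKG : Subgroup.closure A ≤ GG t := (Subgroup.closure_le _).2 hAG
  -- (i)
  have h1 : ∀ v ∈ A, Deg p J GG T0 Tm C Rt κ n (del v f) z α (C * t) 2 := by
    rintro v hvA
    obtain ⟨u, hu, u', hu', hv⟩ := hvA
    have hvG : v ∈ GG t := hAG ⟨u, hu, u', hu', hv⟩
    have e1 : z * u' = z * u * v := by rw [hv]; group
    have d1 : Deg p J GG T0 Tm C Rt κ n (fun x => f (x * v)) (z * u) α (C * t) 1 := by
      rw [deg_trans p hp T0 Tm C Rt κ S, ← e1]
      exact hu'.2
    have d2 := deg_sub p hp T0 Tm C Rt κ S d1 hu.2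
    have e2 : (fun x => f (x * v)) - f = del v f := rfl
    rw [e2, hmove v hvG u hu.1] at d2
    exact d2
  -- (iv)
  have h4 : ∀ l : List Γ, (∀ b ∈ l, b ∈ A) → l.prod ∈ GG t ∧
      Deg p J GG T0 Tm C Rt κ n (del l.prod f) z α (C * t) (2 * l.length) := by
    intro l
    induction l with
    | nil =>
      intro _
      exact ⟨(GG t).one_mem, h2 1 (DD α).one_mem⟩
    | cons b l ih =>
      intro hl
      obtain ⟨i1, i2⟩ := ih (fun b' hb' => hl b' (List.mem_cons_of_mem _ hb'))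
      have hb := hl b List.mem_cons_self
      refine ⟨?_, ?_⟩
      · rw [List.prod_cons]
        exact (GG t).mul_mem (hAG hb) i1
      · rw [List.prod_cons, List.length_cons]
        have h5 := h3 b (hAG hb) l.prod i1 2 (2 * l.length) (h1 b hb) i2
        have e3 : 2 * (l.length + 1) = 2 + 2 * l.length := by ring
        rw [e3]
        exact h5
  refine ⟨Subgroup.closure A, hKG, ?_, ?_⟩
  · -- index
    have hKpos : 0 < Nat.card (Subgroup.closure A) := Nat.card_pos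
    have hle : Nat.card A0 ≤ Nat.card (Subgroup.closure A) := by
      let i : A0 → Subgroup.closure A := fun u => ⟨u0⁻¹ * u.1, Subgroup.subset_closure
        ⟨u0, hu0, u.1, u.2, rfl⟩⟩
      apply Nat.card_le_card_of_injective i
      intro a b hab
      have h5 : u0⁻¹ * a.1 = u0⁻¹ * b.1 := congrArg Subtype.val hab
      exact Subtype.ext (mul_left_cancel h5)
    have hmul : (Subgroup.closure A).relIndex (GG t) * Nat.card (Subgroup.closure A) =
        Nat.card (GG t) := by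
      have h5 := Subgroup.card_mul_index ((Subgroup.closure A).subgroupOf (GG t))
      have h6 : Nat.card ((Subgroup.closure A).subgroupOf (GG t)) = Nat.card (Subgroup.closure A) :=
        Nat.card_congr (Subgroup.subgroupOfEquivOfLe hKG).toEquiv
      rw [h6, mul_comm] at h5
      exact h5
    rw [one_mul]
    apply Nat.le_of_mul_le_mul_right _ hKpos
    rw [hmul]
    exact hcard'.trans (Nat.mul_le_mul_left _ hle)
  · intro v hv
    obtain ⟨l, hl1, hl2, hl3⟩ := EA A hAG v hv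
    obtain ⟨i1, i2⟩ := h4 l hl1
    have hw : v * (l.prod)⁻¹ ∈ GG t := (GG t).mul_mem (hKG hv) ((GG t).inv_mem i1)
    have h5 := h3 _ hw _ i1 0 (2 * l.length) (h2 _ hl3) i2
    rw [inv_mul_cancel_right] at h5
    exact deg_mono p hp T0 Tm C Rt κ S (by omega) le_rfl (by omega) h5

end FPD
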