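import Pool.Agent.Helper993.FP.GG0
set_option autoImplicit false
set_option linter.all false

namespace FPG
open FPA FPD FPW

section
variable {p : ℕ} [Fact p.Prime] {H R : Type} [Group H] [Ring R] [Algebra (ZMod p) R] {ι : H →* R}
  {J : ℕ → Submodule (ZMod p) R} (F : Flt ι J) {d : ℕ} (g : Fin d → H)

end

variable (p : ℕ) [Fact p.Prime] (G : Type) [Group G] [TopologicalSpace G] [IsTopologicalGroup G] [CompactSpace G]
variable {d : ℕ} (g : Fin d → G)

/-- TARGET: generators of finite quotients -/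
theorem gen_quot (hg : Dense ((Subgroup.closure (Set.range g) : Subgroup G) : Set G)) (U : Subgroup G) [U.Normal]
    (hU : IsOpen (U : Set G)) :
    Subgroup.closure (Set.range (fun i => (QuotientGroup.mk (g i) : G ⧸ U))) = ⊤ := by
  rw [eq_top_iff]
  intro q _
  induction q using QuotientGroup.induction_on with
  | H h =>
    have hop : IsOpen ((fun x => h⁻¹ * x) ⁻¹' (U : Set G)) :=
      hU.preimage (continuous_const.mul continuous_id)
    obtain ⟨x, hx1, hx2⟩ := hg.inter_open_nonempty _ hop ⟨h, by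
      show h⁻¹ * h ∈ U
      rw [inv_mul_cancel]
      exact U.one_mem⟩
    have hmk : (QuotientGroup.mk h : G ⧸ U) = QuotientGroup.mk x := QuotientGroup.eq.2 hx1
    rw [hmk]
    have hr : Set.range (fun i => (QuotientGroup.mk (g i) : G ⧸ U)) =
        (QuotientGroup.mk' U) '' (Set.range g) := by
      rw [← Set.range_comp]
      rfl
    rw [hr, ← MonoidHom.map_closure]
    exact ⟨x, hx2, rfl⟩

/-- normality in the quotient by `U` -/
def Nrm (U : Subgroup G) [U.Normal] (w : List (Fin d)) : Prop :=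
  xw (MonoidAlgebra.of (ZMod p) (G ⧸ U)) (fun i => (QuotientGroup.mk (g i) : G ⧸ U)) w ∉
      TT (MonoidAlgebra.of (ZMod p) (G ⧸ U)) (Jm p (G ⧸ U)) (fun i => (QuotientGroup.mk (g i) : G ⧸ U)) w

omit [TopologicalSpace G] [IsTopologicalGroup G] [CompactSpace G] in
theorem nrm_persist (U U' : Subgroup G) [U.Normal] [U'.Normal] (hUU : U' ≤ U) (w : List (Fin d))
    (h : Nrm p G g U w) : Nrm p G g U' w := by
  intro hcon
  apply h
  exact TT_map p (QuotientGroup.map U' U (MonoidHom.id G) hUU)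
    (fun i => (QuotientGroup.mk (g i) : G ⧸ U')) w hcon

/-- TARGET -/
theorem lang_factor (u v w : List (Fin d)) (h : u ++ v ++ w ∈ Ng p G g) : v ∈ Ng p G g := by
  obtain ⟨U, hUn, hUo, hU⟩ := h
  exact ⟨U, hUn, hUo, normal_factor (flt_mon p (G ⧸ U)) _ u v w hU⟩

/-- value of the inner suprema -/
noncomputable def phi (n : ℕ) (N : Subgroup G) : ℕ :=
  ⨆ (_ : IsOpen (N : Set G)) (hN : N.Normal),
    Module.finrank (ZMod p) (MonoidAlgebra (ZMod p) (G ⧸ N) ⧸
      (Submodule.span (ZMod p) (Set.range (fun g : G ⧸ N => MonoidAlgebra.of (ZMod p) (G ⧸ N) g - 1))) ^ n)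

omit [IsTopologicalGroup G] [CompactSpace G] in
theorem phi_eq (n : ℕ) (N : Subgroup G) (ho : IsOpen (N : Set G)) [hN : N.Normal] :
    phi p G n N = Module.finrank (ZMod p) (MonoidAlgebra (ZMod p) (G ⧸ N) ⧸
      (Submodule.span (ZMod p) (Set.range (fun g : G ⧸ N => MonoidAlgebra.of (ZMod p) (G ⧸ N) g - 1))) ^ n) := by
  unfold phi
  rw [ciSup_pos ho, ciSup_pos hN]

omit [IsTopologicalGroup G] [CompactSpace G] in
theorem phi_zero (n : ℕ) (N : Subgroup G) (h : ¬ (IsOpen (N : Set G) ∧ N.Normal)) :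
    phi p G n N = 0 := by
  unfold phi
  by_cases ho : IsOpen (N : Set G)
  · have hN : ¬ N.Normal := fun hN => h ⟨ho, hN⟩
    rw [ciSup_pos ho, ciSup_neg hN]
    simp
  · rw [ciSup_neg ho]
    simp

theorem jm_eq (p : ℕ) [Fact p.Prime] (H : Type) [Group H] (n : ℕ) (hn : 1 ≤ n) : Jm p H n =
    (Submodule.span (ZMod p) (Set.range (fun g : H => MonoidAlgebra.of (ZMod p) H g - 1))) ^ n := by
  unfold Jm
  rw [if_neg (by omega)]

theorem finrank_mono_aux (p : ℕ) [Fact p.Prime] (H : Type) [Group H] [Finite H] (n : ℕ)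
    (hn : 1 ≤ n) :
    Module.finrank (ZMod p) (MonoidAlgebra (ZMod p) H ⧸ Jm p H n) ≤
      Module.finrank (ZMod p) (MonoidAlgebra (ZMod p) H ⧸ Jm p H (n + 1)) := by
  have hfin : Module.Finite (ZMod p) (MonoidAlgebra (ZMod p) H) := inferInstance
  have hle : Jm p H (n + 1) ≤ Jm p H n := (flt_mon p H).anti n
  exact LinearMap.finrank_le_finrank_of_surjective (f := Submodule.factor hle)
    (Submodule.factor_surjective hle)

theorem phi_mono (n : ℕ) (hn : 1 ≤ n) (N : Subgroup G) : phi p G n N ≤ phi p G (n + 1) N := by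
  by_cases h : IsOpen (N : Set G) ∧ N.Normal
  · obtain ⟨ho, hN⟩ := h
    haveI : Finite (G ⧸ N) := Subgroup.quotient_finite_of_isOpen N ho
    rw [phi_eq p G n N ho, phi_eq p G (n + 1) N ho, ← jm_eq p (G ⧸ N) n hn,
      ← jm_eq p (G ⧸ N) (n + 1) (by omega)]
    exact finrank_mono_aux p (G ⧸ N) n hn
  · rw [phi_zero p G n N h]
    exact Nat.zero_le _

/-- TARGET -/
theorem lang_growth (hg : Dense ((Subgroup.closure (Set.range g) : Subgroup G) : Set G)) (r : ℝ) (hr : 1 < r)
    (hgr : ∀ n : ℕ, 1 ≤ n → r ^ n ≤ ((An p G (n + 1) - An p G n : ℕ) : ℝ)) (n : ℕ) (hn : 1 ≤ n) :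
    r ^ n ≤ (an' (Ng p G g) n : ℝ) := by
  have hAn : ∀ k, An p G k = ⨆ N : Subgroup G, phi p G k N := fun k => rfl
  have h1 := hgr n hn
  have hrn : 0 < r ^ n := by positivity
  have h2 : 0 < An p G (n + 1) - An p G n := by
    have : (0 : ℝ) < ((An p G (n + 1) - An p G n : ℕ) : ℝ) := lt_of_lt_of_le hrn h1
    exact_mod_cast this
  have hbdd : BddAbove (Set.range fun N : Subgroup G => phi p G (n + 1) N) := by
    by_contra hcon
    have h3 : An p G (n + 1) = 0 := by
      rw [hAn]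
      exact Nat.sSup_of_not_bddAbove hcon
    omega
  obtain ⟨N, hN⟩ : ∃ N : Subgroup G, phi p G (n + 1) N = An p G (n + 1) := by
    rw [hAn]
    exact Nat.sSup_mem (Set.range_nonempty _) hbdd
  have hNo : IsOpen (N : Set G) ∧ N.Normal := by
    by_contra hcon
    rw [phi_zero p G (n + 1) N hcon] at hN
    omega
  obtain ⟨ho, hNn⟩ := hNo
  haveI : Finite (G ⧸ N) := Subgroup.quotient_finite_of_isOpen N ho
  have hbdd2 : BddAbove (Set.range fun N : Subgroup G => phi p G n N) := by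
    obtain ⟨B, hB⟩ := hbdd
    refine ⟨B, ?_⟩
    rintro _ ⟨N', rfl⟩
    exact (phi_mono p G n hn N').trans (hB ⟨N', rfl⟩)
  have h3 : phi p G n N ≤ An p G n := by
    rw [hAn]
    exact le_ciSup hbdd2 N
  have hfin : Module.Finite (ZMod p) (MonoidAlgebra (ZMod p) (G ⧸ N)) := inferInstance
  have hgen := gen_mon p (G ⧸ N) (fun i => (QuotientGroup.mk (g i) : G ⧸ N)) (gen_quot G g hg N ho)
  have h4 := normal_count (flt_mon p (G ⧸ N)) _ hgen n inferInstance
  rw [jm_eq p (G ⧸ N) n hn, jm_eq p (G ⧸ N) (n + 1) (by omega), ← phi_eq p G n N ho,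
    ← phi_eq p G (n + 1) N ho, hN] at h4
  have h5 : Set.ncard {w : List (Fin d) | w.length = n ∧
      xw (MonoidAlgebra.of (ZMod p) (G ⧸ N)) (fun i => (QuotientGroup.mk (g i) : G ⧸ N)) w ∉
      TT (MonoidAlgebra.of (ZMod p) (G ⧸ N))
        (fun n => Jm p (G ⧸ N) n) (fun i => (QuotientGroup.mk (g i) : G ⧸ N)) w} ≤
      an' (Ng p G g) n := by
    unfold an'
    apply Set.ncard_le_ncard
    · rintro w ⟨hw1, hw2⟩
      exact ⟨⟨N, hNn, ho, hw2⟩, hw1⟩
    · exact (List.finite_length_eq (Fin d) n).subset (fun w hw => hw.2)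
  refine h1.trans ?_
  have h6 : An p G (n + 1) - An p G n ≤ an' (Ng p G g) n := by
    have h7 := le_trans h4 (Nat.add_le_add h3 h5)
    omega
  exact_mod_cast h6

/-- TARGET -/
theorem lang_uniform (nmax : ℕ) : ∃ (U : Subgroup G) (_ : U.Normal), IsOpen (U : Set G) ∧
    ∀ (U' : Subgroup G) (_ : U'.Normal), IsOpen (U' : Set G) → U' ≤ U → ∀ w ∈ Ng p G g, w.length ≤ nmax →
      xw (MonoidAlgebra.of (ZMod p) (G ⧸ U')) (fun i => (QuotientGroup.mk (g i) : G ⧸ U')) w ∉
        TT (MonoidAlgebra.of (ZMod p) (G ⧸ U')) (Jm p (G ⧸ U')) (fun i => (QuotientGroup.mk (g i) : G ⧸ U')) w := by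
  classical
  have key : ∀ s : Finset (List (Fin d)), ∃ (U : Subgroup G) (_ : U.Normal), IsOpen (U : Set G) ∧
      ∀ (U' : Subgroup G) (_ : U'.Normal), U' ≤ U → ∀ w ∈ s, w ∈ Ng p G g → Nrm p G g U' w := by
    intro s
    induction s using Finset.induction_on with
    | empty =>
      exact ⟨⊤, inferInstance, isOpen_univ, fun U' _ _ w hw => absurd hw (Finset.notMem_empty w)⟩
    | insert a s ha ih =>
      obtain ⟨U, hUn, hUo, hU⟩ := ih
      by_cases haN : a ∈ Ng p G g
      · obtain ⟨V, hVn, hVo, hV⟩ := haN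
        refine ⟨U ⊓ V, inferInstance, hUo.inter hVo, ?_⟩
        intro U' hU' hle w hw hwN
        rcases Finset.mem_insert.1 hw with rfl | hw
        · exact nrm_persist p G g V U' (hle.trans inf_le_right) w hV
        · exact hU U' hU' (hle.trans inf_le_left) w hw hwN
      · refine ⟨U, hUn, hUo, ?_⟩
        intro U' hU' hle w hw hwN
        rcases Finset.mem_insert.1 hw with rfl | hw
        · exact absurd hwN haN
        · exact hU U' hU' hle w hw hwN
  obtain ⟨U, hUn, hUo, hU⟩ := key (List.finite_length_le (Fin d) nmax).toFinset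
  refine ⟨U, hUn, hUo, ?_⟩
  intro U' hU' _ hle w hw hwl
  exact hU U' hU' hle w (by simpa using hwl) hw

end FPG
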