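import Pool.Agent.Helper993.FP.G1
import Pool.Agent.Helper993.FP.A15
set_option autoImplicit false
set_option linter.all false

namespace FPW
end FPW

namespace FPG
open FPA FPD FPW

/-- TARGET: one step of the construction -/
theorem gstep (p : ℕ) [Fact p.Prime] (G : Type) [Group G] [TopologicalSpace G] [IsTopologicalGroup G]
    [CompactSpace G] (hG : ∀ N : Subgroup G, IsOpen (N : Set G) → N.Normal → ∃ k : ℕ, N.index = p ^ k)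
    {d : ℕ} (g : Fin d → G)
    (hg : Dense ((Subgroup.closure (Set.range g) : Subgroup G) : Set G)) (r : ℝ) (hr : 1 < r)
    (hgr : ∀ n : ℕ, 1 ≤ n → r ^ n ≤ ((An p G (n + 1) - An p G n : ℕ) : ℝ))
    (μ : ℝ) (h1 : 1 < μ) (h2 : μ < r) (s : ℕ) (hs1 : 1 ≤ s) (hs2 : (256 : ℝ) ≤ μ ^ s) (k : ℕ) (hk : 1 ≤ k)
    (U0 : Subgroup G) [U0.Normal] (hU0 : IsOpen (U0 : Set G)) (x0 y0 : G) (hx0 : x0 ∈ Gf G s) (hy0 : y0 ∈ Gf G s) :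
    ∃ x y : G, x ∈ Gf G s ∧ y ∈ Gf G s ∧ x0⁻¹ * x ∈ U0 ∧ y0⁻¹ * y ∈ U0 ∧
      ∃ (U : Subgroup G) (_ : U.Normal), IsOpen (U : Set G) ∧ U ≤ U0 ∧ Good p G x y k U := by
  classical
  haveI hfin0 : Finite (G ⧸ U0) := Subgroup.quotient_finite_of_isOpen U0 hU0
  obtain ⟨k', hk'⟩ := hG U0 hU0 inferInstance
  obtain ⟨n0, hn0, hJ0⟩ := aug_nilp p (G ⧸ U0) ⟨k', by rw [← hk']; rfl⟩
  have hGf0 : Gf (G ⧸ U0) n0 = ⊥ := by
    rw [eq_bot_iff]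
    refine (Gf_le (flt_mon p (G ⧸ U0)) n0).trans ?_
    intro h hh
    change MonoidAlgebra.of (ZMod p) (G ⧸ U0) h - 1 ∈ Jm p (G ⧸ U0) n0 at hh
    rw [hJ0, Submodule.mem_bot, sub_eq_zero] at hh
    rw [Subgroup.mem_bot]
    have h3 : MonoidAlgebra.of (ZMod p) (G ⧸ U0) h = MonoidAlgebra.of (ZMod p) (G ⧸ U0) 1 := by
      rw [hh, map_one]
    exact MonoidAlgebra.of_injective h3
  have hGfU : Gf G n0 ≤ U0 := by
    intro v hv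
    have h4 : (QuotientGroup.mk' U0) v ∈ Gf (G ⧸ U0) n0 := by
      rw [← Gf_map (QuotientGroup.mk' U0) (QuotientGroup.mk'_surjective U0) n0]
      exact Subgroup.mem_map_of_mem _ hv
    rw [hGf0, Subgroup.mem_bot] at h4
    exact (QuotientGroup.eq_one_iff v).1 h4
  obtain ⟨nmax, hM⟩ := MFT p d (Ng p G g) (lang_factor p G g) r hr
    (fun n hn => lang_growth p G g hg r hr hgr n hn) μ h1 h2 s hs1 hs2 k hk (max n0 s)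
  obtain ⟨U1, hU1n, hU1o, hU1⟩ := lang_uniform p G g nmax
  haveI := hU1n
  haveI hUn : (U0 ⊓ U1).Normal := inferInstance
  have hUo : IsOpen ((U0 ⊓ U1 : Subgroup G) : Set G) := by
    rw [Subgroup.coe_inf]; exact hU0.inter hU1o
  haveI hfinU : Finite (G ⧸ (U0 ⊓ U1)) := Subgroup.quotient_finite_of_isOpen (U0 ⊓ U1) hUo
  have hmem : ∀ (v : G) (n : ℕ), v ∈ Gf G n → (QuotientGroup.mk v : G ⧸ (U0 ⊓ U1)) ∈ Gf (G ⧸ (U0 ⊓ U1)) n := by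
    intro v n hv
    rw [← Gf_map (QuotientGroup.mk' (U0 ⊓ U1)) (QuotientGroup.mk'_surjective (U0 ⊓ U1)) n]
    exact Subgroup.mem_map_of_mem (QuotientGroup.mk' (U0 ⊓ U1)) hv
  obtain ⟨⟨u1, u2⟩, hu, hf⟩ := hM (G ⧸ (U0 ⊓ U1)) (MonoidAlgebra (ZMod p) (G ⧸ (U0 ⊓ U1)))
    (MonoidAlgebra.of (ZMod p) (G ⧸ (U0 ⊓ U1))) (Jm p (G ⧸ (U0 ⊓ U1))) (flt_mon p (G ⧸ (U0 ⊓ U1)))
    (fun i => (QuotientGroup.mk (g i) : G ⧸ (U0 ⊓ U1)))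
    (gen_mon p (G ⧸ (U0 ⊓ U1)) _ (gen_quot G g hg (U0 ⊓ U1) hUo))
    (hU1 (U0 ⊓ U1) inferInstance hUo inf_le_right)
    ((QuotientGroup.mk x0 : G ⧸ (U0 ⊓ U1)), (QuotientGroup.mk y0 : G ⧸ (U0 ⊓ U1)))
    (Subgroup.mem_prod.2 ⟨hmem x0 s hx0, hmem y0 s hy0⟩)
  obtain ⟨hu1, hu2⟩ := Subgroup.mem_prod.1 hu
  have hlift : ∀ (u : G ⧸ (U0 ⊓ U1)) (n : ℕ), u ∈ Gf (G ⧸ (U0 ⊓ U1)) n →
      ∃ v ∈ Gf G n, (QuotientGroup.mk v : G ⧸ (U0 ⊓ U1)) = u := by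
    intro u n hu
    rw [← Gf_map (QuotientGroup.mk' (U0 ⊓ U1)) (QuotientGroup.mk'_surjective (U0 ⊓ U1)) n] at hu
    obtain ⟨v, hv, hvu⟩ := Subgroup.mem_map.1 hu
    exact ⟨v, hv, hvu⟩
  obtain ⟨v1, hv1, hv1u⟩ := hlift u1 _ hu1
  obtain ⟨v2, hv2, hv2u⟩ := hlift u2 _ hu2
  refine ⟨x0 * v1, y0 * v2, mul_mem hx0 (Gf_anti G s _ (le_max_right _ _) hv1),
    mul_mem hy0 (Gf_anti G s _ (le_max_right _ _) hv2), ?_, ?_, U0 ⊓ U1, hUn, hUo, inf_le_left, ?_⟩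
  · rw [inv_mul_cancel_left]
    exact hGfU (Gf_anti G n0 _ (le_max_left _ _) hv1)
  · rw [inv_mul_cancel_left]
    exact hGfU (Gf_anti G n0 _ (le_max_left _ _) hv2)
  · intro f hf1 hf2
    have := hf f hf1 hf2
    subst hv1u
    subst hv2u
    exact this

end FPG
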