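import Pool.Agent.Helper993.FP.G1
set_option autoImplicit false
set_option linter.all false

namespace FPG
open FPA FPD FPW

/-- state of the recursion -/
structure LSt (G : Type) [Group G] [TopologicalSpace G] (s : ℕ) where
  x : G
  y : G
  U : Subgroup G
  nor : U.Normal
  op : IsOpen (U : Set G)
  hx : x ∈ Gf G s
  hy : y ∈ Gf G s

theorem Good_congr (p : ℕ) [Fact p.Prime] (G : Type) [Group G] (x y x' y' : G) (k : ℕ)
    (U : Subgroup G) [U.Normal] (hx : x⁻¹ * x' ∈ U) (hy : y⁻¹ * y' ∈ U) (h : Good p G x y k U) :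
    Good p G x' y' k U := by
  have e1 : (QuotientGroup.mk x : G ⧸ U) = QuotientGroup.mk x' := QuotientGroup.eq.2 hx
  have e2 : (QuotientGroup.mk y : G ⧸ U) = QuotientGroup.mk y' := QuotientGroup.eq.2 hy
  unfold Good at h ⊢
  rw [← e1, ← e2]
  exact h

/-- TARGET: passage to the limit -/
theorem limit (p : ℕ) [Fact p.Prime] (G : Type) [Group G] [TopologicalSpace G] [IsTopologicalGroup G]
    [CompactSpace G] (s : ℕ)
    (hstep : ∀ (k : ℕ), 1 ≤ k → ∀ (U0 : Subgroup G) (_ : U0.Normal), IsOpen (U0 : Set G) → ∀ x0 y0 : G,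
      x0 ∈ Gf G s → y0 ∈ Gf G s →
      ∃ x y : G, x ∈ Gf G s ∧ y ∈ Gf G s ∧ x0⁻¹ * x ∈ U0 ∧ y0⁻¹ * y ∈ U0 ∧
        ∃ (U : Subgroup G) (_ : U.Normal), IsOpen (U : Set G) ∧ U ≤ U0 ∧ Good p G x y k U) :
    ∃ x y : G, ∀ k, 1 ≤ k → ∃ (U : Subgroup G) (_ : U.Normal), IsOpen (U : Set G) ∧ Good p G x y k U := by
  have hs : ∀ (k : ℕ) (S : LSt G s), ∃ T : LSt G s, S.x⁻¹ * T.x ∈ S.U ∧ S.y⁻¹ * T.y ∈ S.U ∧
      T.U ≤ S.U ∧ @Good p _ G _ T.x T.y (k + 1) T.U T.nor := by
    intro k S
    obtain ⟨x, y, hx, hy, h1, h2, U, hU, hop, hle, hg⟩ :=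
      hstep (k + 1) (by omega) S.U S.nor S.op S.x S.y S.hx S.hy
    exact ⟨⟨x, y, U, hU, hop, hx, hy⟩, h1, h2, hle, hg⟩
  choose nxt hn1 hn2 hn3 hn4 using hs
  let S0 : LSt G s := ⟨1, 1, ⊤, inferInstance, isOpen_univ, one_mem _, one_mem _⟩
  let sq : ℕ → LSt G s := fun k => Nat.rec S0 (fun k S => nxt k S) k
  have hsq : ∀ k, sq (k + 1) = nxt k (sq k) := fun k => rfl
  have key : ∀ (c : LSt G s → G), (∀ k S, (c S)⁻¹ * c (nxt k S) ∈ S.U) →
      ∃ x : G, ∀ k, (c (sq k))⁻¹ * x ∈ (sq k).U := by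
    intro c hc
    have := IsCompact.nonempty_iInter_of_sequence_nonempty_isCompact_isClosed
      (fun k => {g : G | (c (sq k))⁻¹ * g ∈ (sq k).U}) ?_ ?_ ?_ ?_
    · obtain ⟨x, hx⟩ := this
      exact ⟨x, fun k => Set.mem_iInter.1 hx k⟩
    · intro k g hg
      have h1 : (c (sq (k + 1)))⁻¹ * g ∈ (sq (k + 1)).U := hg
      have h2 := hc k (sq k)
      rw [← hsq k] at h2
      have h3 : (sq (k + 1)).U ≤ (sq k).U := by rw [hsq]; exact hn3 k (sq k)
      have h4 := mul_mem h2 (h3 h1)
      have h5 : (c (sq k))⁻¹ * c (sq (k + 1)) * ((c (sq (k + 1)))⁻¹ * g) = (c (sq k))⁻¹ * g := by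
        group
      rw [h5] at h4
      exact h4
    · intro k
      exact ⟨c (sq k), by simp [one_mem]⟩
    · have : IsClosed ((sq 0).U : Set G) := Subgroup.isClosed_of_isOpen _ (sq 0).op
      exact (this.preimage (continuous_const_mul (c (sq 0))⁻¹)).isCompact
    · intro k
      have : IsClosed ((sq k).U : Set G) := Subgroup.isClosed_of_isOpen _ (sq k).op
      exact this.preimage (continuous_const_mul (c (sq k))⁻¹)
  obtain ⟨x, hx⟩ := key (fun S => S.x) (fun k S => hn1 k S)
  obtain ⟨y, hy⟩ := key (fun S => S.y) (fun k S => hn2 k S)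
  refine ⟨x, y, ?_⟩
  intro k hk
  obtain ⟨m, rfl⟩ : ∃ m, k = m + 1 := ⟨k - 1, by omega⟩
  refine ⟨(sq (m + 1)).U, (sq (m + 1)).nor, (sq (m + 1)).op, ?_⟩
  have hg := hn4 m (sq m)
  have := @Good_congr p _ G _ _ _ x y (m + 1) _ (sq (m + 1)).nor (hx (m + 1)) (hy (m + 1)) hg
  exact this

section words
variable {p : ℕ} {H R : Type} [Group H] [Ring R] [Algebra (ZMod p) R]

/-- positive word -/
def Wd (z : H × H) (w : List Bool) : H := (w.map (fun b => if b then z.1 else z.2)).prod

theorem Wd_nil (z : H × H) : Wd z [] = 1 := rfl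

theorem Wd_cons (z : H × H) (b : Bool) (w : List Bool) :
    Wd z (b :: w) = (if b then z.1 else z.2) * Wd z w := by simp [Wd]

theorem Wd_append (z : H × H) (v w : List Bool) : Wd z (v ++ w) = Wd z v * Wd z w := by simp [Wd]

/-- expansion of a positive word -/
noncomputable def Ew (p : ℕ) : List Bool → (List Bool →₀ ZMod p)
  | [] => Finsupp.single [] 1
  | (b :: w) => Ew p w + (Ew p w).mapDomain (List.cons b)

theorem mon_cons (ι : H →* R) (b : Bool) (w : List Bool) (z : H × H) :
    mon ι (b :: w) z = (ι (if b then z.1 else z.2) - 1) * mon ι w z := by simp [mon]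

theorem ev_add (ι : H →* R) (f g : List Bool →₀ ZMod p) (z : H × H) :
    ev ι (f + g) z = ev ι f z + ev ι g z := by
  unfold ev
  exact Finsupp.sum_add_index' (by intros; simp) (by intros; rw [add_smul])

theorem ev_sub (ι : H →* R) (f g : List Bool →₀ ZMod p) (z : H × H) :
    ev ι (f - g) z = ev ι f z - ev ι g z := by
  unfold ev
  exact Finsupp.sum_sub_index (by intros; rw [sub_smul])

theorem ev_mapcons (ι : H →* R) (f : List Bool →₀ ZMod p) (b : Bool) (z : H × H) :
    ev ι (f.mapDomain (List.cons b)) z = (ι (if b then z.1 else z.2) - 1) * ev ι f z := by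
  unfold ev
  rw [Finsupp.sum_mapDomain_index (by intros; simp) (by intros; rw [add_smul]), Finsupp.sum,
    Finsupp.sum, Finset.mul_sum]
  refine Finset.sum_congr rfl fun w _ => ?_
  rw [mon_cons, mul_smul_comm]

theorem ev_Ew (ι : H →* R) (w : List Bool) (z : H × H) : ev ι (Ew p w) z = ι (Wd z w) := by
  induction w with
  | nil =>
    unfold ev Ew
    rw [Finsupp.sum_single_index (by simp)]
    simp [mon, Wd]
  | cons b w ih =>
    rw [Ew, ev_add, ev_mapcons, ih, Wd_cons, map_mul]
    noncomm_ring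

theorem Ew_nil (w : List Bool) : Ew p w [] = 1 := by
  induction w with
  | nil => simp [Ew]
  | cons b w ih =>
    rw [Ew, Finsupp.add_apply, ih, Finsupp.mapDomain_notin_range, add_zero]
    rintro ⟨v, hv⟩
    cases hv

theorem ev_map {H' R' : Type} [Group H'] [Ring R'] [Algebra (ZMod p) R'] (ι : H →* R)
    (ι' : H' →* R') (π : H →* H') (φ : R →ₐ[ZMod p] R') (h : ∀ g, φ (ι g) = ι' (π g))
    (f : List Bool →₀ ZMod p) (z : H × H) : φ (ev ι f z) = ev ι' f (π z.1, π z.2) := by
  have hmon : ∀ w, φ (mon ι w z) = mon ι' w (π z.1, π z.2) := by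
    intro w
    induction w with
    | nil => simp [mon]
    | cons b w ih =>
      rw [mon_cons, mon_cons, map_mul, ih, map_sub, map_one, h]
      cases b <;> simp
  unfold ev
  rw [Finsupp.sum, Finsupp.sum, map_sum]
  refine Finset.sum_congr rfl fun w _ => ?_
  rw [map_smul, hmon]

end words

theorem Good_mono (p : ℕ) [Fact p.Prime] (G : Type) [Group G] (x y : G) (k : ℕ)
    (U V : Subgroup G) [U.Normal] [V.Normal] (hUV : V ≤ U) (h : Good p G x y k U) :
    Good p G x y k V := by
  intro f h1 h2 h3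
  apply h f h1 h2
  have hm : V ≤ U.comap (MonoidHom.id G) := hUV
  have := ev_map (MonoidAlgebra.of (ZMod p) (G ⧸ V)) (MonoidAlgebra.of (ZMod p) (G ⧸ U))
    (QuotientGroup.map V U (MonoidHom.id G) hm)
    (MonoidAlgebra.lift (ZMod p) _ _ ((MonoidAlgebra.of (ZMod p) (G ⧸ U)).comp
      (QuotientGroup.map V U (MonoidHom.id G) hm)))
    (fun g => by rw [MonoidAlgebra.lift_of]; rfl) f
    ((QuotientGroup.mk x : G ⧸ V), (QuotientGroup.mk y : G ⧸ V))
  rw [h3, map_zero] at this
  exact this.symm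

theorem Good_all (p : ℕ) [Fact p.Prime] (G : Type) [Group G] [TopologicalSpace G] (x y : G)
    (h : ∀ k, 1 ≤ k → ∃ (U : Subgroup G) (_ : U.Normal), IsOpen (U : Set G) ∧ Good p G x y k U)
    (n : ℕ) : ∃ (U : Subgroup G) (_ : U.Normal), IsOpen (U : Set G) ∧
      ∀ k, 1 ≤ k → k ≤ n → Good p G x y k U := by
  induction n with
  | zero => exact ⟨⊤, inferInstance, isOpen_univ, fun k h1 h2 => by omega⟩
  | succ n ih =>
    obtain ⟨U, hU, hop, hg⟩ := ih
    obtain ⟨V, hV, hop', hg'⟩ := h (n + 1) (by omega)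
    have hUV : (U ⊓ V).Normal := Subgroup.normal_inf_normal U V
    refine ⟨U ⊓ V, hUV, hop.inter hop', ?_⟩
    intro k h1 h2
    rcases Nat.lt_or_ge n k with h3 | h3
    · have : k = n + 1 := by omega
      subst this
      exact Good_mono p G x y _ V (U ⊓ V) inf_le_right hg'
    · exact Good_mono p G x y _ U (U ⊓ V) inf_le_left (hg k h1 h3)

theorem vanish (p : ℕ) [Fact p.Prime] (G : Type) [Group G] (x y : G) (U : Subgroup G) [U.Normal]
    (n : ℕ) (hg : ∀ k, 1 ≤ k → k ≤ n → Good p G x y k U) (f : List Bool →₀ ZMod p)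
    (h0 : f [] = 0)
    (hf : ev (MonoidAlgebra.of (ZMod p) (G ⧸ U)) f
      ((QuotientGroup.mk x : G ⧸ U), (QuotientGroup.mk y : G ⧸ U)) = 0) :
    ∀ m, m ≤ n → ∀ w : List Bool, w.length = m → f w = 0 := by
  intro m
  induction m using Nat.strong_induction_on with
  | _ m ih =>
    intro hm w hw
    rcases Nat.eq_zero_or_pos m with h | h
    · subst h
      rw [List.length_eq_zero_iff.1 hw]; exact h0
    · by_contra hc
      exact hg m h hm f (fun v hv => ih v.length hv (by omega) v rfl) ⟨w, hw, hc⟩ hf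

theorem Jm_mon (p : ℕ) (P : Type) [Group P] (n : ℕ) (hn : 1 ≤ n) (z : P × P) (w : List Bool)
    (hw : n ≤ w.length) : mon (MonoidAlgebra.of (ZMod p) P) w z ∈ Jm p P n := by
  set I : Submodule (ZMod p) (MonoidAlgebra (ZMod p) P) :=
    Submodule.span (ZMod p) (Set.range (fun g : P => MonoidAlgebra.of (ZMod p) P g - 1)) with hI
  have hII : I * I ≤ I := by
    rw [hI, Submodule.span_mul_span, Submodule.span_le]
    rintro _ ⟨_, ⟨g, rfl⟩, _, ⟨h, rfl⟩, rfl⟩
    have e : (MonoidAlgebra.of (ZMod p) P g - 1) * (MonoidAlgebra.of (ZMod p) P h - 1) =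
        (MonoidAlgebra.of (ZMod p) P (g * h) - 1) - (MonoidAlgebra.of (ZMod p) P g - 1) -
          (MonoidAlgebra.of (ZMod p) P h - 1) := by
      rw [map_mul]; noncomm_ring
    show (MonoidAlgebra.of (ZMod p) P g - 1) * (MonoidAlgebra.of (ZMod p) P h - 1) ∈ _
    rw [e]
    exact sub_mem (sub_mem (Submodule.subset_span ⟨_, rfl⟩) (Submodule.subset_span ⟨_, rfl⟩))
      (Submodule.subset_span ⟨_, rfl⟩)
  have hpow : ∀ m, 1 ≤ m → I ^ (m + 1) ≤ I ^ m := by
    intro m hm
    induction m with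
    | zero => omega
    | succ m ih =>
      rcases Nat.eq_zero_or_pos m with h | h
      · subst h
        rw [pow_succ, pow_one]
        simpa using hII
      · rw [pow_succ, pow_succ I m]
        exact mul_le_mul' (ih h) le_rfl
  have hmono : ∀ m, n ≤ m → I ^ m ≤ I ^ n := by
    intro m hm
    induction m, hm using Nat.le_induction with
    | base => exact le_rfl
    | succ m hm ih => exact (hpow m (by omega)).trans ih
  have hmem : ∀ v : List Bool, mon (MonoidAlgebra.of (ZMod p) P) v z ∈ I ^ v.length := by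
    intro v
    induction v with
    | nil => simp [mon, Submodule.one_le.1 le_rfl]
    | cons b v ih =>
      rw [mon_cons, List.length_cons, pow_succ']
      exact Submodule.mul_mem_mul (Submodule.subset_span ⟨_, rfl⟩) ih
  unfold Jm
  rw [if_neg (by omega)]
  exact hmono _ hw (hmem w)

theorem word_of_mem {H : Type} [Group H] [Finite H] (u v h : H)
    (hh : h ∈ Subgroup.closure ({u, v} : Set H)) : ∃ w : List Bool, Wd (u, v) w = h := by
  induction hh using Subgroup.closure_induction with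
  | mem g hg =>
    rcases hg with rfl | hg
    · exact ⟨[true], by simp [Wd]⟩
    · rw [Set.mem_singleton_iff] at hg
      subst hg
      exact ⟨[false], by simp [Wd]⟩
  | one => exact ⟨[], rfl⟩
  | mul a b _ _ ha hb =>
    obtain ⟨w, rfl⟩ := ha
    obtain ⟨w', rfl⟩ := hb
    exact ⟨w ++ w', Wd_append _ _ _⟩
  | inv a _ ha =>
    obtain ⟨w, hw⟩ := ha
    have hpow : ∀ k : ℕ, ∃ w' : List Bool, Wd (u, v) w' = a ^ k := by
      intro k
      induction k with
      | zero => exact ⟨[], by simp [Wd]⟩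
      | succ k ih =>
        obtain ⟨w', hw'⟩ := ih
        exact ⟨w' ++ w, by rw [Wd_append, hw', hw, pow_succ]⟩
    obtain ⟨w', hw'⟩ := hpow (Nat.card H - 1)
    refine ⟨w', ?_⟩
    rw [hw']
    apply eq_inv_of_mul_eq_one_left
    rw [← pow_succ, Nat.sub_add_cancel Nat.card_pos, pow_card_eq_one']

/-- TARGET: the group topologically generated by `x, y` is free pro-p -/
theorem final (p : ℕ) [Fact p.Prime] (G : Type) [Group G] [TopologicalSpace G] [IsTopologicalGroup G]
    [CompactSpace G] (x y : G)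
    (h : ∀ k, 1 ≤ k → ∃ (U : Subgroup G) (_ : U.Normal), IsOpen (U : Set G) ∧ Good p G x y k U) :
    ∀ (P : Type) [Group P] [Fintype P], (∃ k : ℕ, Fintype.card P = p ^ k) →
        ∀ a b : P, ∃ f : (Subgroup.closure ({x, y} : Set G)).topologicalClosure →* P,
          IsOpen (f.ker : Set (Subgroup.closure ({x, y} : Set G)).topologicalClosure) ∧
          (∀ z : (Subgroup.closure ({x, y} : Set G)).topologicalClosure, (z : G) = x → f z = a) ∧
          (∀ z : (Subgroup.closure ({x, y} : Set G)).topologicalClosure, (z : G) = y → f z = b) := by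
  intro P _ _ hP a b
  haveI : Nontrivial (ZMod p) := (ZMod.nontrivial_iff).2 (Fact.out (p := p.Prime)).ne_one
  obtain ⟨n, hn1, hn⟩ := aug_nilp p P (by
    obtain ⟨k, hk⟩ := hP
    exact ⟨k, by rw [Nat.card_eq_fintype_card, hk]⟩)
  obtain ⟨U, hU, hop, hgood⟩ := Good_all p G x y h n
  haveI hfin : Finite (G ⧸ U) := Subgroup.quotient_finite_of_isOpen U hop
  -- well-definedness
  have hwd : ∀ w w' : List Bool,
      Wd ((QuotientGroup.mk x : G ⧸ U), (QuotientGroup.mk y : G ⧸ U)) w =
        Wd ((QuotientGroup.mk x : G ⧸ U), (QuotientGroup.mk y : G ⧸ U)) w' →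
      Wd (a, b) w = Wd (a, b) w' := by
    intro w w' hww
    have hf0 : (Ew p w - Ew p w') [] = 0 := by
      rw [Finsupp.sub_apply, Ew_nil, Ew_nil, sub_self]
    have hfe : ev (MonoidAlgebra.of (ZMod p) (G ⧸ U)) (Ew p w - Ew p w')
        ((QuotientGroup.mk x : G ⧸ U), (QuotientGroup.mk y : G ⧸ U)) = 0 := by
      rw [ev_sub, ev_Ew, ev_Ew, hww, sub_self]
    have hv := vanish p G x y U n hgood _ hf0 hfe
    have hz : ev (MonoidAlgebra.of (ZMod p) P) (Ew p w - Ew p w') (a, b) = 0 := by
      have hmem : ev (MonoidAlgebra.of (ZMod p) P) (Ew p w - Ew p w') (a, b) ∈ Jm p P n := by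
        unfold ev
        rw [Finsupp.sum]
        apply Submodule.sum_mem
        intro v hvs
        apply Submodule.smul_mem
        apply Jm_mon p P n hn1
        by_contra hlt
        exact (Finsupp.mem_support_iff.1 hvs) (hv v.length (by omega) v rfl)
      rw [hn] at hmem
      exact (Submodule.mem_bot _).1 hmem
    rw [ev_sub, ev_Ew, ev_Ew, sub_eq_zero] at hz
    exact MonoidAlgebra.of_injective hz
  -- words for elements of the closure
  have hword : ∀ z : (Subgroup.closure ({x, y} : Set G)).topologicalClosure, ∃ w : List Bool,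
      Wd ((QuotientGroup.mk x : G ⧸ U), (QuotientGroup.mk y : G ⧸ U)) w =
        (QuotientGroup.mk (z : G) : G ⧸ U) := by
    intro z
    apply word_of_mem
    have hz : (z : G) ∈ closure ((Subgroup.closure ({x, y} : Set G) : Subgroup G) : Set G) := z.2
    rw [mem_closure_iff] at hz
    obtain ⟨g, hg1, hg2⟩ := hz {g : G | (z : G)⁻¹ * g ∈ U}
      (hop.preimage (continuous_const_mul (z : G)⁻¹)) (by simp [one_mem])
    have e : (QuotientGroup.mk (z : G) : G ⧸ U) = QuotientGroup.mk g := QuotientGroup.eq.2 hg1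
    rw [e]
    have := Subgroup.mem_map_of_mem (QuotientGroup.mk' U) (SetLike.mem_coe.1 hg2)
    rw [MonoidHom.map_closure, Set.image_pair] at this
    exact this
  choose wd hwdz using hword
  let f : (Subgroup.closure ({x, y} : Set G)).topologicalClosure →* P :=
    { toFun := fun z => Wd (a, b) (wd z)
      map_one' := by
        have : Wd (a, b) (wd 1) = Wd (a, b) [] := by
          apply hwd
          rw [hwdz]; rfl
        rw [this]; rfl
      map_mul' := by
        intro z z'
        rw [← Wd_append]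
        apply hwd
        rw [hwdz, Wd_append, hwdz, hwdz]; rfl }
  have hf : ∀ (z : (Subgroup.closure ({x, y} : Set G)).topologicalClosure) (w : List Bool), Wd ((QuotientGroup.mk x : G ⧸ U), (QuotientGroup.mk y : G ⧸ U)) w =
        (QuotientGroup.mk (z : G) : G ⧸ U) → f z = Wd (a, b) w := by
    intro z w hzw
    show Wd (a, b) (wd z) = _
    apply hwd
    rw [hwdz, hzw]
  refine ⟨f, ?_, ?_, ?_⟩
  · apply Subgroup.isOpen_of_mem_nhds (g := 1)
    have hopen : IsOpen {z : (Subgroup.closure ({x, y} : Set G)).topologicalClosure | (z : G) ∈ U} :=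
      hop.preimage continuous_subtype_val
    apply Filter.mem_of_superset (hopen.mem_nhds (show ((1 : (Subgroup.closure ({x, y} : Set G)).topologicalClosure) : G) ∈ U from one_mem U))
    intro z hz
    show z ∈ f.ker
    rw [MonoidHom.mem_ker]
    have : f z = Wd (a, b) [] := by
      apply hf
      rw [Wd_nil]
      exact ((QuotientGroup.eq_one_iff _).2 hz).symm
    rw [this]; rfl
  · intro z hz
    have : f z = Wd (a, b) [true] := by
      apply hf
      rw [hz]; simp [Wd]
    rw [this]; simp [Wd]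
  · intro z hz
    have : f z = Wd (a, b) [false] := by
      apply hf
      rw [hz]; simp [Wd]
    rw [this]; simp [Wd]

end FPG
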