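import Pool.Agent.Helper993.FP.A14
set_option autoImplicit false
set_option linter.all false

namespace FPG
open FPA FPD FPW

noncomputable def an' {d : ℕ} (N : Set (List (Fin d))) (n : ℕ) : ℕ := Set.ncard {w : List (Fin d) | w ∈ N ∧ w.length = n}

/-- normal words of `G`: normal in some finite quotient -/
def Ng (p : ℕ) [Fact p.Prime] (G : Type) [Group G] [TopologicalSpace G] {d : ℕ} (g : Fin d → G) : Set (List (Fin d)) :=
  {w | ∃ (U : Subgroup G) (_ : U.Normal), IsOpen (U : Set G) ∧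
    xw (MonoidAlgebra.of (ZMod p) (G ⧸ U)) (fun i => (QuotientGroup.mk (g i) : G ⧸ U)) w ∉
      TT (MonoidAlgebra.of (ZMod p) (G ⧸ U)) (Jm p (G ⧸ U)) (fun i => (QuotientGroup.mk (g i) : G ⧸ U)) w}

/-- the supremum over finite quotients of the codimension of the `n`-th power of the augmentation ideal -/
noncomputable def An (p : ℕ) (G : Type) [Group G] [TopologicalSpace G] (n : ℕ) : ℕ :=
  ⨆ (N : Subgroup G) (_ : IsOpen (N : Set G)) (hN : N.Normal),
    Module.finrank (ZMod p) (MonoidAlgebra (ZMod p) (G ⧸ N) ⧸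
      (Submodule.span (ZMod p) (Set.range (fun g : G ⧸ N => MonoidAlgebra.of (ZMod p) (G ⧸ N) g - 1))) ^ n)

/-- in the quotient by `U` no polynomial of order exactly `k` vanishes at `(x,y)` -/
def Good (p : ℕ) [Fact p.Prime] (G : Type) [Group G] (x y : G) (k : ℕ) (U : Subgroup G) [U.Normal] : Prop :=
  ∀ f : List Bool →₀ ZMod p, (∀ w : List Bool, w.length < k → f w = 0) → (∃ w : List Bool, w.length = k ∧ f w ≠ 0) →
    ev (MonoidAlgebra.of (ZMod p) (G ⧸ U)) f ((QuotientGroup.mk x : G ⧸ U), (QuotientGroup.mk y : G ⧸ U)) ≠ 0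

end FPG
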