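import Mathlib
set_option autoImplicit false
set_option linter.all false

namespace FPW
variable {d : ℕ}

/-- strong lexicographic order: common beginning, then a smaller letter -/
def SL (u v : List (Fin d)) : Prop :=
  ∃ (c : List (Fin d)) (a b : Fin d) (u' v' : List (Fin d)), u = c ++ a :: u' ∧ v = c ++ b :: v' ∧ a < b

/-- Lyndon word -/
def Lyn (l : List (Fin d)) : Prop := l ≠ [] ∧ ∀ u v, l = u ++ v → u ≠ [] → v ≠ [] → SL l v

/-- the concatenation `l (j-1) ++ ... ++ l 1 ++ l 0` -/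
def cat (l : ℕ → List (Fin d)) : ℕ → List (Fin d)
  | 0 => []
  | j + 1 => l j ++ cat l j

/-- the suffixes of `w` at `m` and `m'` first differ at offset `k` (before `n`), the one at `m` being smaller -/
def Lk (w : ℕ → Fin d) (n m m' k : ℕ) : Prop :=
  m + k < n ∧ m' + k < n ∧ (∀ i, i < k → w (m + i) = w (m' + i)) ∧ w (m + k) < w (m' + k)

/-- suffix order -/
def Lt' (w : ℕ → Fin d) (n m m' : ℕ) : Prop := ∃ k, Lk w n m m' k

/-- `m` is a record seen from `e` -/
def Rec (w : ℕ → Fin d) (n e m : ℕ) : Prop := m ≤ e ∧ ∀ m', m < m' → m' ≤ e → Lt' w n m m'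

/-- `r` lies in no zone `(m, m+k]`, `k` the length of the common beginning of the suffixes at `a` and `m` -/
def Clean (w : ℕ → Fin d) (n a r : ℕ) : Prop := ∀ m k, a < m → m < r → Lk w n a m k → m + k < r

/-- the factor `w[a,b)` -/
def blk (w : ℕ → Fin d) (a b : ℕ) : List (Fin d) := (List.range (b - a)).map (fun i => w (a + i))

/-- what a typical position satisfies -/
structure Typ (w : ℕ → Fin d) (n e : ℕ) (Q : ℕ → ℕ) (T1 CB Ltop : ℕ) : Prop where
  en : e < n
  tot : ∀ m m', m < m' → m' ≤ e → Lt' w n m m' ∨ Lt' w n m' m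
  rep : ∀ a b t, a < b → b ≤ e → T1 ≤ t → b + t ≤ n → (∀ i, i < t → w (a + i) = w (b + i)) →
    e ≤ b + CB * t → Q t < b - a
  rs : ∀ L, T1 ≤ L → L ≤ Ltop → ∃ m, Rec w n e m ∧ CB * L < e - m ∧ e - m ≤ d ^ (2 * L) + CB * L

end FPW
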