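import Pool.Agent.Helper993.FP.W0
set_option autoImplicit false
set_option linter.all false

namespace FPW
variable {d : ℕ}

theorem nested (w : ℕ → Fin d) (n e a m m' k k' : ℕ) (ha : Rec w n e a) (h1 : a < m) (h2 : m < m')
    (h3 : m' ≤ e) (hk : Lk w n a m k) (hk' : Lk w n a m' k') (hm : m' ≤ m + k) : m' + k' ≤ m + k := by
  by_contra hcon
  push Not at hcon
  obtain ⟨q, rfl⟩ : ∃ q, m' = m + q := ⟨m' - m, by omega⟩
  obtain ⟨j, rfl⟩ : ∃ j, k = q + j := ⟨k - q, by omega⟩
  have hjk : j < k' := by omega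
  obtain ⟨hk1, hk2, hk3, hk4⟩ := hk
  obtain ⟨hk1', hk2', hk3', hk4'⟩ := hk'
  obtain ⟨k2, g1, g2, g3, g4⟩ := ha.2 (a + q) (by omega) (by omega)
  have e1 : w (m + (q + j)) = w (a + j) := by
    rw [hk3' j hjk]; congr 1; omega
  have e2 : ∀ i, i < j → w (a + q + i) = w (a + i) := by
    intro i hi
    rw [hk3' i (by omega), show a + q + i = a + (q + i) by omega, hk3 (q + i) (by omega)]
    congr 1; omega
  have hk2j : j ≤ k2 := by
    by_contra hlt
    push Not at hlt
    rw [e2 k2 hlt] at g4
    exact lt_irrefl _ g4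
  have e3 : w (a + j) ≤ w (a + q + j) := by
    rcases hk2j.eq_or_lt with h | h
    · rw [h]; exact g4.le
    · exact (g3 j h).le
  have e4 : w (a + q + j) < w (m + (q + j)) := by
    have : a + q + j = a + (q + j) := by omega
    rw [this]; exact hk4
  rw [e1] at e4
  exact absurd (lt_of_le_of_lt e3 e4) (lt_irrefl _)

theorem SL_of (l v : List (Fin d)) (k : ℕ) (hl : k < l.length) (hv : k < v.length)
    (h : ∀ i (hi : i < k), l[i]'(hi.trans hl) = v[i]'(hi.trans hv)) (hlt : l[k] < v[k]) : SL l v := by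
  refine ⟨l.take k, l[k], v[k], l.drop (k + 1), v.drop (k + 1), ?_, ?_, hlt⟩
  · rw [List.cons_getElem_drop_succ, List.take_append_drop]
  · have : l.take k = v.take k := by
      apply List.ext_getElem
      · simp; omega
      · intro i h1 h2
        rw [List.getElem_take, List.getElem_take]
        apply h
        simp at h1
        exact h1.1
    rw [this, List.cons_getElem_drop_succ, List.take_append_drop]

theorem blk_length (w : ℕ → Fin d) (a b : ℕ) : (blk w a b).length = b - a := by simp [blk]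

theorem blk_getElem (w : ℕ → Fin d) (a b i : ℕ) (h : i < (blk w a b).length) :
    (blk w a b)[i] = w (a + i) := by simp [blk]

theorem clean_lyn (w : ℕ → Fin d) (n e a r : ℕ) (ha : Rec w n e a) (h1 : a < r) (h2 : r ≤ e)
    (hc : Clean w n a r) : Lyn (blk w a r) := by
  constructor
  · intro h
    have := blk_length w a r
    rw [h] at this
    simp at this
    omega
  · intro u v huv hu hv
    have hlu : 0 < u.length := List.length_pos_iff.mpr hu
    have hlv : 0 < v.length := List.length_pos_iff.mpr hv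
    have hlen : r - a = u.length + v.length := by
      rw [← blk_length w a r, huv, List.length_append]
    obtain ⟨k, hk⟩ := ha.2 (a + u.length) (by omega) (by omega)
    have hkr := hc _ _ (by omega) (by omega) hk
    have hv' : ∀ i (hi : i < v.length), v[i] = w (a + u.length + i) := by
      intro i hi
      have h3 : u.length + i < (blk w a r).length := by rw [blk_length]; omega
      have h4 := blk_getElem w a r (u.length + i) h3
      have h5 : (blk w a r)[u.length + i] = (u ++ v)[u.length + i]'(by rw [← huv]; exact h3) := by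
        congr 1
      rw [h5, List.getElem_append_right (by omega)] at h4
      simp only [Nat.add_sub_cancel_left] at h4
      rw [h4]; congr 1; omega
    apply SL_of _ _ k (by rw [blk_length]; omega) (by omega)
    · intro i hi
      rw [blk_getElem, hv']
      exact hk.2.2.1 i hi
    · rw [blk_getElem, hv']
      exact hk.2.2.2

theorem Lt'_trans (w : ℕ → Fin d) (n a b c : ℕ) (h1 : Lt' w n a b) (h2 : Lt' w n b c) :
    Lt' w n a c := by
  obtain ⟨k, k1, k2, k3, k4⟩ := h1
  obtain ⟨l, l1, l2, l3, l4⟩ := h2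
  rcases lt_trichotomy k l with h | h | h
  · refine ⟨k, k1, by omega, fun i hi => (k3 i hi).trans (l3 i (by omega)), ?_⟩
    rw [← l3 k h]; exact k4
  · subst h
    exact ⟨k, k1, by omega, fun i hi => (k3 i hi).trans (l3 i hi), k4.trans l4⟩
  · refine ⟨l, by omega, l2, fun i hi => (k3 i (by omega)).trans (l3 i hi), ?_⟩
    rw [k3 l h]; exact l4

theorem cleaning (w : ℕ → Fin d) (n e a r : ℕ) (ha : Rec w n e a) (hr : Rec w n e r) (h1 : a < r) :
    ∃ b k, a < b ∧ b ≤ r ∧ Rec w n e b ∧ Clean w n a b ∧ Lk w n a b k ∧ (b = r ∨ r ≤ b + k) := by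
  by_cases hc : Clean w n a r
  · obtain ⟨k, hk⟩ := ha.2 r h1 hr.1
    exact ⟨r, k, h1, le_rfl, hr, hc, hk, Or.inl rfl⟩
  · unfold Clean at hc
    push Not at hc
    obtain ⟨m0, k0, g1, g2, g3, g4⟩ := hc
    classical
    have hex : ∃ m, a < m ∧ m < r ∧ ∃ k, Lk w n a m k ∧ r ≤ m + k := ⟨m0, g1, g2, k0, g3, g4⟩
    obtain ⟨b, ⟨hab, hbr, k, hk, hrk⟩, hmin⟩ : ∃ b, (a < b ∧ b < r ∧ ∃ k, Lk w n a b k ∧ r ≤ b + k) ∧
        ∀ m < b, ¬ (a < m ∧ m < r ∧ ∃ k, Lk w n a m k ∧ r ≤ m + k) :=
      ⟨Nat.find hex, Nat.find_spec hex, fun m hm => Nat.find_min hex hm⟩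
    have hre := hr.1
    have hA : ∀ i, b < i → i ≤ r → Lt' w n b i := by
      intro i hi1 hi2
      obtain ⟨ki, hki⟩ := ha.2 i (by omega) (by omega)
      have hn := nested w n e a b i k ki ha hab hi1 (by omega) hk hki (by omega)
      obtain ⟨a1, a2, a3, a4⟩ := hk
      obtain ⟨b1, b2, b3, b4⟩ := hki
      refine ⟨ki, by omega, by omega, ?_, ?_⟩
      · intro x hx
        rw [← a3 x (by omega), b3 x hx]
      · rw [← a3 ki (by omega)]; exact b4
    refine ⟨b, k, hab, hbr.le, ⟨by omega, ?_⟩, ?_, hk, Or.inr hrk⟩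
    · intro i hi1 hi2
      rcases le_or_gt i r with h | h
      · exact hA i hi1 h
      · exact Lt'_trans w n b r i (hA r hbr le_rfl) (hr.2 i h hi2)
    · intro m2 k2 h2 h3 h4
      by_contra hcon
      push Not at hcon
      have hn := nested w n e a m2 b k2 k ha h2 h3 (by omega) h4 hk hcon
      exact hmin m2 h3 ⟨h2, by omega, k2, h4, by omega⟩

theorem blk_SL (w : ℕ → Fin d) (n a b b' k : ℕ) (hab : a < b) (hbb : b < b') (hk : Lk w n a b k)
    (h1 : k < b - a) (h2 : k < b' - b) : SL (blk w a b) (blk w b b') := by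
  apply SL_of _ _ k (by rw [blk_length]; omega) (by rw [blk_length]; omega)
  · intro i hi
    rw [blk_getElem, blk_getElem]
    exact hk.2.2.1 i hi
  · rw [blk_getElem, blk_getElem]
    exact hk.2.2.2

end FPW
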