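import Pool.Agent.Helper993.FP.W1
set_option autoImplicit false
set_option linter.all false

namespace FPW
variable {d : ℕ}

theorem chain_aux (C CB T1 : ℕ) (Q : ℕ → ℕ) (hd : 2 ≤ d) (hC : 1 ≤ C) (hCB : 3 ≤ CB) (hT1 : 1 ≤ T1)
    (num : ∀ L t, T1 ≤ L → CB * L ≤ 2 * t → 4 * C * (d ^ (2 * (L + 1)) + CB * (L + 1)) ≤ Q t) (j : ℕ) :
    ∃ A : ℕ, ∀ Ltop, T1 ≤ Ltop → ∀ (w : ℕ → Fin d) (n e : ℕ), Typ w n e Q T1 CB Ltop →
      ∀ a, Rec w n e a → A ≤ e - a → e - a ≤ d ^ (2 * Ltop) + CB * Ltop →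
      ∃ m : ℕ → ℕ, m j = a ∧ (∀ i, i ≤ j → Rec w n e (m i)) ∧
        (∀ i, i < j → m (i + 1) < m i ∧ Lyn (blk w (m (i + 1)) (m i)) ∧ T1 ≤ m i - m (i + 1) ∧
          e - m (i + 1) ≤ 2 * (m i - m (i + 1))) ∧
        (∀ i, i + 1 < j → C * (m i - m (i + 1)) ≤ m (i + 1) - m (i + 2) ∧
          SL (blk w (m (i + 2)) (m (i + 1))) (blk w (m (i + 1)) (m i))) := by
  induction j with
  | zero =>
    refine ⟨0, fun Ltop _ w n e _ a ha _ _ => ⟨fun _ => a, rfl, fun _ _ => ha, ?_, ?_⟩⟩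
    · intro i hi
      exact absurd hi (Nat.not_lt_zero i)
    · intro i hi
      exact absurd hi (Nat.not_lt_zero _)
  | succ j ih =>
    obtain ⟨A, hA⟩ := ih
    obtain ⟨L1, hL1T, hL1A⟩ : ∃ L1, T1 ≤ L1 ∧ A ≤ L1 := ⟨max T1 A, le_max_left _ _, le_max_right _ _⟩
    refine ⟨4 * C * (d ^ (2 * L1) + CB * L1), ?_⟩
    intro Ltop hLtop w n e hTyp a ha hAa hae
    have hae' : a ≤ e := ha.1
    obtain ⟨A', hA'⟩ : ∃ A', A' = e - a := ⟨_, rfl⟩
    rw [← hA'] at hAa hae
    -- the scale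
    have hgrow : ∀ L, L ≤ 4 * C * (d ^ (2 * L) + CB * L) := by
      intro L
      have h1 : L ≤ CB * L := Nat.le_mul_of_pos_left L (by omega)
      have h2 : (d ^ (2 * L) + CB * L) ≤ 4 * C * (d ^ (2 * L) + CB * L) :=
        Nat.le_mul_of_pos_left _ (by omega)
      omega
    obtain ⟨L, hLL1, hLP, hLN⟩ : ∃ L, L1 ≤ L ∧ 4 * C * (d ^ (2 * L) + CB * L) ≤ A' ∧
        A' < 4 * C * (d ^ (2 * (L + 1)) + CB * (L + 1)) := by
      classical
      have hL1A' : L1 ≤ A' := (hgrow L1).trans hAa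
      refine ⟨Nat.findGreatest (fun L => 4 * C * (d ^ (2 * L) + CB * L) ≤ A') A',
        Nat.le_findGreatest hL1A' hAa,
        Nat.findGreatest_spec (P := fun L => 4 * C * (d ^ (2 * L) + CB * L) ≤ A') hL1A' hAa, ?_⟩
      by_contra hcon
      push Not at hcon
      have h1 := (hgrow _).trans hcon
      have h2 := Nat.le_findGreatest (P := fun L => 4 * C * (d ^ (2 * L) + CB * L) ≤ A') h1 hcon
      omega
    have hT1L : T1 ≤ L := hL1T.trans hLL1
    have hLtop' : L ≤ Ltop := by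
      by_contra hcon
      push Not at hcon
      have h1 : d ^ (2 * Ltop) ≤ d ^ (2 * L) := Nat.pow_le_pow_right (by omega) (by omega)
      have h2 : CB * Ltop < CB * L := Nat.mul_lt_mul_of_pos_left hcon (by omega)
      have h3 : (d ^ (2 * L) + CB * L) ≤ 4 * C * (d ^ (2 * L) + CB * L) :=
        Nat.le_mul_of_pos_left _ (by omega)
      omega
    obtain ⟨r, hr, hr1, hr2⟩ := hTyp.rs L hT1L hLtop'
    have hre : r ≤ e := hr.1
    obtain ⟨B, hB⟩ : ∃ B, B = e - r := ⟨_, rfl⟩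
    rw [← hB] at hr1 hr2
    have h4CB : 4 * (C * B) ≤ A' := by
      calc 4 * (C * B) = 4 * C * B := by ring
        _ ≤ 4 * C * (d ^ (2 * L) + CB * L) := Nat.mul_le_mul_left _ hr2
        _ ≤ A' := hLP
    have hBC : B ≤ C * B := Nat.le_mul_of_pos_left B hC
    have har : a < r := by omega
    obtain ⟨b, k, hab, hbr, hb, hclean, hLk, hcase⟩ := cleaning w n e a r ha hr har
    have hbe : b ≤ e := hb.1
    have hebk : e - b ≤ B + k := by
      rcases hcase with h | h
      · omega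
      · omega
    have hCBL3 : 3 * L ≤ CB * L := Nat.mul_le_mul_right L hCB
    have h2k : 2 * k < B := by
      by_contra hcon
      push Not at hcon
      have hk3 : 3 * k ≤ CB * k := Nat.mul_le_mul_right k hCB
      have h1 := hTyp.rep a b k hab hbe (by omega) (hLk.2.1.le) hLk.2.2.1 (by omega)
      have h2 := num L k hT1L (by omega)
      omega
    have hCeb : C * (2 * (e - b)) ≤ C * (3 * B) := Nat.mul_le_mul_left C (by omega)
    have hCeb' : 8 * (C * (e - b)) ≤ 3 * A' := by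
      have e1 : C * (2 * (e - b)) = 2 * (C * (e - b)) := by ring
      have e2 : C * (3 * B) = 3 * (C * B) := by ring
      rw [e1, e2] at hCeb
      omega
    have heC : e - b ≤ C * (e - b) := Nat.le_mul_of_pos_left _ hC
    have hT1b : T1 ≤ b - a := by
      have h1 : (d ^ (2 * L1) + CB * L1) ≤ 4 * C * (d ^ (2 * L1) + CB * L1) :=
        Nat.le_mul_of_pos_left _ (by omega)
      have h2 : 3 * L1 ≤ CB * L1 := Nat.mul_le_mul_right L1 hCB
      omega
    obtain ⟨m, hmj, hmR, hm1, hm2⟩ := hA Ltop hLtop w n e hTyp b hb (by omega) (by omega)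
    have hup : ∀ i, i ≤ j → Function.update m (j + 1) a i = m i := by
      intro i hi
      exact Function.update_of_ne (by omega) _ _
    have hup1 : Function.update m (j + 1) a (j + 1) = a := Function.update_self _ _ _
    refine ⟨Function.update m (j + 1) a, hup1, ?_, ?_, ?_⟩
    · intro i hi
      rcases Nat.lt_or_ge j i with h | h
      · have : i = j + 1 := by omega
        rw [this, hup1]
        exact ha
      · rw [hup i h]
        exact hmR i h
    · intro i hi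
      rcases Nat.lt_or_ge i j with h | h
      · rw [hup i (by omega), hup (i + 1) (by omega)]
        exact hm1 i h
      · have : i = j := by omega
        subst this
        rw [hup i le_rfl, hup1, hmj]
        refine ⟨hab, clean_lyn w n e a b ha hab hbe hclean, hT1b, ?_⟩
        omega
    · intro i hi
      rcases Nat.lt_or_ge (i + 1) j with h | h
      · rw [hup i (by omega), hup (i + 1) (by omega), hup (i + 2) (by omega)]
        exact hm2 i h
      · have hij : i + 1 = j := by omega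
        subst hij
        rw [hup i (by omega), hup (i + 1) le_rfl, hup1]
        have h1 := hm1 i (by omega)
        rw [hmj] at h1 ⊢
        have h2 := (hmR i (by omega)).1
        refine ⟨?_, ?_⟩
        · have h3 : C * (m i - b) ≤ C * (e - b) := Nat.mul_le_mul_left C (by omega)
          omega
        · apply blk_SL w n a b (m i) k hab h1.1 hLk
          · omega
          · omega

/-- TARGET -/
theorem chain (C CB T1 : ℕ) (Q : ℕ → ℕ) (hd : 2 ≤ d) (hC : 1 ≤ C) (hCB : 3 ≤ CB) (hT1 : 1 ≤ T1)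
    (num : ∀ L t, T1 ≤ L → CB * L ≤ 2 * t → 4 * C * (d ^ (2 * (L + 1)) + CB * (L + 1)) ≤ Q t) (j : ℕ) :
    ∃ Ltop, T1 ≤ Ltop ∧ ∀ (w : ℕ → Fin d) (n e : ℕ), Typ w n e Q T1 CB Ltop →
      ∃ m : ℕ → ℕ, (∀ i, i ≤ j → Rec w n e (m i)) ∧
        (∀ i, i < j → m (i + 1) < m i ∧ Lyn (blk w (m (i + 1)) (m i)) ∧ T1 ≤ m i - m (i + 1) ∧
          e - m (i + 1) ≤ 2 * (m i - m (i + 1))) ∧
        (∀ i, i + 1 < j → C * (m i - m (i + 1)) ≤ m (i + 1) - m (i + 2) ∧
          SL (blk w (m (i + 2)) (m (i + 1))) (blk w (m (i + 1)) (m i))) := by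
  obtain ⟨A, hA⟩ := chain_aux C CB T1 Q hd hC hCB hT1 num j
  refine ⟨max T1 A, le_max_left _ _, ?_⟩
  intro w n e hTyp
  obtain ⟨a, ha, h1, h2⟩ := hTyp.rs (max T1 A) (le_max_left _ _) le_rfl
  have h3 : max T1 A ≤ CB * max T1 A := Nat.le_mul_of_pos_left _ (by omega)
  have h4 : A ≤ max T1 A := le_max_right _ _
  obtain ⟨m, _, hm1, hm2, hm3⟩ := hA (max T1 A) (le_max_left _ _) w n e hTyp a ha (by omega) h2
  exact ⟨m, hm1, hm2, hm3⟩

end FPW
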