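import Pool.Agent.Helper993.FP.WB
set_option autoImplicit false
set_option linter.all false

namespace FPW

theorem vitali_aux (CB n N : ℕ) : ∀ (B : Finset (ℕ × ℕ)), B.card = N → (∀ x ∈ B, 1 ≤ x.2) →
    ∃ F ⊆ B, (∀ x ∈ F, ∀ y ∈ F, x ≠ y → x.1 + x.2 ≤ y.1 ∨ y.1 + y.2 ≤ x.1) ∧
      ((Finset.range (n + 1)).filter (fun e => ∃ x ∈ B, x.1 ≤ e ∧ e ≤ x.1 + CB * x.2)).card
        ≤ (CB + 3) * ∑ x ∈ F, x.2 := by
  induction N using Nat.strong_induction_on with
  | _ N ih =>
    intro B hN hB
    rcases B.eq_empty_or_nonempty with rfl | hne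
    · refine ⟨∅, Finset.Subset.refl _, by simp, ?_⟩
      simp
    · obtain ⟨x0, hx0, hmax⟩ := Finset.exists_max_image B (fun x => x.2) hne
      set B' := B.filter (fun y => y.1 + y.2 ≤ x0.1 ∨ x0.1 + x0.2 ≤ y.1) with hB'
      have ht : 1 ≤ x0.2 := hB x0 hx0
      have hx0' : x0 ∉ B' := by
        rw [hB', Finset.mem_filter]
        rintro ⟨_, h⟩
        omega
      have hlt : B'.card < N := by
        rw [← hN]
        apply Finset.card_lt_card
        refine ⟨Finset.filter_subset _ _, fun h => hx0' (h hx0)⟩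
      obtain ⟨F', hF'B, hdis, hcard⟩ := ih B'.card hlt B' rfl
        (fun x hx => hB x (Finset.mem_filter.1 hx).1)
      have hx0F : x0 ∉ F' := fun h => hx0' (hF'B h)
      refine ⟨insert x0 F', ?_, ?_, ?_⟩
      · intro y hy
        rw [Finset.mem_insert] at hy
        rcases hy with rfl | hy
        · exact hx0
        · exact (Finset.mem_filter.1 (hF'B hy)).1
      · intro x hx y hy hxy
        rw [Finset.mem_insert] at hx hy
        rcases hx with rfl | hx
        · rcases hy with rfl | hy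
          · exact absurd rfl hxy
          · exact ((Finset.mem_filter.1 (hF'B hy)).2).symm
        · rcases hy with rfl | hy
          · exact (Finset.mem_filter.1 (hF'B hx)).2
          · exact hdis x hx y hy hxy
      · rw [Finset.sum_insert hx0F]
        have hsub : (Finset.range (n + 1)).filter (fun e => ∃ x ∈ B, x.1 ≤ e ∧ e ≤ x.1 + CB * x.2) ⊆
            (Finset.range (n + 1)).filter (fun e => ∃ x ∈ B', x.1 ≤ e ∧ e ≤ x.1 + CB * x.2) ∪
              Finset.Ico (x0.1 - x0.2) (x0.1 + x0.2 + CB * x0.2) := by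
          intro e he
          rw [Finset.mem_filter] at he
          obtain ⟨he, y, hy, hy1, hy2⟩ := he
          rw [Finset.mem_union, Finset.mem_filter]
          by_cases hyB : y ∈ B'
          · left
            exact ⟨he, y, hyB, hy1, hy2⟩
          · right
            rw [hB', Finset.mem_filter] at hyB
            have h3 : ¬ (y.1 + y.2 ≤ x0.1 ∨ x0.1 + x0.2 ≤ y.1) := fun h => hyB ⟨hy, h⟩
            have h4 := hmax y hy
            have h5 : CB * y.2 ≤ CB * x0.2 := Nat.mul_le_mul_left _ h4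
            rw [Finset.mem_Ico]
            omega
        have h6 := Finset.card_le_card hsub
        have h7 := Finset.card_union_le
          ((Finset.range (n + 1)).filter (fun e => ∃ x ∈ B', x.1 ≤ e ∧ e ≤ x.1 + CB * x.2))
          (Finset.Ico (x0.1 - x0.2) (x0.1 + x0.2 + CB * x0.2))
        rw [Nat.card_Ico] at h7
        have h8 : x0.1 + x0.2 + CB * x0.2 - (x0.1 - x0.2) ≤ (CB + 3) * x0.2 := by
          have : (CB + 3) * x0.2 = CB * x0.2 + 3 * x0.2 := by ring
          omega
        rw [mul_add]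
        omega

/-- Vitali covering for intervals of integers -/
theorem vitali (B : Finset (ℕ × ℕ)) (CB n : ℕ) (hB : ∀ x ∈ B, 1 ≤ x.2) :
    ∃ F ⊆ B, (∀ x ∈ F, ∀ y ∈ F, x ≠ y → x.1 + x.2 ≤ y.1 ∨ y.1 + y.2 ≤ x.1) ∧
      ((Finset.range (n + 1)).filter (fun e => ∃ x ∈ B, x.1 ≤ e ∧ e ≤ x.1 + CB * x.2)).card
        ≤ (CB + 3) * ∑ x ∈ F, x.2 :=
  vitali_aux CB n B.card B rfl hB

variable {d : ℕ}


theorem bf_aux (BB : List (Fin d) → List (Fin d) → Prop) (N : ℕ) :
    ∀ (F : Finset (ℕ × ℕ)) (w : List (Fin d)), F.card = N →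
    (∀ x ∈ F, 1 ≤ x.2) →
    (∀ x ∈ F, ∀ y ∈ F, x ≠ y → x.1 + x.2 ≤ y.1 ∨ y.1 + y.2 ≤ x.1) →
    (∀ x ∈ F, x.1 + x.2 ≤ w.length ∧ BB (w.take x.1) ((w.drop x.1).take x.2)) →
    BF BB w (∑ x ∈ F, x.2) := by
  induction N with
  | zero =>
    intro F w hN _ _ _
    rw [Finset.card_eq_zero] at hN
    subst hN
    simp only [Finset.sum_empty]
    exact BF.nil w
  | succ N ih =>
    intro F w hN hpos hdis hbad
    have hne : F.Nonempty := by
      rw [← Finset.card_pos]; omega
    obtain ⟨x0, hx0, hmax⟩ := Finset.exists_max_image F (fun x => x.1) hne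
    have hpos0 := hpos x0 hx0
    obtain ⟨hlen, hBB⟩ := hbad x0 hx0
    have hsep : ∀ y ∈ F.erase x0, y.1 + y.2 ≤ x0.1 := by
      intro y hy
      rw [Finset.mem_erase] at hy
      rcases hdis y hy.2 x0 hx0 hy.1 with h | h
      · exact h
      · have := hmax y hy.2
        omega
    have hIH := ih (F.erase x0) (w.take x0.1) (by rw [Finset.card_erase_of_mem hx0]; omega)
      (fun x hx => hpos x (Finset.mem_of_mem_erase hx))
      (fun x hx y hy hxy => hdis x (Finset.mem_of_mem_erase hx) y (Finset.mem_of_mem_erase hy) hxy)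
      (by
        intro y hy
        have h1 := hsep y hy
        obtain ⟨h2, h3⟩ := hbad y (Finset.mem_of_mem_erase hy)
        constructor
        · rw [List.length_take]
          omega
        · rw [List.take_take, List.drop_take, List.take_take]
          rw [show min y.1 x0.1 = y.1 by omega, show min y.2 (x0.1 - y.1) = y.2 by omega]
          exact h3)
    have hstep := BF.step (w.take x0.1) ((w.drop x0.1).take x0.2) (w.drop (x0.1 + x0.2)) _ hIH hBB
    rw [← List.take_add, List.take_append_drop] at hstep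
    have hvl : ((w.drop x0.1).take x0.2).length = x0.2 := by
      rw [List.length_take, List.length_drop]
      omega
    rw [hvl, Finset.sum_erase_add _ _ hx0] at hstep
    exact hstep

/-- a disjoint family of bad blocks gives `BF` -/
theorem bf_of_family (BB : List (Fin d) → List (Fin d) → Prop) (w : List (Fin d)) (F : Finset (ℕ × ℕ))
    (hpos : ∀ x ∈ F, 1 ≤ x.2)
    (hdis : ∀ x ∈ F, ∀ y ∈ F, x ≠ y → x.1 + x.2 ≤ y.1 ∨ y.1 + y.2 ≤ x.1)
    (hbad : ∀ x ∈ F, x.1 + x.2 ≤ w.length ∧ BB (w.take x.1) ((w.drop x.1).take x.2)) :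
    BF BB w (∑ x ∈ F, x.2) :=
  bf_aux BB F.card F w rfl hpos hdis hbad

end FPW
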