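import Pool.Agent.Helper993.FP.WB
set_option autoImplicit false
set_option linter.all false

namespace FPW
variable {d : ℕ}




theorem words_finite (n : ℕ) : {w : List (Fin d) | w.length = n}.Finite :=
  List.finite_length_eq (Fin d) n

/-- recursion for the number of words with a bad family -/
theorem count_rec (N : Set (List (Fin d))) (hfac : ∀ u v w : List (Fin d), u ++ v ++ w ∈ N → v ∈ N)
    (BB : List (Fin d) → List (Fin d) → Prop) (T1 : ℕ) (hT1 : 1 ≤ T1) (β : ℕ → ℕ)
    (hlen : ∀ u v, BB u v → T1 ≤ v.length)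
    (hβ : ∀ (u : List (Fin d)) (t : ℕ), T1 ≤ t → Set.ncard {v : List (Fin d) | v.length = t ∧ BB u v} ≤ β t)
    (n k : ℕ) :
    qn N BB n k ≤ (if k = 0 then an N n else 0) +
      ∑ t ∈ (Finset.Icc T1 n).filter (fun t => t ≤ k), ∑ i ∈ Finset.range (n - t + 1),
        qn N BB i (k - t) * β t * an N (n - t - i) := by
  classical
  have hfin1 : ∀ i j, {w : List (Fin d) | w ∈ N ∧ w.length = i ∧ BF BB w j}.Finite := fun i j =>
    (words_finite i).subset fun w hw => hw.2.1
  have hfin2 : ∀ i, {w : List (Fin d) | w ∈ N ∧ w.length = i}.Finite := fun i =>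
    (words_finite i).subset fun w hw => hw.2
  have hfin3 : ∀ t u, {v : List (Fin d) | v.length = t ∧ BB u v}.Finite := fun t u =>
    (words_finite t).subset fun w hw => hw.1
  by_cases hk : k = 0
  · subst hk
    rw [if_pos rfl]
    refine le_trans ?_ (Nat.le_add_right _ _)
    exact Set.ncard_le_ncard (fun w hw => ⟨hw.1, hw.2.1⟩) (hfin2 n)
  · rw [if_neg hk, zero_add]
    let big : Finset (List (Fin d)) := ((Finset.Icc T1 n).filter (fun t => t ≤ k)).biUnion fun t =>
      (Finset.range (n - t + 1)).biUnion fun i => (hfin1 i (k - t)).toFinset.biUnion fun u =>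
        ((hfin3 t u).toFinset ×ˢ (hfin2 (n - t - i)).toFinset).image (fun p => u ++ p.1 ++ p.2)
    have hsub : {w : List (Fin d) | w ∈ N ∧ w.length = n ∧ BF BB w k} ⊆ (big : Set (List (Fin d))) := by
      rintro w ⟨hwN, hwn, hbf⟩
      cases hbf with
      | nil => exact absurd rfl hk
      | step u v z k' hu huv =>
        have h1 := hlen u v huv
        have h2 : (u ++ v ++ z).length = u.length + v.length + z.length := by
          simp [List.length_append, add_assoc]
        rw [h2] at hwn
        have huN : u ∈ N := hfac [] u (v ++ z) (by simpa [List.append_assoc] using hwN)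
        have hzN : z ∈ N := hfac (u ++ v) z [] (by simpa [List.append_assoc] using hwN)
        simp only [big, Finset.coe_biUnion, Set.mem_iUnion, Finset.mem_coe]
        refine ⟨v.length, ?_, u.length, ?_, u, ?_, ?_⟩
        · rw [Finset.mem_filter, Finset.mem_Icc]; omega
        · rw [Finset.mem_range]; omega
        · rw [Set.Finite.mem_toFinset]
          refine ⟨huN, rfl, ?_⟩
          rw [Nat.add_sub_cancel]
          exact hu
        · rw [Finset.mem_image]
          refine ⟨(v, z), ?_, rfl⟩
          rw [Finset.mem_product, Set.Finite.mem_toFinset, Set.Finite.mem_toFinset]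
          exact ⟨⟨rfl, huv⟩, hzN, by show z.length = _; omega⟩
    have h1 : qn N BB n k ≤ big.card := by
      rw [← Set.ncard_coe_finset]
      exact Set.ncard_le_ncard hsub (Finset.finite_toSet _)
    refine h1.trans ?_
    refine Finset.card_biUnion_le.trans (Finset.sum_le_sum fun t ht => ?_)
    rw [Finset.mem_filter, Finset.mem_Icc] at ht
    refine Finset.card_biUnion_le.trans (Finset.sum_le_sum fun i hi => ?_)
    have h2 : ∀ u ∈ (hfin1 i (k - t)).toFinset,
        (((hfin3 t u).toFinset ×ˢ (hfin2 (n - t - i)).toFinset).image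
          (fun p => u ++ p.1 ++ p.2)).card ≤ β t * an N (n - t - i) := by
      intro u _
      refine Finset.card_image_le.trans ?_
      rw [Finset.card_product]
      refine Nat.mul_le_mul ?_ ?_
      · rw [← Set.ncard_eq_toFinset_card _ (hfin3 t u)]
        exact hβ u t ht.1.1
      · rw [← Set.ncard_eq_toFinset_card _ (hfin2 (n - t - i))]
        exact le_refl _
    refine (Finset.card_biUnion_le_card_mul _ _ _ h2).trans ?_
    rw [← Set.ncard_eq_toFinset_card _ (hfin1 i (k - t)), mul_assoc]
    exact le_refl _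

/-- resulting bound: few words have a bad family of large total length -/
theorem count_bound (N : Set (List (Fin d))) (BB : List (Fin d) → List (Fin d) → Prop) (T1 : ℕ) (hT1 : 1 ≤ T1)
    (β : ℕ → ℕ)
    (hrec : ∀ n k, qn N BB n k ≤ (if k = 0 then an N n else 0) +
      ∑ t ∈ (Finset.Icc T1 n).filter (fun t => t ≤ k), ∑ i ∈ Finset.range (n - t + 1),
        qn N BB i (k - t) * β t * an N (n - t - i))
    (hk : ∀ n k, n < k → qn N BB n k = 0)
    (K L L' x : ℝ) (hK : 1 ≤ K) (hL : 0 < L) (hLL : L < L') (hx : 1 ≤ x)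
    (ha : ∀ m, (an N m : ℝ) ≤ K * L ^ m)
    (hsum : ∀ n, ∑ t ∈ Finset.Icc T1 n, (β t : ℝ) * x ^ t / L' ^ t * (K / (1 - L / L')) ≤ 1 / 2)
    (n k0 : ℕ) :
    (∑ k ∈ Finset.Icc k0 n, (qn N BB n k : ℝ)) * x ^ k0 ≤ 2 * K * L' ^ n := by
  have hx0 : 0 < x := by linarith
  have hL'0 : 0 < L' := hL.trans hLL
  have hK0 : 0 < K := by linarith
  have hr1 : 0 < 1 - L / L' := by
    rw [sub_pos, div_lt_one hL'0]; exact hLL
  set G : ℕ → ℝ := fun n => ∑ k ∈ Finset.range (n + 1), (qn N BB n k : ℝ) * x ^ k with hG
  have hGext : ∀ i m, i ≤ m → ∑ j ∈ Finset.range (m + 1), (qn N BB i j : ℝ) * x ^ j = G i := by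
    intro i m him
    symm
    apply Finset.sum_subset (Finset.range_mono (by omega))
    intro j _ hj
    rw [Finset.mem_range, not_lt] at hj
    rw [hk i j (by omega)]
    simp
  -- the recursion for `G`
  have hGrec : ∀ n, G n ≤ an N n + ∑ t ∈ Finset.Icc T1 n, ∑ i ∈ Finset.range (n - t + 1),
      (β t : ℝ) * x ^ t * an N (n - t - i) * G i := by
    intro n
    have h1 : G n ≤ ∑ k ∈ Finset.range (n + 1), ((if k = 0 then (an N n : ℝ) else 0) +
        ∑ t ∈ Finset.Icc T1 n, if t ≤ k then ∑ i ∈ Finset.range (n - t + 1),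
          (qn N BB i (k - t) : ℝ) * β t * an N (n - t - i) * x ^ k else 0) := by
      apply Finset.sum_le_sum
      intro k _
      have h2 : (qn N BB n k : ℝ) ≤ (if k = 0 then (an N n : ℝ) else 0) +
          ∑ t ∈ (Finset.Icc T1 n).filter (fun t => t ≤ k), ∑ i ∈ Finset.range (n - t + 1),
          (qn N BB i (k - t) : ℝ) * β t * an N (n - t - i) := by
        have := hrec n k
        have h3 : ((qn N BB n k : ℕ) : ℝ) ≤ (((if k = 0 then an N n else 0) +
          ∑ t ∈ (Finset.Icc T1 n).filter (fun t => t ≤ k), ∑ i ∈ Finset.range (n - t + 1),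
          qn N BB i (k - t) * β t * an N (n - t - i) : ℕ) : ℝ) := by exact_mod_cast this
        refine h3.trans (le_of_eq ?_)
        push_cast
        split_ifs <;> simp
      have h4 := mul_le_mul_of_nonneg_right h2 (pow_nonneg hx0.le k)
      refine h4.trans (le_of_eq ?_)
      rw [add_mul, Finset.sum_filter, Finset.sum_mul]
      congr 1
      · split_ifs with hk0
        · subst hk0; simp
        · simp
      · apply Finset.sum_congr rfl
        intro t _
        split_ifs with htk
        · rw [Finset.sum_mul]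
        · simp
    refine h1.trans (le_of_eq ?_)
    rw [Finset.sum_add_distrib]
    congr 1
    · rw [Finset.sum_ite_eq']
      simp
    · rw [Finset.sum_comm]
      apply Finset.sum_congr rfl
      intro t ht
      rw [Finset.mem_Icc] at ht
      rw [← Finset.sum_filter]
      have h5 : (Finset.range (n + 1)).filter (fun k => t ≤ k) = Finset.Ico t (n + 1) := by
        ext k
        rw [Finset.mem_filter, Finset.mem_range, Finset.mem_Ico]
        tauto
      rw [h5, Finset.sum_comm]
      apply Finset.sum_congr rfl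
      intro i hi
      rw [Finset.mem_range] at hi
      rw [Finset.sum_Ico_eq_sum_range, ← hGext i (n - t) (by omega), Finset.mul_sum,
        show n + 1 - t = n - t + 1 by omega]
      apply Finset.sum_congr rfl
      intro j _
      rw [Nat.add_sub_cancel_left, pow_add]
      ring
  -- the geometric sum
  have hgeo : ∀ m : ℕ, ∑ i ∈ Finset.range (m + 1), L ^ (m - i) * L' ^ i ≤ L' ^ m / (1 - L / L') := by
    intro m
    have h1 : ∑ i ∈ Finset.range (m + 1), L ^ (m - i) * L' ^ i =
        L' ^ m * ∑ j ∈ Finset.range (m + 1), (L / L') ^ j := by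
      rw [← Finset.sum_range_reflect, Finset.mul_sum]
      apply Finset.sum_congr rfl
      intro j hj
      rw [Finset.mem_range] at hj
      rw [show m - (m + 1 - 1 - j) = j by omega, show m + 1 - 1 - j = m - j by omega, div_pow]
      have : L' ^ m = L' ^ (m - j) * L' ^ j := by rw [← pow_add]; congr 1; omega
      rw [this]
      field_simp
    rw [h1, show L' ^ m / (1 - L / L') = L' ^ m * (1 - L / L')⁻¹ from div_eq_mul_inv _ _]
    apply mul_le_mul_of_nonneg_left _ (pow_nonneg hL'0.le m)
    have h2 := geom_sum_eq (x := L / L') (by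
      intro h
      rw [h] at hr1
      simp at hr1) (m + 1)
    rw [h2, ← neg_div_neg_eq, neg_sub, neg_sub, div_le_iff₀ hr1, inv_mul_cancel₀ hr1.ne']
    have h3 : 1 - (L / L') ^ (m + 1) ≤ 1 := by
      have : 0 ≤ (L / L') ^ (m + 1) := by positivity
      linarith
    exact h3
  have hmain : ∀ n, G n ≤ 2 * K * L' ^ n := by
    intro n
    induction n using Nat.strong_induction_on with
    | _ n ih =>
      refine (hGrec n).trans ?_
      have h1 : (an N n : ℝ) ≤ K * L' ^ n :=
        (ha n).trans (mul_le_mul_of_nonneg_left (pow_le_pow_left₀ hL.le hLL.le n) hK0.le)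
      have h2 : ∑ t ∈ Finset.Icc T1 n, ∑ i ∈ Finset.range (n - t + 1),
          (β t : ℝ) * x ^ t * an N (n - t - i) * G i ≤ K * L' ^ n := by
        have h3 : ∀ t ∈ Finset.Icc T1 n, ∑ i ∈ Finset.range (n - t + 1),
            (β t : ℝ) * x ^ t * an N (n - t - i) * G i ≤
            (2 * K * L' ^ n) * ((β t : ℝ) * x ^ t / L' ^ t * (K / (1 - L / L'))) := by
          intro t ht
          rw [Finset.mem_Icc] at ht
          have h4 : ∀ i ∈ Finset.range (n - t + 1),
              (β t : ℝ) * x ^ t * an N (n - t - i) * G i ≤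
              ((β t : ℝ) * x ^ t * K * (2 * K)) * (L ^ (n - t - i) * L' ^ i) := by
            intro i hi
            rw [Finset.mem_range] at hi
            have h5 := ih i (by omega)
            have h6 := ha (n - t - i)
            have h7 : (an N (n - t - i) : ℝ) * G i ≤ (K * L ^ (n - t - i)) * (2 * K * L' ^ i) :=
              mul_le_mul h6 h5 (Finset.sum_nonneg fun j _ => by positivity) (by positivity)
            calc (β t : ℝ) * x ^ t * an N (n - t - i) * G i
                = ((β t : ℝ) * x ^ t) * (an N (n - t - i) * G i) := by ring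
              _ ≤ ((β t : ℝ) * x ^ t) * ((K * L ^ (n - t - i)) * (2 * K * L' ^ i)) :=
                  mul_le_mul_of_nonneg_left h7 (by positivity)
              _ = _ := by ring
          refine (Finset.sum_le_sum h4).trans ?_
          rw [← Finset.mul_sum]
          refine (mul_le_mul_of_nonneg_left (hgeo (n - t)) (by positivity)).trans (le_of_eq ?_)
          have h8 : L' ^ n = L' ^ (n - t) * L' ^ t := by rw [← pow_add]; congr 1; omega
          rw [h8]
          have h9 : L' ^ t ≠ 0 := by positivity
          field_simp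
        refine (Finset.sum_le_sum h3).trans ?_
        rw [← Finset.mul_sum]
        have h10 : 0 ≤ 2 * K * L' ^ n := by positivity
        nlinarith [mul_le_mul_of_nonneg_left (hsum n) h10]
      linarith
  refine le_trans ?_ (hmain n)
  rw [Finset.sum_mul]
  have h1 : ∑ k ∈ Finset.Icc k0 n, (qn N BB n k : ℝ) * x ^ k0 ≤
      ∑ k ∈ Finset.Icc k0 n, (qn N BB n k : ℝ) * x ^ k := by
    apply Finset.sum_le_sum
    intro k hk'
    rw [Finset.mem_Icc] at hk'
    exact mul_le_mul_of_nonneg_left (pow_le_pow_right₀ hx hk'.1) (Nat.cast_nonneg _)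
  refine h1.trans ?_
  apply Finset.sum_le_sum_of_subset_of_nonneg
  · intro k hk'
    rw [Finset.mem_Icc] at hk'
    rw [Finset.mem_range]; omega
  · intro k _ _
    positivity

end FPW
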