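import Pool.Agent.Helper993.FP.WB
set_option autoImplicit false
set_option linter.all false

namespace FPW
variable {d : ℕ}


theorem an_finite (N : Set (List (Fin d))) (n : ℕ) :
    {w : List (Fin d) | w ∈ N ∧ w.length = n}.Finite :=
  (List.finite_length_eq (Fin d) n).subset fun w hw => hw.2

theorem an_add_le (N : Set (List (Fin d)))
    (hfac : ∀ u v w : List (Fin d), u ++ v ++ w ∈ N → v ∈ N) (m n : ℕ) :
    an N (m + n) ≤ an N m * an N n := by
  unfold an
  rw [← Set.ncard_prod]
  refine Set.ncard_le_ncard_of_injOn (fun w => (w.take m, w.drop m)) ?_ ?_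
    ((an_finite N m).prod (an_finite N n))
  · rintro w ⟨hw, hl⟩
    refine ⟨⟨hfac [] _ (w.drop m) (by simpa using hw), by simp [hl]⟩,
      ⟨hfac (w.take m) _ [] (by simpa using hw), by simp [hl]⟩⟩
  · intro w _ w' _ h
    have h1 : w.take m = w'.take m := congrArg Prod.fst h
    have h2 : w.drop m = w'.drop m := congrArg Prod.snd h
    rw [← List.take_append_drop m w, ← List.take_append_drop m w', h1, h2]

/-- growth rate of a factorial language (Fekete) -/
theorem growth_rate (N : Set (List (Fin d))) (hfac : ∀ u v w : List (Fin d), u ++ v ++ w ∈ N → v ∈ N)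
    (r : ℝ) (hr : 1 < r) (hN : ∀ n, 1 ≤ n → r ^ n ≤ (an N n : ℝ)) :
    ∃ lam : ℝ, r ≤ lam ∧ (∀ n, 1 ≤ n → lam ^ n ≤ (an N n : ℝ)) ∧
      ∀ L : ℝ, lam < L → ∃ K : ℝ, 1 ≤ K ∧ ∀ m, (an N m : ℝ) ≤ K * L ^ m := by
  have hr0 : 0 < r := by linarith
  have h1 : ∀ n, 1 ≤ an N n := by
    intro n
    rcases Nat.eq_zero_or_pos n with rfl | hn
    · have h2 := hN 1 le_rfl
      have h3 : 0 < an N 1 := by
        have : (0 : ℝ) < an N 1 := lt_of_lt_of_le (by positivity) h2
        exact_mod_cast this
      obtain ⟨w, hw⟩ := Set.nonempty_of_ncard_ne_zero h3.ne'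
      have h4 : ([] : List (Fin d)) ∈ N := hfac [] [] w (by simpa using hw.1)
      have h5 : 0 < an N 0 := by
        unfold an
        rw [Set.ncard_pos (an_finite N 0)]
        exact ⟨[], h4, rfl⟩
      exact h5
    · have h2 := hN n hn
      have h3 : (0 : ℝ) < an N n := lt_of_lt_of_le (by positivity) h2
      exact_mod_cast h3
  have hpos : ∀ n, (0 : ℝ) < an N n := fun n => by exact_mod_cast h1 n
  set u : ℕ → ℝ := fun n => Real.log (an N n) with hu
  have hsub : Subadditive u := by
    intro m n
    have h2 : ((an N (m + n) : ℕ) : ℝ) ≤ (an N m : ℝ) * (an N n : ℝ) := by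
      exact_mod_cast an_add_le N hfac m n
    calc u (m + n) ≤ Real.log ((an N m : ℝ) * (an N n : ℝ)) := Real.log_le_log (hpos _) h2
      _ = u m + u n := Real.log_mul (hpos _).ne' (hpos _).ne'
  have hu0 : ∀ n, 0 ≤ u n := fun n => Real.log_nonneg (by exact_mod_cast h1 n)
  have hbdd : BddBelow (Set.range fun n => u n / n) := by
    refine ⟨0, ?_⟩
    rintro _ ⟨n, rfl⟩
    have := hu0 n
    positivity
  have hlim := hsub.tendsto_lim hbdd
  refine ⟨Real.exp hsub.lim, ?_, ?_, ?_⟩
  · rw [← Real.log_le_iff_le_exp hr0]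
    refine ge_of_tendsto hlim ?_
    filter_upwards [Filter.eventually_ge_atTop 1] with n hn
    have hn0 : (0 : ℝ) < n := by exact_mod_cast hn
    rw [le_div_iff₀ hn0]
    have h3 := Real.log_le_log (by positivity) (hN n hn)
    rw [Real.log_pow] at h3
    linarith
  · intro n hn
    have hn0 : (0 : ℝ) < n := by exact_mod_cast hn
    have h3 := hsub.lim_le_div hbdd (n := n) (by omega)
    rw [le_div_iff₀ hn0] at h3
    rw [← Real.exp_nat_mul, ← Real.exp_log (hpos n)]
    apply Real.exp_le_exp.2
    have : Real.log (an N n) = u n := rfl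
    linarith
  · intro L hL
    have hL0 : 0 < L := lt_trans (Real.exp_pos _) hL
    have h3 : hsub.lim < Real.log L := (Real.lt_log_iff_exp_lt hL0).2 hL
    have h4 := (hlim.eventually (gt_mem_nhds h3)).and (Filter.eventually_ge_atTop 1)
    obtain ⟨n0, hn0⟩ := Filter.eventually_atTop.1 h4
    refine ⟨1 + ∑ m ∈ Finset.range n0, (an N m : ℝ) / L ^ m, ?_, ?_⟩
    · have : 0 ≤ ∑ m ∈ Finset.range n0, (an N m : ℝ) / L ^ m :=
        Finset.sum_nonneg fun m _ => by positivity
      linarith
    · intro m
      have hs : 0 ≤ ∑ m ∈ Finset.range n0, (an N m : ℝ) / L ^ m :=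
        Finset.sum_nonneg fun m _ => by positivity
      by_cases hm : m < n0
      · have h5 : (an N m : ℝ) / L ^ m ≤ ∑ m ∈ Finset.range n0, (an N m : ℝ) / L ^ m :=
          Finset.single_le_sum (f := fun m => (an N m : ℝ) / L ^ m)
            (fun m _ => by positivity) (Finset.mem_range.2 hm)
        have h6 : (an N m : ℝ) = (an N m : ℝ) / L ^ m * L ^ m := by
          field_simp
        calc (an N m : ℝ) = (an N m : ℝ) / L ^ m * L ^ m := h6
          _ ≤ _ := by
            apply mul_le_mul_of_nonneg_right _ (by positivity)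
            linarith
      · push Not at hm
        obtain ⟨h5, h6⟩ := hn0 m hm
        have hm0 : (0 : ℝ) < m := by exact_mod_cast h6
        rw [div_lt_iff₀ hm0] at h5
        have h7 : (an N m : ℝ) ≤ L ^ m := by
          rw [← Real.exp_log (hpos m), ← Real.exp_log (show 0 < L ^ m by positivity)]
          apply Real.exp_le_exp.2
          rw [Real.log_pow]
          have : Real.log (an N m) = u m := rfl
          linarith
        have h8 : (0 : ℝ) ≤ L ^ m := by positivity
        nlinarith

end FPW
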