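import Pool.Agent.Helper993.FP.W3
import Pool.Agent.Helper993.FP.W5
import Pool.Agent.Helper993.FP.W6
set_option autoImplicit false
set_option linter.all false

namespace FPW
variable {d : ℕ}





theorem bf_len {BB : List (Fin d) → List (Fin d) → Prop} {w : List (Fin d)} {k : ℕ}
    (h : BF BB w k) : k ≤ w.length := by
  induction h with
  | nil w => exact Nat.zero_le _
  | step u v z k _ _ ih =>
    simp only [List.length_append]
    omega

theorem rep_unique {u v v' : List (Fin d)} {t g : ℕ} (hv : v.length = t) (hv' : v'.length = t)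
    (hg : 1 ≤ g) (hgu : g ≤ u.length)
    (h : ∀ i, i < v.length → (u ++ v)[u.length + i]? = (u ++ v)[u.length - g + i]?)
    (h' : ∀ i, i < v'.length → (u ++ v')[u.length + i]? = (u ++ v')[u.length - g + i]?) :
    v = v' := by
  have key : ∀ i, i < t → v[i]? = v'[i]? := by
    intro i
    induction i using Nat.strong_induction_on with
    | _ i ih =>
      intro hi
      have e1 := h i (by omega)
      have e2 := h' i (by omega)
      rw [List.getElem?_append_right (by omega), Nat.add_sub_cancel_left] at e1 e2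
      rw [e1, e2]
      by_cases hig : i < g
      · rw [List.getElem?_append_left (by omega), List.getElem?_append_left (by omega)]
      · rw [List.getElem?_append_right (by omega), List.getElem?_append_right (by omega)]
        have : u.length - g + i - u.length = i - g := by omega
        rw [this]
        exact ih (i - g) (by omega) (by omega)
  apply List.ext_getElem?
  intro i
  by_cases hi : i < t
  · exact key i hi
  · rw [List.getElem?_eq_none (by omega), List.getElem?_eq_none (by omega)]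

theorem bb_card (E : ℕ → Finset (List (Fin d))) (Q : ℕ → ℕ) (T1 : ℕ) (u : List (Fin d)) (t : ℕ) :
    Set.ncard {v : List (Fin d) | v.length = t ∧ BB E Q T1 u v} ≤ (E t).card + Q t := by
  classical
  have hpick : ∀ g : ℕ, ∃ p : List (Fin d), ∀ v : List (Fin d), v.length = t → 1 ≤ g →
      g ≤ u.length → (∀ i, i < v.length → (u ++ v)[u.length + i]? = (u ++ v)[u.length - g + i]?) →
      v = p := by
    intro g
    by_cases hex : ∃ v : List (Fin d), v.length = t ∧ 1 ≤ g ∧ g ≤ u.length ∧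
        (∀ i, i < v.length → (u ++ v)[u.length + i]? = (u ++ v)[u.length - g + i]?)
    · obtain ⟨p, hp1, hp2, hp3, hp4⟩ := hex
      exact ⟨p, fun v hv hg hgu h => rep_unique hv hp1 hg hgu h hp4⟩
    · exact ⟨[], fun v hv hg hgu h => absurd ⟨v, hv, hg, hgu, h⟩ hex⟩
  choose p hp using hpick
  have hsub : {v : List (Fin d) | v.length = t ∧ BB E Q T1 u v} ⊆
      ((E t ∪ (Finset.Icc 1 (Q t)).image p : Finset (List (Fin d))) : Set (List (Fin d))) := by
    rintro v ⟨hv, -, h⟩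
    rw [Finset.mem_coe, Finset.mem_union, Finset.mem_image]
    rcases h with h | ⟨g, hg1, hg2, hg3, hg4⟩
    · left; rw [hv] at h; exact h
    · right
      refine ⟨g, Finset.mem_Icc.2 ⟨hg1, by rw [hv] at hg2; exact hg2⟩, ?_⟩
      exact (hp g v hv hg1 hg3 hg4).symm
  calc Set.ncard {v : List (Fin d) | v.length = t ∧ BB E Q T1 u v}
      ≤ Set.ncard ((E t ∪ (Finset.Icc 1 (Q t)).image p : Finset (List (Fin d))) : Set (List (Fin d))) :=
        Set.ncard_le_ncard hsub (Finset.finite_toSet _)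
    _ = (E t ∪ (Finset.Icc 1 (Q t)).image p).card := Set.ncard_coe_finset _
    _ ≤ (E t).card + ((Finset.Icc 1 (Q t)).image p).card := Finset.card_union_le _ _
    _ ≤ (E t).card + Q t := by
        have := Finset.card_image_le (s := Finset.Icc 1 (Q t)) (f := p)
        rw [Nat.card_Icc] at this
        omega

theorem geom_tail {ρ K' : ℝ} (h0 : 0 < ρ) (h1 : ρ < 1) (hK : 0 < K') :
    ∃ T : ℕ, ∀ T1, T ≤ T1 → ∀ n, ∑ t ∈ Finset.Icc T1 n, ρ ^ t * K' ≤ 1 / 2 := by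
  have hlim : Filter.Tendsto (fun n : ℕ => ρ ^ n / (1 - ρ) * K') Filter.atTop (nhds (0 / (1 - ρ) * K')) :=
    ((tendsto_pow_atTop_nhds_zero_of_lt_one h0.le h1).div_const _).mul_const _
  rw [zero_div, zero_mul] at hlim
  obtain ⟨T, hT⟩ := Filter.eventually_atTop.1
    (hlim.eventually (gt_mem_nhds (by norm_num : (0:ℝ) < 1 / 2)))
  refine ⟨T, fun T1 hT1 n => ?_⟩
  have h2 := (hT T1 hT1).le
  refine le_trans ?_ h2
  rw [← Finset.sum_mul]
  apply mul_le_mul_of_nonneg_right _ hK.le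
  have h3 : ∑ t ∈ Finset.Icc T1 n, ρ ^ t ≤ ρ ^ T1 / (1 - ρ) := by
    rcases le_or_gt T1 n with hn | hn
    · have h4 : Finset.Icc T1 n = Finset.Ico T1 (n + 1) := by
        ext y; simp only [Finset.mem_Icc, Finset.mem_Ico]; omega
      rw [h4, Finset.sum_Ico_eq_sum_range]
      have h5 : ∀ i ∈ Finset.range (n + 1 - T1), ρ ^ (T1 + i) = ρ ^ T1 * ρ ^ i := by
        intro i _; rw [pow_add]
      rw [Finset.sum_congr rfl h5, ← Finset.mul_sum, div_eq_mul_inv]
      apply mul_le_mul_of_nonneg_left _ (by positivity)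
      rw [← tsum_geometric_of_lt_one h0.le h1]
      exact (summable_geometric_of_lt_one h0.le h1).sum_le_tsum _ (fun i _ => by positivity)
    · rw [Finset.Icc_eq_empty (by omega), Finset.sum_empty]
      have : 0 < 1 - ρ := by linarith
      positivity
  exact h3

open Classical in
/-- TARGET: most positions of some word of `N` are not covered by bad blocks -/
theorem CL (N : Set (List (Fin d))) (hfac : ∀ u v w : List (Fin d), u ++ v ++ w ∈ N → v ∈ N)
    (r : ℝ) (hr : 1 < r) (hN : ∀ n, 1 ≤ n → r ^ n ≤ (an N n : ℝ)) (μ : ℝ) (h1 : 1 < μ) (h2 : μ < r)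
    (CB T1min : ℕ) :
    ∃ T1, T1min ≤ T1 ∧ 1 ≤ T1 ∧ ∃ n0, ∀ n, n0 ≤ n → ∀ E : ℕ → Finset (List (Fin d)),
      (∀ t, T1 ≤ t → ((E t).card : ℝ) ≤ μ ^ t) → ∃ w ∈ N, w.length = n ∧
        8 * ((Finset.range (n + 1)).filter (fun e => ∃ i t, T1 ≤ t ∧ i + t ≤ n ∧ i ≤ e ∧ e ≤ i + CB * t ∧
          BB E (fun t => ⌊μ ^ t⌋₊) T1 (w.take i) ((w.drop i).take t))).card ≤ n := by
  obtain ⟨lam, hlam1, hlam2, hlam3⟩ := growth_rate N hfac r hr hN
  have hμ0 : 0 < μ := by linarith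
  have hlam0 : 0 < lam := by linarith
  obtain ⟨x, hx⟩ : ∃ x, x = Real.sqrt (lam / μ) := ⟨_, rfl⟩
  have hlm : 1 < lam / μ := by rw [one_lt_div hμ0]; linarith
  have hxx : x * x = lam / μ := by rw [hx]; exact Real.mul_self_sqrt (by positivity)
  have hx1 : 1 < x := by
    rw [hx, Real.lt_sqrt (by norm_num)]; simpa using hlm
  have hx0 : 0 < x := by linarith
  have hμx : μ * x < lam := by
    have h3 : μ * (x * x) = lam := by rw [hxx]; field_simp
    nlinarith [mul_pos hμ0 hx0]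
  obtain ⟨θ, hθ⟩ : ∃ θ : ℝ, θ = 1 / (8 * (CB + 3)) := ⟨_, rfl⟩
  have hθ0 : 0 < θ := by rw [hθ]; positivity
  obtain ⟨y, hy⟩ : ∃ y : ℝ, y = x ^ θ := ⟨_, rfl⟩
  have hy1 : 1 < y := by rw [hy]; exact Real.one_lt_rpow hx1 hθ0
  obtain ⟨ε, hε⟩ : ∃ ε, ε = (y - 1) / 2 := ⟨_, rfl⟩
  have hε0 : 0 < ε := by rw [hε]; linarith
  have hεy : 1 + ε < y := by rw [hε]; linarith
  obtain ⟨K, hK1, hK⟩ := hlam3 (lam * (1 + ε / 2)) (by nlinarith)
  obtain ⟨L, hL⟩ : ∃ L, L = lam * (1 + ε / 2) := ⟨_, rfl⟩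
  obtain ⟨L', hL'⟩ : ∃ L', L' = lam * (1 + ε) := ⟨_, rfl⟩
  rw [← hL] at hK
  have hL0 : 0 < L := by rw [hL]; positivity
  have hLL : L < L' := by rw [hL, hL']; nlinarith
  have hL'0 : 0 < L' := by linarith
  have hlL' : lam < L' := by rw [hL']; nlinarith
  have hq : 0 < 1 - L / L' := by
    have : L / L' < 1 := (div_lt_one hL'0).2 hLL
    linarith
  obtain ⟨ρ, hρ⟩ : ∃ ρ, ρ = μ * x / L' := ⟨_, rfl⟩
  have hρ0 : 0 < ρ := by rw [hρ]; positivity
  have hρ1 : ρ < 1 := by rw [hρ, div_lt_one hL'0]; linarith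
  have hKpos : 0 < K := by linarith
  obtain ⟨T, hT⟩ := geom_tail (K' := 2 * (K / (1 - L / L'))) hρ0 hρ1 (by positivity)
  obtain ⟨T1, hT1⟩ : ∃ T1, T1 = max T (max T1min 1) := ⟨_, rfl⟩
  have hT1a : T1min ≤ T1 := by omega
  have hT1b : 1 ≤ T1 := by omega
  have hT1c : T ≤ T1 := by omega
  refine ⟨T1, hT1a, hT1b, ?_⟩
  -- n0
  have hz0 : 0 < (1 + ε) / y := by positivity
  have hz1 : (1 + ε) / y < 1 := (div_lt_one (by linarith)).2 hεy
  have hlim : Filter.Tendsto (fun n : ℕ => 2 * K * ((1 + ε) / y) ^ n) Filter.atTop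
      (nhds (2 * K * 0)) := (tendsto_pow_atTop_nhds_zero_of_lt_one hz0.le hz1).const_mul _
  rw [mul_zero] at hlim
  obtain ⟨n0, hn0⟩ := Filter.eventually_atTop.1
    (hlim.eventually (gt_mem_nhds (by norm_num : (0:ℝ) < 1)))
  refine ⟨max n0 1, ?_⟩
  intro n hn E hE
  have hn1 : 1 ≤ n := by omega
  have hnn0 : n0 ≤ n := by omega
  obtain ⟨Q, hQ⟩ : ∃ Q : ℕ → ℕ, Q = fun t => ⌊μ ^ t⌋₊ := ⟨_, rfl⟩
  have hβ : ∀ (u : List (Fin d)) (t : ℕ), T1 ≤ t →
      Set.ncard {v : List (Fin d) | v.length = t ∧ BB E Q T1 u v} ≤ 2 * ⌊μ ^ t⌋₊ := by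
    intro u t ht
    have h3 := bb_card E Q T1 u t
    have h4 : (E t).card ≤ ⌊μ ^ t⌋₊ := Nat.le_floor (hE t ht)
    have h5 : Q t = ⌊μ ^ t⌋₊ := by rw [hQ]
    omega
  have hlen : ∀ u v : List (Fin d), BB E Q T1 u v → T1 ≤ v.length := fun u v h => h.1
  have hrec := count_rec N hfac (BB E Q T1) T1 hT1b (fun t => 2 * ⌊μ ^ t⌋₊) hlen hβ
  have hk : ∀ n k, n < k → qn N (BB E Q T1) n k = 0 := by
    intro n k hnk
    have : {w : List (Fin d) | w ∈ N ∧ w.length = n ∧ BF (BB E Q T1) w k} = ∅ := by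
      ext w
      simp only [Set.mem_setOf_eq, Set.mem_empty_iff_false, iff_false]
      rintro ⟨_, hw, hb⟩
      have := bf_len hb
      omega
    unfold qn
    rw [this, Set.ncard_empty]
  have hsum : ∀ n, ∑ t ∈ Finset.Icc T1 n, (((fun t => 2 * ⌊μ ^ t⌋₊) t : ℕ) : ℝ) * x ^ t / L' ^ t *
      (K / (1 - L / L')) ≤ 1 / 2 := by
    intro n
    refine le_trans (Finset.sum_le_sum ?_) (hT T1 hT1c n)
    intro t _
    have h3 : ((2 * ⌊μ ^ t⌋₊ : ℕ) : ℝ) ≤ 2 * μ ^ t := by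
      push_cast
      have := Nat.floor_le (show 0 ≤ μ ^ t by positivity)
      linarith
    have h4 : ρ ^ t * (2 * (K / (1 - L / L'))) = 2 * μ ^ t * x ^ t / L' ^ t * (K / (1 - L / L')) := by
      rw [hρ, div_pow, mul_pow]; ring
    rw [h4]
    gcongr
  obtain ⟨k0, hk0⟩ : ∃ k0, k0 = n / (8 * (CB + 3)) + 1 := ⟨_, rfl⟩
  have hcb := count_bound N (BB E Q T1) T1 hT1b (fun t => 2 * ⌊μ ^ t⌋₊) hrec hk K L L' x hK1 hL0 hLL
    hx1.le hK hsum n k0
  have hθn : θ * n ≤ k0 := by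
    rw [hθ, hk0]
    have h3 : n < (n / (8 * (CB + 3)) + 1) * (8 * (CB + 3)) := by
      have := Nat.lt_div_mul_add (a := n) (b := 8 * (CB + 3)) (by positivity)
      linarith [this, Nat.add_mul (n / (8 * (CB + 3))) 1 (8 * (CB + 3))]
    have h4 : (n : ℝ) < ((n / (8 * (CB + 3)) : ℕ) + 1 : ℝ) * (8 * (CB + 3)) := by exact_mod_cast h3
    push_cast
    rw [div_mul_eq_mul_div, one_mul, div_le_iff₀ (by positivity)]
    push_cast at h4
    linarith
  have hsmall : ∑ k ∈ Finset.Icc k0 n, (qn N (BB E Q T1) n k : ℝ) < lam ^ n := by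
    have h3 : y ^ n ≤ x ^ k0 := by
      rw [hy, ← Real.rpow_natCast (x ^ θ) n, ← Real.rpow_mul hx0.le, ← Real.rpow_natCast x k0]
      exact Real.rpow_le_rpow_of_exponent_le hx1.le hθn
    have h4 : 0 < y ^ n := by positivity
    have h5 : (∑ k ∈ Finset.Icc k0 n, (qn N (BB E Q T1) n k : ℝ)) * y ^ n ≤ 2 * K * L' ^ n := by
      refine le_trans (mul_le_mul_of_nonneg_left h3 ?_) hcb
      exact Finset.sum_nonneg (fun _ _ => Nat.cast_nonneg _)
    have h6 := hn0 n hnn0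
    have h7 : 2 * K * L' ^ n = (2 * K * ((1 + ε) / y) ^ n) * lam ^ n * y ^ n := by
      rw [hL', mul_pow, div_pow]; field_simp
    rw [h7] at h5
    have h8 := le_of_mul_le_mul_right h5 h4
    have h9 : 0 < lam ^ n := by positivity
    nlinarith
  have hex : ∃ w : List (Fin d), w ∈ N ∧ w.length = n ∧ ∀ k, k0 ≤ k → ¬ BF (BB E Q T1) w k := by
    by_contra hcon
    push Not at hcon
    have hsub : {w : List (Fin d) | w ∈ N ∧ w.length = n} ⊆
        ⋃ k ∈ Finset.Icc k0 n, {w : List (Fin d) | w ∈ N ∧ w.length = n ∧ BF (BB E Q T1) w k} := by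
      rintro w ⟨hw, hwn⟩
      obtain ⟨k, hk, hb⟩ := hcon w hw hwn
      simp only [Set.mem_iUnion]
      refine ⟨k, Finset.mem_Icc.2 ⟨hk, ?_⟩, hw, hwn, hb⟩
      have := bf_len hb
      omega
    have hfin : ∀ k, {w : List (Fin d) | w ∈ N ∧ w.length = n ∧ BF (BB E Q T1) w k}.Finite :=
      fun k => (words_finite (d := d) n).subset (fun w h => h.2.1)
    have h3 : an N n ≤ ∑ k ∈ Finset.Icc k0 n, qn N (BB E Q T1) n k := by
      unfold an qn
      refine (Set.ncard_le_ncard hsub ?_).trans ?_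
      · exact Set.Finite.biUnion (Finset.finite_toSet _) (fun k _ => hfin k)
      · exact Finset.set_ncard_biUnion_le _ _
    have h4 : (an N n : ℝ) ≤ ∑ k ∈ Finset.Icc k0 n, (qn N (BB E Q T1) n k : ℝ) := by exact_mod_cast h3
    have h5 := hlam2 n hn1
    linarith
  obtain ⟨w, hwN, hwn, hwk⟩ := hex
  refine ⟨w, hwN, hwn, ?_⟩
  obtain ⟨B, hB⟩ : ∃ B : Finset (ℕ × ℕ), B = ((Finset.range (n + 1)) ×ˢ (Finset.range (n + 1))).filter
      (fun p => T1 ≤ p.2 ∧ p.1 + p.2 ≤ n ∧ BB E Q T1 (w.take p.1) ((w.drop p.1).take p.2)) := ⟨_, rfl⟩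
  have hmem : ∀ p : ℕ × ℕ, p ∈ B ↔ T1 ≤ p.2 ∧ p.1 + p.2 ≤ n ∧
      BB E Q T1 (w.take p.1) ((w.drop p.1).take p.2) := by
    intro p
    rw [hB, Finset.mem_filter, Finset.mem_product, Finset.mem_range, Finset.mem_range]
    constructor
    · exact fun h => h.2
    · exact fun h => ⟨by omega, h⟩
  obtain ⟨F, hFB, hFd, hFc⟩ := vitali B CB n (fun x hx => by have := (hmem x).1 hx; omega)
  have hbf := bf_of_family (BB E Q T1) w F (fun x hx => by have := (hmem x).1 (hFB hx); omega) hFd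
    (fun x hx => by
      have := (hmem x).1 (hFB hx)
      exact ⟨by rw [hwn]; exact this.2.1, this.2.2⟩)
  have hFk : ∑ x ∈ F, x.2 ≤ n / (8 * (CB + 3)) := by
    by_contra hcon
    exact hwk _ (by omega) hbf
  have hsubset : ((Finset.range (n + 1)).filter (fun e => ∃ i t, T1 ≤ t ∧ i + t ≤ n ∧ i ≤ e ∧
      e ≤ i + CB * t ∧ BB E (fun t => ⌊μ ^ t⌋₊) T1 (w.take i) ((w.drop i).take t))).card ≤
      ((Finset.range (n + 1)).filter (fun e => ∃ x ∈ B, x.1 ≤ e ∧ e ≤ x.1 + CB * x.2)).card := by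
    apply Finset.card_le_card
    intro e he
    rw [Finset.mem_filter] at he ⊢
    obtain ⟨h3, i, t, h4, h5, h6, h7, h8⟩ := he
    refine ⟨h3, (i, t), (hmem _).2 ⟨h4, h5, ?_⟩, h6, h7⟩
    rw [hQ]; exact h8
  have h9 : 8 * ((CB + 3) * (n / (8 * (CB + 3)))) ≤ n := by
    have := Nat.div_mul_le_self n (8 * (CB + 3))
    calc 8 * ((CB + 3) * (n / (8 * (CB + 3)))) = n / (8 * (CB + 3)) * (8 * (CB + 3)) := by ring
      _ ≤ n := this
  calc 8 * _ ≤ 8 * ((CB + 3) * ∑ x ∈ F, x.2) := Nat.mul_le_mul_left _ (hsubset.trans hFc)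
    _ ≤ 8 * ((CB + 3) * (n / (8 * (CB + 3)))) :=
        Nat.mul_le_mul_left _ (Nat.mul_le_mul_left _ hFk)
    _ ≤ n := h9

end FPW
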