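import Pool.Agent.Helper993.FP.WB
set_option autoImplicit false
set_option linter.all false

namespace FPW
variable {d : ℕ}


/-- if `e` is not covered by a repeating block, the suffix order is total up to `e` -/
theorem tot_of_not_pbad (w : ℕ → Fin d) (n e : ℕ) (Q : ℕ → ℕ) (T1 CB : ℕ) (hCB : 1 ≤ CB)
    (h1 : e + T1 ≤ n) (h2 : ∀ t, n ≤ e + t → n ≤ Q t) (he : ¬ PBad w n Q T1 CB e) :
    ∀ m m', m < m' → m' ≤ e → Lt' w n m m' ∨ Lt' w n m' m := by
  classical
  intro m m' hmm hme
  by_cases hall : ∀ i, m' + i < n → w (m + i) = w (m' + i)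
  · exfalso
    apply he
    refine ⟨m, m', n - m', hmm, hme, by omega, by omega, fun i hi => hall i (by omega), ?_, ?_⟩
    · have : 1 * (n - m') ≤ CB * (n - m') := Nat.mul_le_mul_right _ hCB
      omega
    · have := h2 (n - m') (by omega)
      omega
  · push Not at hall
    have hex : ∃ i, m' + i < n ∧ w (m + i) ≠ w (m' + i) := hall
    obtain ⟨hk1, hk2⟩ := Nat.find_spec hex
    have hmin : ∀ i, i < Nat.find hex → w (m + i) = w (m' + i) := by
      intro i hi
      have := Nat.find_min hex hi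
      push Not at this
      exact this (by omega)
    set k := Nat.find hex with hk
    rcases lt_or_gt_of_ne hk2 with h | h
    · exact Or.inl ⟨k, by omega, hk1, hmin, h⟩
    · exact Or.inr ⟨k, hk1, by omega, fun i hi => (hmin i hi).symm, h⟩

/-- the suffix order is transitive and irreflexive -/
theorem Lt'_trans (w : ℕ → Fin d) (n a b c : ℕ) (h1 : Lt' w n a b) (h2 : Lt' w n b c) : Lt' w n a c := by
  obtain ⟨k1, ha1, hb1, he1, hl1⟩ := h1
  obtain ⟨k2, hb2, hc2, he2, hl2⟩ := h2
  rcases lt_trichotomy k1 k2 with h | h | h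
  · exact ⟨k1, ha1, by omega, fun i hi => (he1 i hi).trans (he2 i (by omega)), by rw [← he2 k1 h]; exact hl1⟩
  · subst h
    exact ⟨k1, ha1, hc2, fun i hi => (he1 i hi).trans (he2 i hi), hl1.trans hl2⟩
  · exact ⟨k2, by omega, hc2, fun i hi => (he1 i (by omega)).trans (he2 i hi), by rw [he1 k2 h]; exact hl2⟩

theorem Lt'_irrefl (w : ℕ → Fin d) (n a : ℕ) : ¬ Lt' w n a a := by
  rintro ⟨k, _, _, _, h⟩
  exact lt_irrefl _ h

theorem exists_ltmin (w : ℕ → Fin d) (n e : ℕ)
    (htot : ∀ m m', m < m' → m' ≤ e → Lt' w n m m' ∨ Lt' w n m' m) (lo : ℕ) :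
    ∀ k, lo + k ≤ e → ∃ m, lo ≤ m ∧ m ≤ lo + k ∧ ∀ i, lo ≤ i → i ≤ lo + k → i ≠ m → Lt' w n m i := by
  intro k
  induction k with
  | zero =>
    intro _
    exact ⟨lo, le_rfl, le_rfl, fun i h1 h2 h3 => absurd (by omega) h3⟩
  | succ k ih =>
    intro hk
    obtain ⟨m, hm1, hm2, hm3⟩ := ih (by omega)
    rcases htot m (lo + (k + 1)) (by omega) hk with h | h
    · refine ⟨m, hm1, by omega, fun i h1 h2 h3 => ?_⟩
      by_cases hi : i = lo + (k + 1)
      · rw [hi]; exact h
      · exact hm3 i h1 (by omega) h3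
    · refine ⟨lo + (k + 1), by omega, le_rfl, fun i h1 h2 h3 => ?_⟩
      by_cases him : i = m
      · rw [him]; exact h
      · exact Lt'_trans w n _ _ _ h (hm3 i h1 (by omega) him)

/-- numerical value of the word of length `k` at `m` -/
def V (w : ℕ → Fin d) (m : ℕ) : ℕ → ℕ
  | 0 => 0
  | k + 1 => V w m k * d + (w (m + k) : ℕ)

theorem V_lt (w : ℕ → Fin d) (m k : ℕ) : V w m k < d ^ k := by
  induction k with
  | zero => simp [V]
  | succ k ih =>
    have h1 : (w (m + k) : ℕ) < d := (w (m + k)).isLt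
    have h2 : (V w m k + 1) * d ≤ d ^ k * d := Nat.mul_le_mul_right _ ih
    simp only [V, pow_succ]
    nlinarith

theorem V_congr (w : ℕ → Fin d) (m m' k : ℕ) (h : ∀ i, i < k → w (m + i) = w (m' + i)) :
    V w m k = V w m' k := by
  induction k with
  | zero => simp [V]
  | succ k ih =>
    simp only [V]
    rw [ih (fun i hi => h i (by omega)), h k (by omega)]

theorem V_lt_of (w : ℕ → Fin d) (m m' k : ℕ) (h : ∀ i, i < k → w (m + i) = w (m' + i))
    (hlt : w (m + k) < w (m' + k)) : ∀ L, k < L → V w m L < V w m' L := by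
  intro L
  induction L with
  | zero => intro h; omega
  | succ L ih =>
    intro hL
    by_cases hkL : k = L
    · subst hkL
      have : (w (m + k) : ℕ) < (w (m' + k) : ℕ) := hlt
      simp only [V]
      rw [V_congr w m m' k h]
      omega
    · have h1 := ih (by omega)
      have h2 : (w (m + L) : ℕ) < d := (w (m + L)).isLt
      have h3 : (V w m L + 1) * d ≤ V w m' L * d := Nat.mul_le_mul_right _ h1
      simp only [V]
      nlinarith

open Classical in
theorem class_count (w : ℕ → Fin d) (n L D q x : ℕ) (hq : 1 ≤ q) (S : Finset ℕ)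
    (hS1 : ∀ m ∈ S, x * D ≤ m ∧ m < (x + 1) * D)
    (hS2 : ∀ m ∈ S, ∀ i, m - D ≤ i → i < m → Lt' w n m i)
    (hS3 : ∀ m ∈ S, ¬ ∃ a, a < m ∧ m - a ≤ q ∧ ∀ i, i < L → w (a + i) = w (m + i)) :
    S.card ≤ D / q + 2 + d ^ L := by
  set F : ℕ → ℕ := fun m => (m - x * D) / q + (d ^ L - V w m L) with hF
  have hmono : ∀ m ∈ S, ∀ m' ∈ S, m < m' → F m < F m' := by
    intro m hm m' hm' hlt
    obtain ⟨h1, h2⟩ := hS1 m hm
    obtain ⟨h1', h2'⟩ := hS1 m' hm'
    have hexp : (x + 1) * D = x * D + D := by ring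
    rw [hexp] at h2 h2'
    have hV1 := V_lt w m L
    have hV2 := V_lt w m' L
    obtain ⟨k, hk1, hk2, hk3, hk4⟩ := hS2 m' hm' m (by omega) hlt
    have hdiv : (m - x * D) / q ≤ (m' - x * D) / q := Nat.div_le_div_right (by omega)
    simp only [hF]
    by_cases hkL : k < L
    · have := V_lt_of w m' m k hk3 hk4 L hkL
      omega
    · have heq : ∀ i, i < L → w (m' + i) = w (m + i) := fun i hi => hk3 i (by omega)
      have hV := V_congr w m' m L heq
      have hgap : q < m' - m := by
        by_contra hcon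
        exact hS3 m' hm' ⟨m, hlt, by omega, fun i hi => (heq i hi).symm⟩
      have h3 : (m - x * D + q) / q ≤ (m' - x * D) / q := Nat.div_le_div_right (by omega)
      rw [Nat.add_div_right _ hq] at h3
      omega
  have hinj : Set.InjOn F (S : Set ℕ) := by
    intro m hm m' hm' h
    rcases lt_trichotomy m m' with h1 | h1 | h1
    · exact absurd h (hmono m hm m' hm' h1).ne
    · exact h1
    · exact absurd h (hmono m' hm' m hm h1).ne'
  have hmaps : ∀ m ∈ S, F m ∈ Finset.range (D / q + 1 + d ^ L) := by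
    intro m hm
    obtain ⟨h1, h2⟩ := hS1 m hm
    have hexp : (x + 1) * D = x * D + D := by ring
    rw [hexp] at h2
    have : (m - x * D) / q ≤ D / q := Nat.div_le_div_right (by omega)
    simp only [hF, Finset.mem_range]
    omega
  have := Finset.card_le_card_of_injOn F hmaps hinj
  rw [Finset.card_range] at this
  omega

open Classical in
/-- few positions see no record at distance in `(CB L, d^(2L) + CB L]` -/
theorem rs_count (w : ℕ → Fin d) (n L T1 CB : ℕ) (Q : ℕ → ℕ) (hd : 1 ≤ d) (hCB : 1 ≤ CB) (hL : T1 ≤ L) (hL1 : 1 ≤ L)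
    (hQ : 1 ≤ Q L) (hn1 : 4 * L ≤ n) (hnT : 4 * T1 ≤ n) (hn2 : 2 * (d ^ (2 * L) + CB * L) ≤ n)
    (hnQ : ∀ t, n ≤ 4 * t → n ≤ Q t) :
    ((Finset.range (n + 1)).filter (fun e => n ≤ 2 * e ∧ 4 * e ≤ 3 * n ∧ ¬ PBad w n Q T1 CB e ∧
      ¬ ∃ m, Rec w n e m ∧ CB * L < e - m ∧ e - m ≤ d ^ (2 * L) + CB * L)).card ≤
    (CB * L + 1) * ((n / d ^ (2 * L) + 1) * (d ^ (2 * L) / Q L + 2 + d ^ L)) := by
  set D := d ^ (2 * L) with hD
  have hDpos : 0 < D := pow_pos (by omega) _
  set X := (Finset.range (n + 1)).filter (fun e => n ≤ 2 * e ∧ 4 * e ≤ 3 * n ∧ ¬ PBad w n Q T1 CB e ∧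
      ¬ ∃ m, Rec w n e m ∧ CB * L < e - m ∧ e - m ≤ D + CB * L) with hX
  set M := (Finset.range (n + 1)).filter (fun m => D ≤ m ∧ m + L ≤ n ∧
      (∀ i, m - D ≤ i → i < m → Lt' w n m i) ∧
      ¬ ∃ a, a < m ∧ m - a ≤ Q L ∧ ∀ i, i < L → w (a + i) = w (m + i)) with hM
  have hcover : X ⊆ M.biUnion (fun m => Finset.Icc m (m + CB * L)) := by
    intro e he
    rw [hX, Finset.mem_filter] at he
    obtain ⟨_, he1, he2, he3, he4⟩ := he
    have htot := tot_of_not_pbad w n e Q T1 CB hCB (by omega)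
      (fun t ht => hnQ t (by omega)) he3
    have hTe : D + CB * L ≤ e := by omega
    obtain ⟨m, hm1, hm2, hm3⟩ := exists_ltmin w n e htot (e - (D + CB * L)) (D + CB * L) (by omega)
    have hme : m ≤ e := by omega
    have hrec : Rec w n e m := ⟨hme, fun m' h1 h2 => hm3 m' (by omega) (by omega) (by omega)⟩
    have hdist : e - m ≤ CB * L := by
      by_contra hcon
      exact he4 ⟨m, hrec, by omega, by omega⟩
    rw [Finset.mem_biUnion]
    refine ⟨m, ?_, ?_⟩
    · rw [hM, Finset.mem_filter]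
      refine ⟨Finset.mem_range.2 (by omega), by omega, by omega,
        fun i h1 h2 => hm3 i (by omega) (by omega) (by omega), ?_⟩
      rintro ⟨a, ha1, ha2, ha3⟩
      exact he3 ⟨a, m, L, ha1, hme, hL, by omega, ha3, by omega, ha2⟩
    · rw [Finset.mem_Icc]
      omega
  have hX1 : X.card ≤ M.card * (CB * L + 1) := by
    refine (Finset.card_le_card hcover).trans ?_
    refine Finset.card_biUnion_le_card_mul M _ _ (fun m _ => ?_)
    rw [Nat.card_Icc]
    omega
  have hM1 : M.card ≤ (D / Q L + 2 + d ^ L) * (Finset.range (n / D + 1)).card := by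
    refine Finset.card_le_mul_card_image_of_maps_to (f := fun m => m / D) ?_ _ ?_
    · intro m hm
      rw [hM, Finset.mem_filter, Finset.mem_range] at hm
      rw [Finset.mem_range]
      have : m / D ≤ n / D := Nat.div_le_div_right (by omega)
      omega
    · intro x _
      apply class_count w n L D (Q L) x hQ
      · intro m hm
        rw [Finset.mem_filter] at hm
        have hx := hm.2
        constructor
        · rw [← hx]; exact Nat.div_mul_le_self m D
        · rw [← hx]; exact (Nat.div_lt_iff_lt_mul hDpos).1 (Nat.lt_succ_self (m / D))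
      · intro m hm
        rw [Finset.mem_filter, hM, Finset.mem_filter] at hm
        exact hm.1.2.2.2.1
      · intro m hm
        rw [Finset.mem_filter, hM, Finset.mem_filter] at hm
        exact hm.1.2.2.2.2
  rw [Finset.card_range] at hM1
  calc X.card ≤ M.card * (CB * L + 1) := hX1
    _ ≤ ((D / Q L + 2 + d ^ L) * (n / D + 1)) * (CB * L + 1) := Nat.mul_le_mul_right _ hM1
    _ = (CB * L + 1) * ((n / D + 1) * (D / Q L + 2 + d ^ L)) := by ring


end FPW
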