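import Pool.Agent.Helper993.FP.W2
import Pool.Agent.Helper993.FP.W7
import Pool.Agent.Helper993.FP.W8
set_option autoImplicit false
set_option linter.all false

namespace FPW
variable {d : ℕ}




theorem w9_blk_append (w : ℕ → Fin d) {a b c : ℕ} (h1 : a ≤ b) (h2 : b ≤ c) :
    blk w a b ++ blk w b c = blk w a c := by
  unfold blk
  apply List.ext_getElem
  · simp; omega
  · intro i h3 h4
    rw [List.getElem_append]
    split_ifs with h
    · simp
    · simp only [List.length_map, List.length_range, not_lt] at h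
      simp only [List.getElem_map, List.getElem_range, List.length_map, List.length_range]
      congr 1
      omega

theorem w9_blk_length (w : ℕ → Fin d) (a b : ℕ) : (blk w a b).length = b - a := by
  simp [blk]

theorem w9_blk_eq (w : List (Fin d)) (z : Fin d) {a b : ℕ} (h1 : a ≤ b) (h2 : b ≤ w.length) :
    blk (fun i => w.getD i z) a b = (w.drop a).take (b - a) := by
  apply List.ext_getElem
  · simp [blk]; omega
  · intro i h3 h4
    rw [w9_blk_length] at h3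
    simp only [blk, List.getElem_map, List.getElem_range, List.getElem_take, List.getElem_drop]
    rw [List.getD_eq_getElem _ _ (by omega)]

theorem w9_cat (w : ℕ → Fin d) (m : ℕ → ℕ) : ∀ k, (∀ i, i < k → m (i + 1) < m i) →
    m k ≤ m 0 ∧ cat (fun i => blk w (m (i + 1)) (m i)) k = blk w (m k) (m 0)
  | 0, _ => ⟨le_rfl, by simp [cat, blk]⟩
  | k + 1, h => by
    obtain ⟨h1, h2⟩ := w9_cat w m k (fun i hi => h i (by omega))
    have h3 := h k (by omega)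
    refine ⟨by omega, ?_⟩
    rw [cat, h2, w9_blk_append w h3.le h1]

theorem w9_pbad_bad (w : List (Fin d)) (z : Fin d) (n : ℕ) (hw : w.length = n) (μ : ℝ) (T1 CB e : ℕ)
    (E : ℕ → Finset (List (Fin d)))
    (h : PBad (fun i => w.getD i z) n (fun t => ⌊μ ^ t⌋₊) T1 CB e) :
    ∃ i t, T1 ≤ t ∧ i + t ≤ n ∧ i ≤ e ∧ e ≤ i + CB * t ∧
          BB E (fun t => ⌊μ ^ t⌋₊) T1 (w.take i) ((w.drop i).take t) := by
  obtain ⟨a, b, t, h1, h2, h3, h4, h5, h6, h7⟩ := h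
  have hlen : ((w.drop b).take t).length = t := by
    simp; omega
  have hlu : (w.take b).length = b := by simp; omega
  refine ⟨b, t, h3, h4, h2, h6, ?_⟩
  unfold BB
  rw [hlen, hlu]
  refine ⟨h3, Or.inr ⟨b - a, by omega, h7, by omega, ?_⟩⟩
  intro i hi
  have e1 : w.take b ++ (w.drop b).take t = w.take (b + t) := by
    rw [List.take_add]
  rw [e1, List.getElem?_take, List.getElem?_take, if_pos (by omega), if_pos (by omega)]
  have e2 : b - (b - a) + i = a + i := by omega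
  rw [e2]
  have h8 := h5 i hi
  simp only [List.getD_eq_getElem?_getD] at h8
  rw [List.getElem?_eq_getElem (by omega), List.getElem?_eq_getElem (by omega)] at h8 ⊢
  simp only [Option.getD_some] at h8
  rw [h8]

theorem w9_an_one (N : Set (List (Fin d))) : an N 1 ≤ d := by
  classical
  unfold an
  have h : {w : List (Fin d) | w ∈ N ∧ w.length = 1} ⊆
      (((Finset.univ : Finset (Fin d)).image (fun a => [a]) : Finset (List (Fin d))) :
        Set (List (Fin d))) := by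
    rintro w ⟨-, hw⟩
    obtain ⟨a, rfl⟩ := List.length_eq_one_iff.1 hw
    simp
  refine (Set.ncard_le_ncard h (Finset.finite_toSet _)).trans ?_
  rw [Set.ncard_coe_finset]
  exact Finset.card_image_le.trans (by simp)

/-- the numerical condition of `chain` -/
theorem w9_num (hd : 2 ≤ d) (C CB : ℕ) (μ : ℝ) (h1 : 1 < μ) (hCB : ((d : ℝ)) ^ 8 ≤ μ ^ CB) (L t : ℕ)
    (hL : 4 * C * (d ^ 2 + CB) ≤ L) (hLt : CB * L ≤ 2 * t) :
    4 * C * (d ^ (2 * (L + 1)) + CB * (L + 1)) ≤ ⌊μ ^ t⌋₊ := by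
  apply Nat.le_floor
  have hμ0 : 0 < μ := by linarith
  have h2 : ((d : ℝ) ^ (4 * L)) ≤ μ ^ t := by
    have h3 : ((d : ℝ) ^ (4 * L)) ^ 2 ≤ (μ ^ t) ^ 2 := by
      calc ((d : ℝ) ^ (4 * L)) ^ 2 = ((d : ℝ) ^ 8) ^ L := by
            rw [← pow_mul, ← pow_mul]; congr 1; ring
        _ ≤ (μ ^ CB) ^ L := pow_le_pow_left₀ (by positivity) hCB L
        _ = μ ^ (CB * L) := by rw [← pow_mul]
        _ ≤ μ ^ (2 * t) := pow_le_pow_right₀ h1.le hLt
        _ = (μ ^ t) ^ 2 := by rw [← pow_mul]; congr 1; ring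
    exact (pow_le_pow_iff_left₀ (by positivity) (by positivity) two_ne_zero).1 h3
  refine le_trans ?_ h2
  have h4 : L + 1 ≤ d ^ L := by
    calc L + 1 ≤ 2 ^ L := Nat.lt_two_pow_self
      _ ≤ d ^ L := Nat.pow_le_pow_left hd L
  have h5 : 4 * C * (d ^ 2 + CB) ≤ d ^ (2 * L) := by
    have : d ^ L ≤ d ^ (2 * L) := Nat.pow_le_pow_right (by omega) (by omega)
    omega
  have h6 : 4 * C * (d ^ (2 * (L + 1)) + CB * (L + 1)) ≤ d ^ (4 * L) := by
    calc 4 * C * (d ^ (2 * (L + 1)) + CB * (L + 1)) ≤ 4 * C * (d ^ (2 * (L + 1)) + CB * d ^ (2 * L)) := by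
          have : L + 1 ≤ d ^ (2 * L) := h4.trans (Nat.pow_le_pow_right (by omega) (by omega))
          gcongr
      _ = (4 * C * (d ^ 2 + CB)) * d ^ (2 * L) := by ring
      _ ≤ d ^ (2 * L) * d ^ (2 * L) := Nat.mul_le_mul_right _ h5
      _ = d ^ (4 * L) := by rw [← pow_add]; congr 1; ring
  exact_mod_cast h6

/-- the bound for one `L` -/
theorem w9_term (hd : 2 ≤ d) (CB : ℕ) (μ : ℝ) (h1 : 1 < μ) (hμd : μ ≤ d) (n L : ℕ)
    (hn : d ^ (2 * L) ≤ n) :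
    (((CB * L + 1) * ((n / d ^ (2 * L) + 1) * (d ^ (2 * L) / ⌊μ ^ L⌋₊ + 2 + d ^ L)) : ℕ) : ℝ) ≤
      (n : ℝ) * (10 * ((CB * L + 1) * (μ⁻¹) ^ L)) := by
  have hμ0 : 0 < μ := by linarith
  have hd0 : (0 : ℝ) < d := by positivity
  have hD : (0 : ℝ) < (d : ℝ) ^ (2 * L) := by positivity
  have hμL : 1 ≤ μ ^ L := one_le_pow₀ h1.le
  have hμL0 : 0 < μ ^ L := by positivity
  have hfl : μ ^ L / 2 ≤ (⌊μ ^ L⌋₊ : ℝ) := by
    have h3 := Nat.lt_floor_add_one (μ ^ L)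
    have h4 : (1 : ℝ) ≤ (⌊μ ^ L⌋₊ : ℝ) := by
      exact_mod_cast (Nat.one_le_floor_iff _).2 hμL
    linarith
  have hfl0 : (0 : ℝ) < (⌊μ ^ L⌋₊ : ℝ) := lt_of_lt_of_le (by positivity) hfl
  have hn' : (d : ℝ) ^ (2 * L) ≤ n := by exact_mod_cast hn
  have e1 : ((n / d ^ (2 * L) : ℕ) : ℝ) + 1 ≤ 2 * (n / (d : ℝ) ^ (2 * L)) := by
    have h3 : ((n / d ^ (2 * L) : ℕ) : ℝ) ≤ (n : ℝ) / (d : ℝ) ^ (2 * L) := by
      have := @Nat.cast_div_le ℝ _ _ _ n (d ^ (2 * L))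
      push_cast at this
      exact this
    have h4 : 1 ≤ (n : ℝ) / (d : ℝ) ^ (2 * L) := by
      rw [le_div_iff₀ hD]; linarith
    linarith
  have e2 : ((d ^ (2 * L) / ⌊μ ^ L⌋₊ : ℕ) : ℝ) ≤ 2 * (d : ℝ) ^ (2 * L) / μ ^ L := by
    have h3 : ((d ^ (2 * L) / ⌊μ ^ L⌋₊ : ℕ) : ℝ) ≤ (d : ℝ) ^ (2 * L) / (⌊μ ^ L⌋₊ : ℝ) := by
      have := @Nat.cast_div_le ℝ _ _ _ (d ^ (2 * L)) ⌊μ ^ L⌋₊
      push_cast at this
      exact this
    refine h3.trans ?_
    rw [div_le_div_iff₀ hfl0 hμL0]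
    nlinarith
  have e3 : (2 : ℝ) + (d : ℝ) ^ L ≤ 3 * (d : ℝ) ^ L := by
    have : (1 : ℝ) ≤ (d : ℝ) ^ L := one_le_pow₀ (by exact_mod_cast (by omega : 1 ≤ d))
    linarith
  have e4 : (d : ℝ) ^ L ≤ (d : ℝ) ^ (2 * L) / μ ^ L := by
    rw [le_div_iff₀ hμL0, two_mul, pow_add]
    gcongr
  have e5 : (((d ^ (2 * L) / ⌊μ ^ L⌋₊ + 2 + d ^ L : ℕ)) : ℝ) ≤ 5 * ((d : ℝ) ^ (2 * L) / μ ^ L) := by
    push_cast
    have : 2 * (d : ℝ) ^ (2 * L) / μ ^ L = 2 * ((d : ℝ) ^ (2 * L) / μ ^ L) := by ring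
    rw [this] at e2
    push_cast at e2
    linarith
  calc (((CB * L + 1) * ((n / d ^ (2 * L) + 1) * (d ^ (2 * L) / ⌊μ ^ L⌋₊ + 2 + d ^ L)) : ℕ) : ℝ)
      = ((CB : ℝ) * L + 1) * ((((n / d ^ (2 * L) : ℕ) : ℝ) + 1) *
          (((d ^ (2 * L) / ⌊μ ^ L⌋₊ + 2 + d ^ L : ℕ)) : ℝ)) := by push_cast; ring
    _ ≤ ((CB : ℝ) * L + 1) * ((2 * (n / (d : ℝ) ^ (2 * L))) * (5 * ((d : ℝ) ^ (2 * L) / μ ^ L))) := by
        gcongr
    _ = (n : ℝ) * (10 * ((CB * L + 1) * (μ⁻¹) ^ L)) := by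
        rw [inv_pow]
        field_simp
        ring

theorem w9_summable (CB : ℕ) (μ : ℝ) (h1 : 1 < μ) :
    Summable (fun L : ℕ => ((CB : ℝ) * L + 1) * (μ⁻¹) ^ L) := by
  have hμ : ‖μ⁻¹‖ < 1 := by
    rw [Real.norm_of_nonneg (by positivity)]
    exact inv_lt_one_of_one_lt₀ h1
  have h2 := (summable_pow_mul_geometric_of_norm_lt_one 1 hμ).mul_left (CB : ℝ)
  have h3 := summable_pow_mul_geometric_of_norm_lt_one 0 hμ
  have h4 := h2.add h3
  refine h4.congr fun L => ?_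
  simp only [pow_one, pow_zero]
  ring

theorem w9_t0 (μ : ℝ) (h1 : 1 < μ) : ∃ t0 : ℕ, ∀ t : ℕ, t0 ≤ t → 4 * (t : ℝ) ≤ μ ^ t := by
  have h := tendsto_pow_const_div_const_pow_of_one_lt 1 h1
  have h2 := h.eventually (gt_mem_nhds (by norm_num : (0 : ℝ) < 1 / 4))
  obtain ⟨t0, ht0⟩ := Filter.eventually_atTop.1 h2
  refine ⟨t0, fun t ht => ?_⟩
  have h3 := ht0 t ht
  simp only [pow_one] at h3
  rw [div_lt_iff₀ (by positivity)] at h3
  linarith

/-- TARGET: the word lemma -/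
theorem WL (N : Set (List (Fin d))) (hfac : ∀ u v w : List (Fin d), u ++ v ++ w ∈ N → v ∈ N)
    (r : ℝ) (hr : 1 < r) (hN : ∀ n, 1 ≤ n → r ^ n ≤ (an N n : ℝ)) (μ : ℝ) (h1 : 1 < μ) (h2 : μ < r)
    (C j T0 : ℕ) (hC : 1 ≤ C) :
    ∃ nmax, ∀ E : ℕ → Finset (List (Fin d)), (∀ t, T0 ≤ t → ((E t).card : ℝ) ≤ μ ^ t) →
      ∃ l : ℕ → List (Fin d), cat l j ∈ N ∧ (cat l j).length ≤ nmax ∧
        (∀ i, i < j → Lyn (l i) ∧ T0 ≤ (l i).length ∧ l i ∉ E (l i).length) ∧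
        (∀ i, i + 1 < j → C * (l i).length ≤ (l (i + 1)).length ∧ SL (l (i + 1)) (l i)) := by
  classical
  have hrd : r ≤ d := by
    have h3 := hN 1 le_rfl
    rw [pow_one] at h3
    exact h3.trans (by exact_mod_cast w9_an_one N)
  have hd : 2 ≤ d := by
    have : (1 : ℝ) < d := lt_of_lt_of_le hr hrd
    exact_mod_cast this
  have hμd : μ ≤ d := by linarith
  -- the constants
  obtain ⟨k0, hk0⟩ := pow_unbounded_of_one_lt ((d : ℝ) ^ 8) h1
  set CB := max k0 3 with hCBdef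
  have hCB3 : 3 ≤ CB := le_max_right _ _
  have hCB8 : ((d : ℝ)) ^ 8 ≤ μ ^ CB :=
    hk0.le.trans (pow_le_pow_right₀ h1.le (le_max_left _ _))
  obtain ⟨sv, hsv⟩ := summable_iff_vanishing_norm.1 (w9_summable CB μ h1) (1 / 160) (by norm_num)
  set T1min := T0 + 1 + 4 * C * (d ^ 2 + CB) + (sv.sup id + 1) with hT1min
  obtain ⟨T1, hT1, hT11, n0, hCL⟩ := CL N hfac r hr hN μ h1 h2 CB T1min
  set Q : ℕ → ℕ := fun t => ⌊μ ^ t⌋₊ with hQ
  have num : ∀ L t, T1 ≤ L → CB * L ≤ 2 * t → 4 * C * (d ^ (2 * (L + 1)) + CB * (L + 1)) ≤ Q t := by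
    intro L t hL ht
    exact w9_num hd C CB μ h1 hCB8 L t (by omega) ht
  obtain ⟨Ltop, hLtop, hchain⟩ := chain C CB T1 Q hd hC hCB3 hT11 num j
  obtain ⟨t0, ht0⟩ := w9_t0 μ h1
  set n := n0 + 4 * Ltop + 4 * T1 + 2 * (d ^ (2 * Ltop) + CB * Ltop) + 4 * t0 + 100 with hn
  have hnQ : ∀ t, n ≤ 4 * t → n ≤ Q t := by
    intro t ht
    apply Nat.le_floor
    have h3 := ht0 t (by omega)
    have h4 : (n : ℝ) ≤ 4 * (t : ℝ) := by exact_mod_cast ht
    linarith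
  refine ⟨n, fun E hE => ?_⟩
  obtain ⟨w, hwN, hwn, hbad⟩ := hCL n (by omega) E (fun t ht => hE t (by omega))
  set Bad := ((Finset.range (n + 1)).filter (fun e => ∃ i t, T1 ≤ t ∧ i + t ≤ n ∧ i ≤ e ∧
    e ≤ i + CB * t ∧ BB E (fun t => ⌊μ ^ t⌋₊) T1 (w.take i) ((w.drop i).take t))) with hBad
  set z : Fin d := ⟨0, by omega⟩ with hz
  set w' : ℕ → Fin d := fun i => w.getD i z with hw'
  have hPB : ∀ e, e ≤ n → PBad w' n Q T1 CB e → e ∈ Bad := by
    intro e he h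
    rw [hBad, Finset.mem_filter]
    exact ⟨Finset.mem_range.2 (by omega), w9_pbad_bad w z n hwn μ T1 CB e E h⟩
  set SS : ℕ → Finset ℕ := fun L => (Finset.range (n + 1)).filter (fun e => n ≤ 2 * e ∧ 4 * e ≤ 3 * n ∧
      ¬ PBad w' n Q T1 CB e ∧
      ¬ ∃ m, Rec w' n e m ∧ CB * L < e - m ∧ e - m ≤ d ^ (2 * L) + CB * L) with hSS
  have hSScard : ∀ L ∈ Finset.Icc T1 Ltop, ((SS L).card : ℝ) ≤
      (n : ℝ) * (10 * (((CB : ℝ) * L + 1) * (μ⁻¹) ^ L)) := by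
    intro L hL
    obtain ⟨hL1, hL2⟩ := Finset.mem_Icc.1 hL
    have hpow : d ^ (2 * L) ≤ d ^ (2 * Ltop) := Nat.pow_le_pow_right (by omega) (by omega)
    have hCBL : CB * L ≤ CB * Ltop := Nat.mul_le_mul_left _ hL2
    have h3 := rs_count w' n L T1 CB Q (by omega) (by omega) hL1 (by omega)
      ((Nat.one_le_floor_iff _).2 (one_le_pow₀ h1.le)) (by omega) (by omega) (by omega) hnQ
    have h4 : (SS L).card ≤
        (CB * L + 1) * ((n / d ^ (2 * L) + 1) * (d ^ (2 * L) / ⌊μ ^ L⌋₊ + 2 + d ^ L)) := h3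
    exact (Nat.cast_le.2 h4).trans (w9_term hd CB μ h1 hμd n L (by omega))
  have hsum : ∑ L ∈ Finset.Icc T1 Ltop, ((SS L).card : ℝ) ≤ (n : ℝ) / 16 := by
    have hdisj : Disjoint (Finset.Icc T1 Ltop) sv := by
      rw [Finset.disjoint_left]
      intro L hL hL'
      have h3 : L ≤ sv.sup id := Finset.le_sup (f := id) hL'
      have h4 := (Finset.mem_Icc.1 hL).1
      omega
    have h3 := hsv _ hdisj
    rw [Real.norm_eq_abs] at h3
    have h4 := (le_abs_self _).trans h3.le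
    calc ∑ L ∈ Finset.Icc T1 Ltop, ((SS L).card : ℝ)
        ≤ ∑ L ∈ Finset.Icc T1 Ltop, (n : ℝ) * (10 * (((CB : ℝ) * L + 1) * (μ⁻¹) ^ L)) :=
          Finset.sum_le_sum hSScard
      _ = (n : ℝ) * (10 * ∑ L ∈ Finset.Icc T1 Ltop, (((CB : ℝ) * L + 1) * (μ⁻¹) ^ L)) := by
          rw [Finset.mul_sum, Finset.mul_sum]
      _ ≤ (n : ℝ) * (10 * (1 / 160)) := by gcongr
      _ = (n : ℝ) / 16 := by ring
  -- a good position
  have hex : ∃ e, n ≤ 2 * e ∧ 4 * e ≤ 3 * n ∧ e ∉ Bad ∧ ∀ L ∈ Finset.Icc T1 Ltop, e ∉ SS L := by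
    by_contra hcon
    push Not at hcon
    have hsub : Finset.Icc ((n + 1) / 2) (3 * n / 4) ⊆ Bad ∪ (Finset.Icc T1 Ltop).biUnion SS := by
      intro e he
      obtain ⟨he1, he2⟩ := Finset.mem_Icc.1 he
      rw [Finset.mem_union, Finset.mem_biUnion]
      by_cases hb : e ∈ Bad
      · exact Or.inl hb
      · right
        exact hcon e (by omega) (by omega) hb
    have h3 := (Finset.card_le_card hsub).trans (Finset.card_union_le _ _)
    have h4 : ((Finset.Icc T1 Ltop).biUnion SS).card ≤ ∑ L ∈ Finset.Icc T1 Ltop, (SS L).card :=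
      Finset.card_biUnion_le
    rw [Nat.card_Icc] at h3
    have h5 : (16 : ℝ) * (((∑ L ∈ Finset.Icc T1 Ltop, (SS L).card) : ℕ) : ℝ) ≤ n := by
      push_cast
      linarith
    have h6 : 16 * ∑ L ∈ Finset.Icc T1 Ltop, (SS L).card ≤ n := by exact_mod_cast h5
    omega
  obtain ⟨e, he1, he2, heB, heS⟩ := hex
  have hnpos : 100 ≤ n := by omega
  have hnP : ¬ PBad w' n Q T1 CB e := fun h => heB (hPB e (by omega) h)
  have hTyp : Typ w' n e Q T1 CB Ltop := by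
    refine ⟨by omega, ?_, ?_, ?_⟩
    · exact tot_of_not_pbad w' n e Q T1 CB (by omega) (by omega)
        (fun t ht => hnQ t (by omega)) hnP
    · intro a b t ha hb ht hbt hagr heb
      by_contra hcon
      exact hnP ⟨a, b, t, ha, hb, ht, hbt, hagr, heb, not_lt.1 hcon⟩
    · intro L hL1 hL2
      by_contra hcon
      apply heS L (Finset.mem_Icc.2 ⟨hL1, hL2⟩)
      rw [hSS, Finset.mem_filter]
      exact ⟨Finset.mem_range.2 (by omega), he1, he2, hnP, hcon⟩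
  obtain ⟨m, hm1, hm2, hm3⟩ := hchain w' n e hTyp
  have hmono := w9_cat w' m j (fun i hi => (hm2 i hi).1)
  have hm0 : m 0 ≤ e := (hm1 0 (Nat.zero_le _)).1
  refine ⟨fun i => blk w' (m (i + 1)) (m i), ?_, ?_, ?_, ?_⟩
  · rw [hmono.2, hw', w9_blk_eq w z hmono.1 (by omega)]
    apply hfac (w.take (m j)) _ ((w.drop (m j)).drop (m 0 - m j))
    rw [List.append_assoc, List.take_append_drop, List.take_append_drop]
    exact hwN
  · rw [hmono.2, w9_blk_length]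
    omega
  · intro i hi
    obtain ⟨h3, h4, h5, h6⟩ := hm2 i hi
    have hmi : m i ≤ e := (hm1 i hi.le).1
    refine ⟨h4, ?_, ?_⟩
    · rw [w9_blk_length]; omega
    · intro hE'
      apply heB
      rw [hBad, Finset.mem_filter]
      have hblk : blk w' (m (i + 1)) (m i) = (w.drop (m (i + 1))).take (m i - m (i + 1)) :=
        w9_blk_eq w z h3.le (by omega)
      have hCBt : 2 * (m i - m (i + 1)) ≤ CB * (m i - m (i + 1)) := Nat.mul_le_mul_right _ (by omega)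
      refine ⟨Finset.mem_range.2 (by omega), m (i + 1), m i - m (i + 1), h5, by omega, by omega,
        by omega, ?_⟩
      unfold BB
      rw [← hblk]
      refine ⟨?_, Or.inl hE'⟩
      rw [w9_blk_length]
      exact h5
  · intro i hi
    obtain ⟨h3, h4⟩ := hm3 i hi
    refine ⟨?_, h4⟩
    rw [w9_blk_length, w9_blk_length]
    exact h3

end FPW
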